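import Mathlib
import Pool.Agent.TH881.RG.Den

set_option autoImplicit false

namespace Pool.Agent.TH494.RG

open Finset Filter Topology
open Pool.Agent.TH881 Pool.Agent.TH881.RG
open Pool.Agent.H373R2.T7

lemma pp_pos (w n : ℕ) (hn : 2 ≤ n) : 0 < pp w n := by
  unfold pp
  have h1 : (2 : ℝ) ≤ n := by exact_mod_cast hn
  have h2 : 0 < Real.log n := Real.log_pos (by linarith)
  have h3 := totient_Wp_pos w
  positivity

lemma sqrt_small (w : ℕ) (ε : ℝ) (hε : 0 < ε) : ∀ᶠ n : ℕ in atTop, √(n : ℝ) ≤ ε * pp w n := by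
  have hφ := totient_Wp_pos w
  have h := (isLittleO_log_rpow_atTop (show (0 : ℝ) < 1 / 2 by norm_num)).bound
    (show 0 < ε / (Nat.totient (Wp w) : ℝ) by positivity)
  filter_upwards [tendsto_natCast_atTop_atTop.eventually h, eventually_ge_atTop 2] with n hn hn2
  have h1 : (2 : ℝ) ≤ n := by exact_mod_cast hn2
  have h2 : 0 < Real.log n := Real.log_pos (by linarith)
  rw [← Real.sqrt_eq_rpow, Real.norm_of_nonneg h2.le, Real.norm_of_nonneg (Real.sqrt_nonneg _)] at hn
  unfold pp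
  have h3 : Real.sqrt n * Real.sqrt n = n := Real.mul_self_sqrt (by linarith)
  rw [← mul_div_assoc, le_div_iff₀ (by positivity)]
  have h4 : (Nat.totient (Wp w) : ℝ) * Real.log n ≤ ε * √(n : ℝ) := by
    calc (Nat.totient (Wp w) : ℝ) * Real.log n ≤
        (Nat.totient (Wp w) : ℝ) * (ε / (Nat.totient (Wp w) : ℝ) * √(n : ℝ)) := by gcongr
      _ = _ := by field_simp
  calc √(n : ℝ) * (Nat.totient (Wp w) * Real.log n) ≤ √(n : ℝ) * (ε * √(n : ℝ)) := by
        gcongr
    _ = ε * (√(n : ℝ) * √(n : ℝ)) := by ring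
    _ = _ := by rw [h3]

open Classical in
/-- the primes up to `n` in the classes of `C` -/
noncomputable def PrC (w n : ℕ) (C : Finset (ZMod (Wp w))) : Finset ℕ :=
  (Icc 1 n).filter (fun p : ℕ => p.Prime ∧ (p : ZMod (Wp w)) ∈ C)

lemma prime_count (hPC : StPC) (w : ℕ) (ε : ℝ) (hε : 0 < ε) : ∀ᶠ n : ℕ in atTop,
    ∀ C : Finset (ZMod (Wp w)), (∀ a ∈ C, IsUnit a) →
    (C.card : ℝ) * ((1 - ε) * pp w n) ≤ ((PrC w n C).card : ℝ) ∧
    ((PrC w n C).card : ℝ) ≤ (C.card : ℝ) * ((1 + ε) * pp w n) + √(n : ℝ) := by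
  classical
  obtain ⟨N0, hN0⟩ := hPC w ε 1 hε one_pos
  filter_upwards [eventually_ge_atTop N0, eventually_ge_atTop 2] with n hn hn2 C hC
  have hpp := pp_pos w n hn2
  set s := (Icc 1 n).filter (fun p : ℕ => p.Prime ∧ √(n : ℝ) < p) with hs
  have h1 : ∀ a ∈ C, (1 - ε) * pp w n ≤ ((cls w s a).card : ℝ) ∧
      ((cls w s a).card : ℝ) ≤ (1 + ε) * pp w n := by
    intro a ha
    have h2 := hN0 n hn n le_rfl (by rw [one_mul]) a (hC a ha)
    unfold bbf at h2
    rw [abs_le] at h2
    have h3 : ((cls w s a).card : ℝ) = ((cls w s a).card : ℝ) / pp w n * pp w n := by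
      field_simp
    constructor
    · rw [h3]
      exact mul_le_mul_of_nonneg_right (by linarith [h2.1]) hpp.le
    · rw [h3]
      exact mul_le_mul_of_nonneg_right (by linarith [h2.2]) hpp.le
  have h2 : ∑ a ∈ C, (cls w s a).card = (s.filter (fun p : ℕ => (p : ZMod (Wp w)) ∈ C)).card := by
    rw [← Finset.sum_card_fiberwise_eq_card_filter]
    rfl
  have h3 : (s.filter (fun p : ℕ => (p : ZMod (Wp w)) ∈ C)).card ≤ (PrC w n C).card := by
    apply card_le_card
    intro p hp
    rw [mem_filter, hs, mem_filter] at hp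
    unfold PrC
    rw [mem_filter]
    exact ⟨hp.1.1, hp.1.2.1, hp.2⟩
  have h4 : PrC w n C ⊆ s.filter (fun p : ℕ => (p : ZMod (Wp w)) ∈ C) ∪ Icc 1 ⌊√(n : ℝ)⌋₊ := by
    intro p hp
    unfold PrC at hp
    rw [mem_filter] at hp
    rw [mem_union, mem_filter, hs, mem_filter]
    by_cases h : √(n : ℝ) < p
    · left
      exact ⟨⟨hp.1, hp.2.1, h⟩, hp.2.2⟩
    · right
      push Not at h
      exact mem_Icc.2 ⟨(mem_Icc.1 hp.1).1, Nat.le_floor h⟩
  have h5 := (card_le_card h4).trans (card_union_le _ _)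
  rw [Nat.card_Icc, Nat.add_sub_cancel] at h5
  have h6 : ((PrC w n C).card : ℝ) ≤
      ((s.filter (fun p : ℕ => (p : ZMod (Wp w)) ∈ C)).card : ℝ) + (⌊√(n : ℝ)⌋₊ : ℝ) := by
    exact_mod_cast h5
  have h7 : (⌊√(n : ℝ)⌋₊ : ℝ) ≤ √(n : ℝ) := Nat.floor_le (Real.sqrt_nonneg _)
  have h8 : ((s.filter (fun p : ℕ => (p : ZMod (Wp w)) ∈ C)).card : ℝ) =
      ∑ a ∈ C, ((cls w s a).card : ℝ) := by
    rw [← h2]
    push_cast
    rfl
  have h9 : ((s.filter (fun p : ℕ => (p : ZMod (Wp w)) ∈ C)).card : ℝ) ≤ ((PrC w n C).card : ℝ) := by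
    exact_mod_cast h3
  constructor
  · refine le_trans ?_ h9
    rw [h8, ← nsmul_eq_mul]
    exact card_nsmul_le_sum C _ _ fun a ha => (h1 a ha).1
  · refine h6.trans ?_
    have : ((s.filter (fun p : ℕ => (p : ZMod (Wp w)) ∈ C)).card : ℝ) ≤
        (C.card : ℝ) * ((1 + ε) * pp w n) := by
      rw [h8, ← nsmul_eq_mul]
      exact sum_le_card_nsmul C _ _ fun a ha => (h1 a ha).2
    linarith

lemma relLower_ge (hPC : StPC) (w : ℕ) (C : Finset (ZMod (Wp w))) (hC : ∀ a ∈ C, IsUnit a) :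
    1 - (C.card : ℝ) / Nat.totient (Wp w) ≤ relLower {p : ℕ | (p : ZMod (Wp w)) ∉ C} := by
  classical
  have hφ := totient_Wp_pos w
  set φ : ℝ := (Nat.totient (Wp w) : ℝ) with hφd
  -- the bound with `ε`
  have key : ∀ ε : ℝ, 0 < ε → ε < 1 → 1 - (ε + (C.card : ℝ) * (1 + ε)) / (φ * (1 - ε)) ≤
      relLower {p : ℕ | (p : ZMod (Wp w)) ∉ C} := by
    intro ε hε hε1
    unfold relLower
    apply le_liminf_of_le
    · apply IsBoundedUnder.isCoboundedUnder_ge
      refine isBoundedUnder_of ⟨1, fun n => ?_⟩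
      have h1 : cnt {p | p.Prime ∧ p ∈ {p : ℕ | (p : ZMod (Wp w)) ∉ C}} n ≤ cnt {p | p.Prime} n :=
        cnt_subset (fun p hp => hp.1) n
      have h2 : (cnt {p | p.Prime ∧ p ∈ {p : ℕ | (p : ZMod (Wp w)) ∉ C}} n : ℝ) ≤
        (cnt {p | p.Prime} n : ℝ) := by exact_mod_cast h1
      exact div_le_one_of_le₀ h2 (Nat.cast_nonneg _)
    · filter_upwards [prime_count hPC w ε hε, sqrt_small w ε hε, eventually_ge_atTop 2] with n h1 h2 h3
      have hpp := pp_pos w n h3
      have h4 := (h1 C hC).2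
      have h5 := (h1 (UU w) (fun a ha => mem_UU.1 ha)).1
      rw [card_UU] at h5
      -- counting
      have h6 : cnt {p | p.Prime} n = cnt {p | p.Prime ∧ p ∈ {p : ℕ | (p : ZMod (Wp w)) ∉ C}} n +
          (PrC w n C).card := by
        unfold cnt PrC
        rw [← card_union_of_disjoint]
        · congr 1
          ext p
          simp only [mem_union, mem_filter, Set.mem_ofPred_eq]
          tauto
        · rw [disjoint_left]
          intro p hp hp'
          simp only [mem_filter, Set.mem_ofPred_eq] at hp hp'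
          exact hp.2.2 hp'.2.2
      have h7 : ((PrC w n (UU w)).card : ℝ) ≤ (cnt {p | p.Prime} n : ℝ) := by
        have : (PrC w n (UU w)).card ≤ cnt {p | p.Prime} n := by
          unfold cnt PrC
          apply card_le_card
          intro p hp
          simp only [mem_filter, Set.mem_ofPred_eq] at hp ⊢
          exact ⟨hp.1, hp.2.1⟩
        exact_mod_cast this
      set P : ℝ := (cnt {p | p.Prime} n : ℝ) with hP
      have hP0 : φ * ((1 - ε) * pp w n) ≤ P := h5.trans h7
      have hl0 : 0 < φ * ((1 - ε) * pp w n) := by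
        have : 0 < 1 - ε := by linarith
        positivity
      have hPpos : 0 < P := lt_of_lt_of_le hl0 hP0
      have h8 : (cnt {p | p.Prime ∧ p ∈ {p : ℕ | (p : ZMod (Wp w)) ∉ C}} n : ℝ) =
          P - ((PrC w n C).card : ℝ) := by
        have : (cnt {p | p.Prime} n : ℝ) =
          (cnt {p | p.Prime ∧ p ∈ {p : ℕ | (p : ZMod (Wp w)) ∉ C}} n : ℝ) + ((PrC w n C).card : ℝ) := by
          exact_mod_cast h6
        rw [hP]
        linarith
      change _ ≤ (cnt {p | p.Prime ∧ p ∈ {p : ℕ | (p : ZMod (Wp w)) ∉ C}} n : ℝ) / P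
      rw [h8, sub_div, div_self hPpos.ne']
      have h9 : ((PrC w n C).card : ℝ) / P ≤ (ε + (C.card : ℝ) * (1 + ε)) / (φ * (1 - ε)) := by
        calc ((PrC w n C).card : ℝ) / P ≤
            ((C.card : ℝ) * ((1 + ε) * pp w n) + ε * pp w n) / (φ * ((1 - ε) * pp w n)) := by
              apply div_le_div₀ _ _ hl0 hP0
              · positivity
              · linarith
          _ = _ := by
              have : (1 - ε) ≠ 0 := by
                have : 0 < 1 - ε := by linarith
                exact this.ne'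
              field_simp
              ring
      linarith
  have hlim : Tendsto (fun ε : ℝ => 1 - (ε + (C.card : ℝ) * (1 + ε)) / (φ * (1 - ε))) (𝓝[>] 0)
      (𝓝 (1 - (0 + (C.card : ℝ) * (1 + 0)) / (φ * (1 - 0)))) := by
    apply Tendsto.mono_left _ nhdsWithin_le_nhds
    have : ContinuousAt (fun ε : ℝ => 1 - (ε + (C.card : ℝ) * (1 + ε)) / (φ * (1 - ε))) 0 := by
      apply ContinuousAt.sub continuousAt_const
      apply ContinuousAt.div (by fun_prop) (by fun_prop)
      simp
      exact_mod_cast hφ.ne'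
    exact this
  have e : 1 - (0 + (C.card : ℝ) * (1 + 0)) / (φ * (1 - 0)) = 1 - (C.card : ℝ) / φ := by ring
  rw [e] at hlim
  apply le_of_tendsto hlim
  filter_upwards [Ioo_mem_nhdsGT (show (0 : ℝ) < 1 by norm_num)] with ε hε
  exact key ε hε.1 hε.2

/-- the primes have density zero -/
lemma primes_small (hPC : StPC) (ε : ℝ) (hε : 0 < ε) : ∀ᶠ n : ℕ in atTop,
    (((Icc 1 n).filter Nat.Prime).card : ℝ) ≤ ε * n := by
  classical
  -- use `w = 0`
  have h0 : Wp 0 = 1 := by
    unfold Wp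
    rw [show pz 0 = ∅ from rfl, prod_empty]
  have hlog : ∀ᶠ n : ℕ in atTop, 3 / ε ≤ Real.log n :=
    (Real.tendsto_log_atTop.comp tendsto_natCast_atTop_atTop).eventually_ge_atTop _
  filter_upwards [prime_count hPC 0 1 one_pos, sqrt_small 0 1 one_pos, eventually_ge_atTop 2, hlog]
    with n h1 h2 h3 h4
  have hpp := pp_pos 0 n h3
  have h5 := (h1 (UU 0) (fun a ha => mem_UU.1 ha)).2
  rw [card_UU] at h5
  have h6 : (Icc 1 n).filter Nat.Prime = PrC 0 n (UU 0) := by
    unfold PrC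
    apply filter_congr
    intro p _
    constructor
    · intro hp
      refine ⟨hp, ?_⟩
      rw [mem_UU]
      have : Subsingleton (ZMod (Wp 0)) := by rw [h0]; infer_instance
      exact isUnit_of_subsingleton _
    · exact fun hp => hp.1
  rw [h6]
  refine h5.trans ?_
  have hR : (2 : ℝ) ≤ n := by exact_mod_cast h3
  have hn0 : (0 : ℝ) < n := by linarith
  have hl : 0 < Real.log n := Real.log_pos (by linarith)
  have h7 : (Nat.totient (Wp 0) : ℝ) = 1 := by rw [h0]; simp
  have h8 : pp 0 n = n / Real.log n := by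
    unfold pp
    rw [h7, one_mul]
  rw [h7]
  rw [h8] at h2 ⊢
  have h9 : 3 * ((n : ℝ) / Real.log n) ≤ ε * n := by
    rw [← mul_div_assoc, div_le_iff₀ hl]
    rw [div_le_iff₀ hε] at h4
    calc 3 * (n : ℝ) ≤ (Real.log n * ε) * n := by gcongr
      _ = _ := by ring
  linarith

end Pool.Agent.TH494.RG
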