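import Mathlib
import Pool.Agent.TH881.RG.Den

set_option autoImplicit false

namespace Pool.Agent.TH494.RG

open Finset Filter Topology
open Pool.Agent.TH881 Pool.Agent.TH881.RG
open Pool.Agent.H373R2.T7
open Pool.Agent.TH370.J1233 (PC fac_mem half_le_PC C2_ge C2_le xr one_le_xr)
open Pool.Agent.TH370.J1234 (U U_congr U_prod U_one U_prime wt_eq)

lemma PC_anti : Antitone PC := by
  refine antitone_nat_of_succ_le fun z => ?_
  unfold PC
  have hsub : (Icc 3 z).filter Nat.Prime ⊆ (Icc 3 (z + 1)).filter Nat.Prime := by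
    intro p hp
    rw [mem_filter, mem_Icc] at hp ⊢
    exact ⟨⟨hp.1.1, by omega⟩, hp.2⟩
  rw [← prod_sdiff hsub]
  have h2 : ∏ m ∈ (Icc 3 (z + 1)).filter Nat.Prime \ (Icc 3 z).filter Nat.Prime,
      (1 - 1 / ((m : ℝ) - 1) ^ 2) ≤ 1 := by
    refine prod_le_one (fun m hm => ?_) (fun m hm => ?_)
    · exact (fac_mem (mem_Icc.1 (mem_filter.1 (mem_sdiff.1 hm).1).1).1).1
    · exact (fac_mem (mem_Icc.1 (mem_filter.1 (mem_sdiff.1 hm).1).1).1).2
  have h3 : 0 ≤ ∏ m ∈ (Icc 3 z).filter Nat.Prime, (1 - 1 / ((m : ℝ) - 1) ^ 2) :=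
    prod_nonneg fun m hm => (fac_mem (mem_Icc.1 (mem_filter.1 hm).1).1).1
  calc _ ≤ 1 * ∏ m ∈ (Icc 3 z).filter Nat.Prime, (1 - 1 / ((m : ℝ) - 1) ^ 2) :=
        mul_le_mul_of_nonneg_right h2 h3
    _ = _ := one_mul _

lemma PC_lim : Tendsto PC atTop (𝓝 C2) := by
  refine tendsto_atTop_ciInf PC_anti ⟨1 / 2, ?_⟩
  rintro _ ⟨y, rfl⟩
  exact half_le_PC y

/-- the product of the inverse ratios -/
noncomputable def om (k : ℕ) : ℝ :=
  ∏ p ∈ (Icc 3 k).filter Nat.Prime, (((p : ℝ) - 2) / ((p : ℝ) - 1))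

lemma om_pos (k : ℕ) : 0 < om k := by
  refine prod_pos fun p hp => ?_
  rw [mem_filter, mem_Icc] at hp
  have h3 : (3 : ℝ) ≤ p := by exact_mod_cast hp.1.1
  have h4 : (0 : ℝ) < p - 2 := by linarith
  have h5 : (0 : ℝ) < p - 1 := by linarith
  positivity

lemma om_eq (k : ℕ) (hk : 2 ≤ k) : om k = 2 * PC k / Gam 1 k := by
  have h2mem : 2 ∈ pz k := mem_pz.2 ⟨hk, Nat.prime_two⟩
  have herase : (pz k).erase 2 = (Icc 3 k).filter Nat.Prime := by
    ext p
    rw [mem_erase, mem_pz, mem_filter, mem_Icc]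
    constructor
    · rintro ⟨h1, h3, h4⟩
      have := h4.two_le
      exact ⟨⟨by omega, h3⟩, h4⟩
    · rintro ⟨⟨h1, h2⟩, h3⟩
      exact ⟨by omega, h2, h3⟩
  have hG : Gam 1 k = 2 * ∏ p ∈ (Icc 3 k).filter Nat.Prime, (1 - 1 / (p : ℝ))⁻¹ := by
    unfold Gam
    rw [pT_one, ← mul_prod_erase _ _ h2mem, herase]
    congr 1
    norm_num
  have hx : om k * ∏ p ∈ (Icc 3 k).filter Nat.Prime, (1 - 1 / (p : ℝ))⁻¹ = PC k := by
    unfold PC om
    rw [← prod_mul_distrib]
    refine prod_congr rfl fun p hp => ?_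
    rw [mem_filter, mem_Icc] at hp
    have h3 : (3 : ℝ) ≤ p := by exact_mod_cast hp.1.1
    have h4 : (0 : ℝ) < p - 2 := by linarith
    have h5 : (0 : ℝ) < p - 1 := by linarith
    have h6 : (0 : ℝ) < p := by linarith
    have e : 1 - 1 / (p : ℝ) = (p - 1) / p := by field_simp
    rw [e, inv_div]
    field_simp
    ring
  have hG0 : (0 : ℝ) < Gam 1 k := lt_of_lt_of_le one_pos (one_le_Gam 1 k)
  rw [eq_div_iff hG0.ne', hG, ← hx]
  ring

lemma om_log : Tendsto (fun k : ℕ => om k * Real.log k) atTop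
    (𝓝 (2 * C2 * Real.exp (-Real.eulerMascheroniConstant))) := by
  have h1 := (PC_lim.const_mul 2).mul mert'
  refine h1.congr' ?_
  filter_upwards [eventually_ge_atTop 2] with k hk
  rw [om_eq k hk]
  ring

/-- the number of representations of `2` in a primorial modulus -/
lemma U_finset (s : Finset ℕ) (hs : ∀ p ∈ s, p.Prime) :
    U (ZMod (∏ p ∈ s, p)) 2 = ∏ p ∈ s, U (ZMod p) 2 := by
  classical
  induction s using Finset.induction_on with
  | empty =>
    rw [prod_empty, prod_empty]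
    exact U_one _
  | insert p s hp ih =>
    have h1 : ∀ q ∈ s, q.Prime := fun q hq => hs q (mem_insert_of_mem hq)
    have hpp := hs p (mem_insert_self p s)
    have hcop : p.Coprime (∏ q ∈ s, q) := by
      refine Nat.Coprime.prod_right fun q hq => ?_
      rw [Nat.coprime_primes hpp (h1 q hq)]
      rintro rfl
      exact hp hq
    have he : (ZMod.chineseRemainder hcop) 2 = ((2, 2) : ZMod p × ZMod (∏ q ∈ s, q)) :=
      map_ofNat (ZMod.chineseRemainder hcop) 2
    rw [prod_insert hp, prod_insert hp, ← ih h1, ← U_congr (ZMod.chineseRemainder hcop) 2, U_prod, he]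

lemma wt_two (w : ℕ) (hw : 2 ≤ w) : wt w 2 = om w := by
  have hpz : ∀ p ∈ pz w, p.Prime := fun p hp => (mem_pz.1 hp).2
  have h2mem : 2 ∈ pz w := mem_pz.2 ⟨hw, Nat.prime_two⟩
  have herase : (pz w).erase 2 = (Icc 3 w).filter Nat.Prime := by
    ext p
    rw [mem_erase, mem_pz, mem_filter, mem_Icc]
    constructor
    · rintro ⟨h1, h3, h4⟩
      have := h4.two_le
      exact ⟨⟨by omega, h3⟩, h4⟩
    · rintro ⟨⟨h1, h2⟩, h3⟩
      exact ⟨by omega, h2, h3⟩
  have hU : U (ZMod (Wp w)) 2 = ∏ p ∈ (Icc 3 w).filter Nat.Prime, (p - 2) := by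
    have h1 : U (ZMod (Wp w)) 2 = ∏ p ∈ pz w, U (ZMod p) 2 := U_finset _ hpz
    rw [h1, ← mul_prod_erase _ _ h2mem, herase]
    have e2 : U (ZMod 2) 2 = 1 := by
      rw [U_prime Nat.prime_two]
      rfl
    rw [e2, one_mul]
    refine prod_congr rfl fun p hp => ?_
    rw [mem_filter, mem_Icc] at hp
    have : Fact p.Prime := ⟨hp.2⟩
    rw [U_prime hp.2, if_neg]
    intro h
    have h' : ((2 : ℕ) : ZMod p) = 0 := by exact_mod_cast h
    rw [ZMod.natCast_eq_zero_iff] at h'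
    have := Nat.le_of_dvd (by norm_num) h'
    omega
  have htot : ∀ s : Finset ℕ, (∀ p ∈ s, p.Prime) → Nat.totient (∏ p ∈ s, p) = ∏ p ∈ s, (p - 1) := by
    classical
    intro s
    induction s using Finset.induction_on with
    | empty => intro _; simp
    | insert p s hp ih =>
      intro hs
      have h1 : ∀ q ∈ s, q.Prime := fun q hq => hs q (mem_insert_of_mem hq)
      have hpp := hs p (mem_insert_self p s)
      have hcop : p.Coprime (∏ q ∈ s, q) := by
        refine Nat.Coprime.prod_right fun q hq => ?_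
        rw [Nat.coprime_primes hpp (h1 q hq)]
        rintro rfl
        exact hp hq
      rw [prod_insert hp, prod_insert hp, Nat.totient_mul hcop, Nat.totient_prime hpp, ih h1]
  have hφ : Nat.totient (Wp w) = ∏ p ∈ (Icc 3 w).filter Nat.Prime, (p - 1) := by
    unfold Wp
    rw [htot _ hpz, ← mul_prod_erase _ _ h2mem, herase]
    simp
  rw [wt_eq, hU, hφ]
  unfold om
  push_cast
  rw [← prod_div_distrib]
  refine prod_congr rfl fun p hp => ?_
  rw [mem_filter, mem_Icc] at hp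
  rw [Nat.cast_sub (by omega), Nat.cast_sub (by omega)]
  norm_num

end Pool.Agent.TH494.RG
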