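import Mathlib
import Pool.Agent.TH881.RG.Den

set_option autoImplicit false

namespace Pool.Agent.TH494.RG

open Finset Filter Topology
open Pool.Agent.TH881 Pool.Agent.TH881.RG
open Pool.Agent.H373R2.T7

/-- the involution `a ↦ 2 - a` has at most two fixed points -/
lemma fix_card (W : ℕ) [NeZero W] :
    (univ.filter (fun a : ZMod W => a = 2 - a)).card ≤ 2 := by
  classical
  have hinj : ∀ a ∈ univ.filter (fun a : ZMod W => a = 2 - a), (a - 1).val ∈ ({0, W / 2} : Finset ℕ) := by
    intro a ha
    rw [mem_filter] at ha
    have h1 : (a - 1) + (a - 1) = 0 := by linear_combination ha.2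
    have h2 : (((a - 1).val + (a - 1).val : ℕ) : ZMod W) = 0 := by
      push_cast
      rw [ZMod.natCast_zmod_val]
      exact h1
    rw [ZMod.natCast_eq_zero_iff] at h2
    have h3 := ZMod.val_lt (a - 1)
    obtain ⟨k, hk⟩ := h2
    rw [mem_insert, mem_singleton]
    have hW : 0 < W := Nat.pos_of_ne_zero (NeZero.ne W)
    have h4 : k < 2 := by
      by_contra h
      push Not at h
      have : W * 2 ≤ W * k := Nat.mul_le_mul_left _ h
      omega
    interval_cases k
    · left; omega
    · right; omega
  calc (univ.filter (fun a : ZMod W => a = 2 - a)).card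
      ≤ ({0, W / 2} : Finset ℕ).card := by
        refine card_le_card_of_injOn (fun a => (a - 1).val) hinj ?_
        intro a _ b _ hab
        have h := ZMod.val_injective W hab
        linear_combination h
    _ ≤ 2 := card_le_two

/-- half of the representations -/
lemma exists_C (W : ℕ) [NeZero W] (S : Finset (ZMod W)) (hS : ∀ a ∈ S, 2 - a ∈ S) :
    ∃ C ⊆ S, (∀ a ∈ S, a ∈ C ∨ 2 - a ∈ C) ∧ 2 * C.card ≤ S.card + 2 := by
  classical
  refine ⟨S.filter (fun a => a.val ≤ (2 - a).val), filter_subset _ _, ?_, ?_⟩
  · intro a ha
    rcases le_total a.val (2 - a).val with h | h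
    · left
      rw [mem_filter]
      exact ⟨ha, h⟩
    · right
      rw [mem_filter]
      refine ⟨hS a ha, ?_⟩
      rwa [sub_sub_cancel]
  · set C := S.filter (fun a => a.val ≤ (2 - a).val) with hC
    set D := C.image (fun a => 2 - a) with hD
    have h1 : D.card = C.card := by
      rw [hD]
      refine card_image_of_injective _ ?_
      intro a b hab
      have : (2 : ZMod W) - a = 2 - b := hab
      linear_combination -this
    have h2 : C ∪ D ⊆ S := by
      refine union_subset (filter_subset _ _) ?_
      intro x hx
      rw [hD, mem_image] at hx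
      obtain ⟨a, ha, rfl⟩ := hx
      exact hS a (mem_filter.1 ha).1
    have h3 : C ∩ D ⊆ univ.filter (fun a : ZMod W => a = 2 - a) := by
      intro x hx
      rw [mem_inter] at hx
      obtain ⟨hx1, hx2⟩ := hx
      rw [hD, mem_image] at hx2
      obtain ⟨a, ha, rfl⟩ := hx2
      rw [hC, mem_filter] at ha hx1
      rw [sub_sub_cancel] at hx1
      rw [mem_filter]
      refine ⟨mem_univ _, ?_⟩
      rw [sub_sub_cancel]
      exact ZMod.val_injective W (le_antisymm hx1.2 ha.2)
    have h4 := card_union_add_card_inter C D
    have h5 := card_le_card h2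
    have h6 := (card_le_card h3).trans (fix_card W)
    omega

end Pool.Agent.TH494.RG
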