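import Mathlib
import Pool.Agent.TH881.RG.Den
import Pool.Agent.TH494.RgA
import Pool.Agent.TH494.RgB
import Pool.Agent.TH494.RgC

set_option autoImplicit false

namespace Pool.Agent.TH494.RG

open Finset Filter Topology
open Pool.Agent.TH881 Pool.Agent.TH881.RG
open Pool.Agent.H373R2.T7
open Pool.Agent.TH370.J1234 (wt_eq)
open Pool.Agent.TH370.J1233 (C2_ge)

/-- the class of `2` has density `1 / W` -/
lemma class_two (W N : ℕ) (hW : 2 ≤ W) :
    (N : ℝ) / W - 1 ≤ (((Icc 1 N).filter (fun n : ℕ => (n : ZMod W) = 2)).card : ℝ) := by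
  classical
  rcases Nat.lt_or_ge N 2 with h | h
  · have h1 : (N : ℝ) ≤ W := by exact_mod_cast (by omega : N ≤ W)
    have h2 : (0 : ℝ) < W := by exact_mod_cast (by omega : 0 < W)
    have h3 : (N : ℝ) / W ≤ 1 := by rw [div_le_one h2]; exact h1
    have h4 : (0 : ℝ) ≤ (((Icc 1 N).filter (fun n : ℕ => (n : ZMod W) = 2)).card : ℝ) := Nat.cast_nonneg _
    linarith
  · have h1 : (range ((N - 2) / W + 1)).card ≤
        ((Icc 1 N).filter (fun n : ℕ => (n : ZMod W) = 2)).card := by
      refine card_le_card_of_injOn (fun k => 2 + W * k) ?_ ?_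
      · intro k hk
        have hk' : k < (N - 2) / W + 1 := mem_range.1 hk
        have h2 : W * k ≤ N - 2 := by
          calc W * k ≤ W * ((N - 2) / W) := Nat.mul_le_mul_left _ (by omega)
            _ ≤ N - 2 := Nat.mul_div_le _ _
        simp only [coe_filter, mem_Icc, Set.mem_ofPred_eq]
        refine ⟨⟨by omega, by omega⟩, ?_⟩
        push_cast
        simp
      · intro a _ b _ hab
        have h2 : 2 + W * a = 2 + W * b := hab
        exact Nat.eq_of_mul_eq_mul_left (by omega) (by omega : W * a = W * b)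
    rw [card_range] at h1
    have h2 : (N : ℝ) / W - 1 ≤ (((N - 2) / W + 1 : ℕ) : ℝ) := by
      have hW0 : (0 : ℝ) < W := by exact_mod_cast (by omega : 0 < W)
      rw [sub_le_iff_le_add, div_le_iff₀ hW0]
      have h3 : N < W * ((N - 2) / W + 1) + 2 := by
        have := Nat.lt_mul_div_succ (N - 2) (show 0 < W by omega)
        omega
      have h4 : N ≤ ((N - 2) / W + 1 + 1) * W := by
        have : ((N - 2) / W + 1 + 1) * W = W * ((N - 2) / W + 1) + W := by ring
        omega
      exact_mod_cast h4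
    exact h2.trans (by exact_mod_cast h1)

lemma rep_zero (A : Set ℕ) (n : ℕ)
    (h : ∀ p q : ℕ, p + q = n → p.Prime → p ∈ A → q.Prime → q ∈ A → False) : rep A n = 0 := by
  classical
  unfold rep
  rw [card_eq_zero, filter_eq_empty_iff]
  rintro ⟨p, q⟩ hpq ⟨⟨hp1, hp2⟩, ⟨hq1, hq2⟩⟩
  rw [HasAntidiagonal.mem_antidiagonal] at hpq
  exact h p q hpq hp1 hp2 hq1 hq2

lemma card_le_cnt (A : Set ℕ) (N : ℕ) (S T : Finset ℕ) (hS : S ⊆ Icc 1 N)
    (h : ∀ n ∈ S, n ∈ A ∨ n ∈ T) : S.card ≤ cnt A N + T.card := by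
  classical
  have h1 : S ⊆ (Icc 1 N).filter (fun a => a ∈ A) ∪ T := by
    intro n hn
    rw [mem_union, mem_filter]
    rcases h n hn with h2 | h2
    · exact Or.inl ⟨hS hn, h2⟩
    · exact Or.inr h2
  refine (card_le_card h1).trans ((card_union_le _ _).trans ?_)
  unfold cnt
  exact le_of_eq (by congr)

lemma dens_ge (hPC : StPC) (w : ℕ) (hw : 2 ≤ w) (C : Finset (ZMod (Wp w)))
    (hC : ∀ a : ZMod (Wp w), IsUnit a → IsUnit (2 - a) → a ∈ C ∨ 2 - a ∈ C) :
    1 / (Wp w : ℝ) ≤
      lowerDensity {n | Even n ∧ rep {p : ℕ | (p : ZMod (Wp w)) ∉ C} n = 0} := by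
  classical
  have hW2 : 2 ∣ Wp w := (prime_dvd_Wp Nat.prime_two).2 hw
  have hW : 2 ≤ Wp w := Nat.le_of_dvd (Wp_pos w) hW2
  -- the exceptional set
  have hsub : ∀ N : ℕ, ((Icc 1 N).filter (fun n : ℕ => (n : ZMod (Wp w)) = 2)).card ≤
      cnt {n | Even n ∧ rep {p : ℕ | (p : ZMod (Wp w)) ∉ C} n = 0} N +
      ((range (w + 1)).biUnion (fun l => ((Icc 1 N).filter Nat.Prime).image (fun p => l + p))).card := by
    intro N
    apply card_le_cnt _ _ _ _ (filter_subset _ _)
    intro n hn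
    rw [mem_filter, mem_Icc] at hn
    by_cases hex : ∃ l p : ℕ, l ≤ w ∧ p.Prime ∧ l + p = n
    · right
      obtain ⟨l, p, h1, h2, h3⟩ := hex
      rw [mem_biUnion]
      refine ⟨l, mem_range.2 (by omega), ?_⟩
      rw [mem_image]
      refine ⟨p, ?_, h3⟩
      rw [mem_filter, mem_Icc]
      exact ⟨⟨h2.pos, by omega⟩, h2⟩
    · left
      refine ⟨?_, ?_⟩
      · have h1 : ((n : ℕ) : ZMod (Wp w)) = ((2 : ℕ) : ZMod (Wp w)) := by
          rw [hn.2]; norm_num
        rw [ZMod.natCast_eq_natCast_iff] at h1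
        have h2 : n ≡ 2 [MOD 2] := h1.of_dvd hW2
        rw [Nat.even_iff]
        exact h2
      · apply rep_zero
        intro p q hpq hp1 hp2 hq1 hq2
        have hpw : w < p := by
          by_contra h
          exact hex ⟨p, q, by omega, hq1, hpq⟩
        have hqw : w < q := by
          by_contra h
          exact hex ⟨q, p, by omega, hp1, by omega⟩
        have hup : IsUnit (p : ZMod (Wp w)) := by
          rw [ZMod.isUnit_iff_coprime, Nat.Prime.coprime_iff_not_dvd hp1, prime_dvd_Wp hp1]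
          omega
        have huq : IsUnit (q : ZMod (Wp w)) := by
          rw [ZMod.isUnit_iff_coprime, Nat.Prime.coprime_iff_not_dvd hq1, prime_dvd_Wp hq1]
          omega
        have hq3 : (q : ZMod (Wp w)) = 2 - p := by
          rw [← hn.2, ← hpq]
          push_cast
          ring
        have hp2' : (p : ZMod (Wp w)) ∉ C := hp2
        have hq2' : (q : ZMod (Wp w)) ∉ C := hq2
        rw [hq3] at huq hq2'
        rcases hC _ hup huq with h | h
        · exact hp2' h
        · exact hq2' h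
  have key : ∀ ε : ℝ, 0 < ε → 1 / (Wp w : ℝ) - ε ≤
      lowerDensity {n | Even n ∧ rep {p : ℕ | (p : ZMod (Wp w)) ∉ C} n = 0} := by
    intro ε hε
    apply le_of_eventually
    have hlin : ∀ᶠ N : ℕ in atTop, 1 ≤ ε / 2 * (N : ℝ) :=
      (tendsto_natCast_atTop_atTop.const_mul_atTop (by positivity)).eventually_ge_atTop _
    filter_upwards [primes_small hPC (ε / (2 * (w + 1))) (by positivity), hlin] with N h1 h2
    have h3 := hsub N
    have h4 : ((range (w + 1)).biUnion (fun l => ((Icc 1 N).filter Nat.Prime).image (fun p => l + p))).card ≤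
        (w + 1) * ((Icc 1 N).filter Nat.Prime).card := by
      refine card_biUnion_le.trans ?_
      calc ∑ l ∈ range (w + 1), (((Icc 1 N).filter Nat.Prime).image (fun p => l + p)).card ≤
          ∑ l ∈ range (w + 1), ((Icc 1 N).filter Nat.Prime).card := sum_le_sum fun l _ => card_image_le
        _ = _ := by rw [sum_const, card_range, smul_eq_mul]
    have h5 := class_two (Wp w) N hW
    have h6 : (((Icc 1 N).filter (fun n : ℕ => (n : ZMod (Wp w)) = 2)).card : ℝ) ≤
        (cnt {n | Even n ∧ rep {p : ℕ | (p : ZMod (Wp w)) ∉ C} n = 0} N : ℝ) +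
          ((w : ℝ) + 1) * (((Icc 1 N).filter Nat.Prime).card : ℝ) := by
      have h7 : ((Icc 1 N).filter (fun n : ℕ => (n : ZMod (Wp w)) = 2)).card ≤
        cnt {n | Even n ∧ rep {p : ℕ | (p : ZMod (Wp w)) ∉ C} n = 0} N +
          (w + 1) * ((Icc 1 N).filter Nat.Prime).card := by
        refine h3.trans ?_
        exact Nat.add_le_add_left h4 _
      exact_mod_cast h7
    have h8 : ((w : ℝ) + 1) * (((Icc 1 N).filter Nat.Prime).card : ℝ) ≤ ε / 2 * N := by
      calc ((w : ℝ) + 1) * (((Icc 1 N).filter Nat.Prime).card : ℝ) ≤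
          ((w : ℝ) + 1) * (ε / (2 * (w + 1)) * N) := by gcongr
        _ = _ := by field_simp
    have h9 : (1 / (Wp w : ℝ) - ε) * N = (N : ℝ) / Wp w - ε * N := by ring
    rw [h9]
    linarith
  apply le_of_forall_pos_le_add
  intro ε hε
  linarith [key ε hε]

/-- the loss for the parameter `y` -/
noncomputable def DD (y : ℕ) : ℝ := om y / 2 + 1 / (Nat.totient (Wp y) : ℝ)

lemma totient_ge (y : ℕ) (hy : 2 ≤ y) : (y : ℝ) / 2 - 1 ≤ (Nat.totient (Wp y) : ℝ) := by
  obtain ⟨p, hp, h1, h2⟩ := Nat.exists_prime_lt_and_le_two_mul (y / 2) (by omega)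
  have h3 : p ∣ Wp y := (prime_dvd_Wp hp).2 (by omega)
  have h4 : Nat.totient p ∣ Nat.totient (Wp y) := Nat.totient_dvd_of_dvd h3
  have h5 := Nat.le_of_dvd (Nat.totient_pos.2 (Wp_pos y)) h4
  rw [Nat.totient_prime hp] at h5
  have h6 : y ≤ 2 * (Nat.totient (Wp y)) + 1 := by omega
  have h7 : (y : ℝ) ≤ 2 * (Nat.totient (Wp y) : ℝ) + 1 := by exact_mod_cast h6
  linarith

lemma DD_pos (y : ℕ) : 0 < DD y := by
  unfold DD
  have h1 := om_pos y
  have h2 := totient_Wp_pos y
  positivity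

lemma DD_log : Tendsto (fun y : ℕ => DD y * Real.log y) atTop
    (𝓝 (C2 * Real.exp (-Real.eulerMascheroniConstant))) := by
  have h1 := om_log.const_mul (1 / 2)
  have h2 : Tendsto (fun y : ℕ => Real.log y / (Nat.totient (Wp y) : ℝ)) atTop (𝓝 0) := by
    have hb : Tendsto (fun y : ℕ => 4 * (Real.log y / y)) atTop (𝓝 0) := by
      have h3 : Tendsto (fun x : ℝ => Real.log x / x) atTop (𝓝 0) :=
        Real.isLittleO_log_id_atTop.tendsto_div_nhds_zero
      have h4 := (h3.comp tendsto_natCast_atTop_atTop).const_mul 4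
      rw [mul_zero] at h4
      exact h4
    apply squeeze_zero' _ _ hb
    · filter_upwards [eventually_ge_atTop 2] with y hy
      have h3 : (2 : ℝ) ≤ y := by exact_mod_cast hy
      have h4 : 0 < Real.log y := Real.log_pos (by linarith)
      positivity
    · filter_upwards [eventually_ge_atTop 4] with y hy
      have h3 : (4 : ℝ) ≤ y := by exact_mod_cast hy
      have h4 : 0 < Real.log y := Real.log_pos (by linarith)
      have h5 := totient_ge y (by omega)
      have h6 : (y : ℝ) / 4 ≤ (Nat.totient (Wp y) : ℝ) := by linarith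
      calc Real.log y / (Nat.totient (Wp y) : ℝ) ≤ Real.log y / ((y : ℝ) / 4) := by
            apply div_le_div_of_nonneg_left h4.le (by linarith) h6
        _ = _ := by field_simp
  have h3 := h1.add h2
  have e : 1 / 2 * (2 * C2 * Real.exp (-Real.eulerMascheroniConstant)) + 0 =
      C2 * Real.exp (-Real.eulerMascheroniConstant) := by ring
  rw [e] at h3
  refine h3.congr fun y => ?_
  unfold DD
  ring

lemma DD_lim : Tendsto DD atTop (𝓝 0) := by
  have h1 := DD_log
  have h2 : Tendsto (fun y : ℕ => (Real.log y)⁻¹) atTop (𝓝 0) :=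
    (Real.tendsto_log_atTop.comp tendsto_natCast_atTop_atTop).inv_tendsto_atTop
  have h3 := h1.mul h2
  rw [mul_zero] at h3
  refine h3.congr' ?_
  filter_upwards [eventually_ge_atTop 2] with y hy
  have h3 : (2 : ℝ) ≤ y := by exact_mod_cast hy
  have h4 : 0 < Real.log y := Real.log_pos (by linarith)
  field_simp

/-- the choice of the parameter -/
lemma choice (δ : ℝ) (hδ : 0 < δ) : ∃ η0 : ℝ, 0 < η0 ∧ ∀ η : ℝ, 0 < η → η ≤ η0 →
    ∃ y : ℕ, 2 ≤ y ∧ DD y ≤ η ∧
      η * Real.log (Real.log (Wp y)) ≤ C2 * Real.exp (-Real.eulerMascheroniConstant) + δ := by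
  classical
  set c := C2 * Real.exp (-Real.eulerMascheroniConstant) with hc
  have h1 : ∀ᶠ y : ℕ in atTop, DD y * Real.log y < c + δ / 2 :=
    DD_log.eventually (gt_mem_nhds (by linarith))
  obtain ⟨Y, hY⟩ := eventually_atTop.1 h1
  -- a lower bound for `DD` on `[0, Y + 3]`
  obtain ⟨m, hm0, hm⟩ : ∃ m : ℝ, 0 < m ∧ ∀ y ∈ range (Y + 4), m ≤ DD y := by
    obtain ⟨x, hx, hmin⟩ := exists_min_image (range (Y + 4)) DD ⟨0, mem_range.2 (by omega)⟩
    exact ⟨DD x, DD_pos x, hmin⟩
  refine ⟨min (m / 2) (δ / 6), by positivity, fun η hη hη0 => ?_⟩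
  have hη1 : η ≤ m / 2 := hη0.trans (min_le_left _ _)
  have hη2 : η ≤ δ / 6 := hη0.trans (min_le_right _ _)
  have hex : ∃ y : ℕ, DD y ≤ η := by
    obtain ⟨y, hy⟩ := (DD_lim.eventually (gt_mem_nhds hη)).exists
    exact ⟨y, hy.le⟩
  set y := Nat.find hex with hyd
  have hy1 : DD y ≤ η := Nat.find_spec hex
  have hyY : Y + 4 ≤ y := by
    by_contra h
    have := hm y (mem_range.2 (by omega))
    linarith
  have hy2 : η < DD (y - 1) := by
    have := Nat.find_min hex (show y - 1 < Nat.find hex by omega)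
    push Not at this
    exact this
  refine ⟨y, by omega, hy1, ?_⟩
  have h2 := hY (y - 1) (by omega)
  have hyR : (4 : ℝ) ≤ y := by exact_mod_cast (by omega : 4 ≤ y)
  have hc1 : ((y - 1 : ℕ) : ℝ) = y - 1 := by
    rw [Nat.cast_sub (by omega)]; norm_num
  rw [hc1] at h2
  have hlog1 : 0 < Real.log ((y : ℝ) - 1) := Real.log_pos (by linarith)
  have h3 : η * Real.log ((y : ℝ) - 1) ≤ c + δ / 2 := by
    have : η * Real.log ((y : ℝ) - 1) ≤ DD (y - 1) * Real.log ((y : ℝ) - 1) := by gcongr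
    linarith
  -- the size of `log log W`
  have hWle : (Wp y : ℝ) ≤ 4 ^ y := by exact_mod_cast Wp_le y
  have hW2 : 2 ≤ Wp y := Nat.le_of_dvd (Wp_pos y) ((prime_dvd_Wp Nat.prime_two).2 (by omega))
  have hW2R : (2 : ℝ) ≤ Wp y := by exact_mod_cast hW2
  have hlogW : 0 < Real.log (Wp y) := Real.log_pos (by linarith)
  have h4 : Real.log (Wp y) ≤ y * Real.log 4 := by
    have := Real.log_le_log (by linarith) hWle
    rwa [Real.log_pow] at this
  have hlog4 : Real.log 4 ≤ 2 := by
    have h5 : Real.log 4 = 2 * Real.log 2 := by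
      rw [show (4 : ℝ) = 2 ^ 2 by norm_num, Real.log_pow]
      norm_num
    have := Real.log_two_lt_d9
    linarith
  have h5 : Real.log (Real.log (Wp y)) ≤ Real.log ((y : ℝ) - 1) + 3 := by
    have h6 : Real.log (Wp y) ≤ ((y : ℝ) - 1) * Real.exp 3 := by
      have he : (4 : ℝ) ≤ Real.exp 3 := by
        have := Real.add_one_le_exp (3 : ℝ)
        linarith
      calc Real.log (Wp y) ≤ y * 2 := h4.trans (by gcongr)
        _ ≤ ((y : ℝ) - 1) * 4 := by linarith
        _ ≤ _ := by
          apply mul_le_mul_of_nonneg_left he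
          linarith
    have h7 := Real.log_le_log hlogW h6
    rwa [Real.log_mul (by linarith) (Real.exp_pos 3).ne', Real.log_exp] at h7
  calc η * Real.log (Real.log (Wp y)) ≤ η * (Real.log ((y : ℝ) - 1) + 3) := by gcongr
    _ = η * Real.log ((y : ℝ) - 1) + 3 * η := by ring
    _ ≤ _ := by linarith

theorem example_zero (hPC : StPC) (δ : ℝ) (hδ : 0 < δ) : ∃ η0 : ℝ, 0 < η0 ∧ ∀ η : ℝ, 0 < η → η ≤ η0 →
    ∃ A : Set ℕ, 1 - η ≤ relLower A ∧
      Real.exp (-Real.exp ((C2 * Real.exp (-Real.eulerMascheroniConstant) + δ) / η)) ≤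
        lowerDensity {n | Even n ∧ rep A n = 0} := by
  classical
  obtain ⟨η0, hη0, h0⟩ := choice δ hδ
  refine ⟨η0, hη0, fun η hη hηle => ?_⟩
  obtain ⟨y, hy2, hyD, hyL⟩ := h0 η hη hηle
  have hφ := totient_Wp_pos y
  set S : Finset (ZMod (Wp y)) :=
    univ.filter (fun a : ZMod (Wp y) => IsUnit a ∧ IsUnit (2 - a)) with hS
  obtain ⟨C, hCS, hC1, hC2⟩ := exists_C (Wp y) S (by
    intro a ha
    rw [hS, mem_filter] at ha ⊢
    refine ⟨mem_univ _, ha.2.2, ?_⟩
    rw [sub_sub_cancel]
    exact ha.2.1)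
  have hwt : (S.card : ℝ) / Nat.totient (Wp y) = om y := by
    rw [← wt_two y hy2]
    unfold wt
    congr 3
  refine ⟨{p : ℕ | (p : ZMod (Wp y)) ∉ C}, ?_, ?_⟩
  · have h1 := relLower_ge hPC y C (fun a ha => (mem_filter.1 (hCS ha)).2.1)
    have h2 : (C.card : ℝ) / Nat.totient (Wp y) ≤ DD y := by
      have h3 : 2 * (C.card : ℝ) ≤ S.card + 2 := by exact_mod_cast hC2
      unfold DD
      rw [← hwt]
      calc (C.card : ℝ) / Nat.totient (Wp y) ≤ (((S.card : ℝ) + 2) / 2) / Nat.totient (Wp y) := by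
            gcongr
            linarith
        _ = _ := by field_simp
    linarith
  · have h1 := dens_ge hPC y hy2 C (by
      intro a ha hb
      exact hC1 a (by rw [hS, mem_filter]; exact ⟨mem_univ _, ha, hb⟩))
    refine le_trans ?_ h1
    have hW2 : 2 ≤ Wp y := Nat.le_of_dvd (Wp_pos y) ((prime_dvd_Wp Nat.prime_two).2 (by omega))
    have hW2R : (2 : ℝ) ≤ Wp y := by exact_mod_cast hW2
    have hlogW : 0 < Real.log (Wp y) := Real.log_pos (by linarith)
    have h2 : Real.log (Real.log (Wp y)) ≤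
        (C2 * Real.exp (-Real.eulerMascheroniConstant) + δ) / η := by
      rw [le_div_iff₀ hη]
      linarith
    have h3 : Real.log (Wp y) ≤
        Real.exp ((C2 * Real.exp (-Real.eulerMascheroniConstant) + δ) / η) := by
      rw [← Real.log_le_iff_le_exp hlogW]
      exact h2
    rw [Real.exp_neg, one_div]
    apply inv_anti₀ (by linarith)
    rw [← Real.log_le_iff_le_exp (by linarith)]
    exact h3

end Pool.Agent.TH494.RG
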