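import Mathlib
import Pool.Agent.TH881.RK.Defs
import Pool.Agent.H373R2.T7.Sys2

/-!
# Job 3809 (RK-H): replacing the primes by the sieve model, `m` factors
-/

set_option autoImplicit false

namespace Pool.Agent.TH494.J3809

open Finset Filter Topology
open Pool.Agent.TH881
open Pool.Agent.TH881.RG
open Pool.Agent.TH881.RQ
open Pool.Agent.TH881.RK
open Pool.Agent.H373R2.T7

theorem mixA (m U : ℕ) : ∃ B0 : ℕ, ∀ E : ℕ, ∃ X0 : ℕ, ∀ X : ℕ, X0 ≤ X → ∀ z : ℕ, Real.log X ^ B0 ≤ z →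
    (z : ℝ) ≤ Real.log X ^ E → ∀ K : Finset ℕ, K ⊆ Icc 1 X →
    ∑ N ∈ Fintype.piFinset (fun _ : Fin m => Icc 1 X),
      |∑ n ∈ K, (∏ j, lp (N j + n) - ∏ j, lamz z (N j + n))| ≤ (X : ℝ) ^ m * X / Real.log X ^ U := by
  classical
  obtain ⟨B0, hB0⟩ := sys_diffP (k := m) (fun _ => Polynomial.X) (fun _ => by simp)
    (fun _ => by simp) (fun _ => 1) (fun _ => Or.inl rfl) 1 (le_refl _) U
  refine ⟨B0, fun E => ?_⟩
  obtain ⟨N0, hN0⟩ := hB0 E
  refine ⟨max N0 3, fun X hX z hz1 hz2 K hK => ?_⟩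
  have hX3 : 3 ≤ X := (le_max_right _ _).trans hX
  have hlog : 1 ≤ Real.log X := by
    rw [Real.le_log_iff_exp_le (by exact_mod_cast (by omega : 0 < X))]
    have h3 : (3 : ℝ) ≤ X := by exact_mod_cast hX3
    have := Real.exp_one_lt_three
    linarith
  have h := hN0 X ((le_max_left _ _).trans hX) (fun _ => X) (fun _ => by simp) z hz1 hz2
    (fun n => if n ∈ K then 1 else 0) (fun n _ => by
      beta_reduce
      split_ifs
      · rw [abs_one]; exact hlog
      · rw [abs_zero]; linarith)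
  have hsum : ∀ N : Fin m → ℕ, ∑ n ∈ Icc 1 X, (if n ∈ K then (1 : ℝ) else 0) *
      (∏ i, lamP (vl (fun _ => Polynomial.X) (fun _ => 1) N i n) -
        ∏ i, lamzI z (vl (fun _ => Polynomial.X) (fun _ => 1) N i n)) =
      ∑ n ∈ K, (∏ j, lp (N j + n) - ∏ j, lamz z (N j + n)) := by
    intro N
    simp only [ite_mul, one_mul, zero_mul]
    rw [← Finset.sum_filter, Finset.filter_mem_eq_inter, Finset.inter_eq_right.2 hK]
    refine Finset.sum_congr rfl fun n hn => ?_
    have hn1 : 1 ≤ n := (mem_Icc.1 (hK hn)).1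
    have hv : ∀ i, vl (fun _ => Polynomial.X) (fun _ => 1) N i n = ((N i + n : ℕ) : ℤ) := by
      intro i
      unfold vl
      rw [Polynomial.eval_X]
      push_cast
      ring
    congr 1
    · refine Finset.prod_congr rfl fun i _ => ?_
      rw [hv]
      unfold lamP Pool.Agent.TH881.RK.lp
      rw [Int.toNat_natCast]
    · refine Finset.prod_congr rfl fun i _ => ?_
      rw [hv]
      unfold lamzI
      rw [if_pos (by exact_mod_cast (by omega : 1 ≤ N i + n)), Int.toNat_natCast]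
  have h2 : (X : ℝ) * (∏ _i : Fin m, (X : ℝ)) / Real.log X ^ U = (X : ℝ) ^ m * X / Real.log X ^ U := by
    rw [Finset.prod_const, Finset.card_univ, Fintype.card_fin]
    ring
  rw [← h2]
  refine le_trans (le_of_eq ?_) h
  refine Finset.sum_congr rfl fun N _ => ?_
  rw [← hsum N]

end Pool.Agent.TH494.J3809
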