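import Pool.Agent.TH176.Nag.Defs

/-! Job 1123 (NAG-G): divisibility of the coefficients in the cluster ring and lowest terms. -/

set_option autoImplicit false

namespace Pool.Agent.TH494.NagG

open Finset Pool.Agent.TH176.Nag

section order
variable {K : Type*} [Field K]

theorem add_of_lt {x y : LaurentSeries K} (hx : x ≠ 0) (h : y = 0 ∨ x.order < y.order) :
    x + y ≠ 0 ∧ (x + y).order = x.order := by
  rcases h with rfl | h
  · simpa using hx
  · by_cases hy : y = 0
    · subst hy; simpa using hx
    have h1 : x.orderTop < y.orderTop := by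
      rw [← HahnSeries.order_eq_orderTop_of_ne_zero hx, ← HahnSeries.order_eq_orderTop_of_ne_zero hy]
      exact_mod_cast h
    have h2 := HahnSeries.orderTop_add_eq_left h1
    have h3 : x + y ≠ 0 := by
      intro h4
      rw [h4, HahnSeries.orderTop_zero] at h2
      exact hx (HahnSeries.orderTop_eq_top.1 h2.symm)
    refine ⟨h3, ?_⟩
    rw [← HahnSeries.order_eq_orderTop_of_ne_zero hx,
      ← HahnSeries.order_eq_orderTop_of_ne_zero h3] at h2
    exact_mod_cast h2

theorem left_of_lt {x y z : LaurentSeries K} (hz : z ≠ 0) (hs : z = x + y)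
    (h : y = 0 ∨ z.order < y.order) : x ≠ 0 ∧ x.order = z.order := by
  have h1 : x = z + -y := by rw [hs]; ring
  have h2 : -y = 0 ∨ z.order < (-y).order := by
    rcases h with h | h
    · left; rw [h, neg_zero]
    · right; rwa [HahnSeries.order_neg]
  rw [h1]
  exact add_of_lt hz h2

/-- the combinatorial heart, one variable -/
theorem line {N : ℕ} (hN : 1 ≤ N) (r : ℕ) : ∀ (c : ℕ → ℤ →₀ LaurentSeries K),
    (∀ k j, c (k + 1) j = c k j + c k (j - N)) → ∀ j : ℤ, c r j ≠ 0 →
    (∀ j', c r j' ≠ 0 → (c r j).order + j ≤ (c r j').order + j') →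
    ∃ j' : ℤ, j + N * r ≤ j' ∧ c r j' ≠ 0 := by
  induction r with
  | zero => intro c _ j hj _; exact ⟨j, by simp, hj⟩
  | succ r ih =>
    intro c hc j hj hmin
    have hN' : (1 : ℤ) ≤ N := by exact_mod_cast hN
    -- the support of `c r` is nonempty
    have hne : (c r).support.Nonempty := by
      rw [Finsupp.support_nonempty_iff]
      intro h0
      apply hj
      rw [hc r j, h0]; simp
    obtain ⟨js, hjs, hjmin⟩ := Finset.exists_min_image (c r).support
      (fun i => (c r i).order + i) hne
    rw [Finsupp.mem_support_iff] at hjs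
    -- `c (r+1) js` is not zero
    have h1 : c r (js - N) = 0 ∨ (c r js).order < (c r (js - N)).order := by
      by_cases h0 : c r (js - N) = 0
      · exact Or.inl h0
      · right
        have := hjmin (js - N) (Finsupp.mem_support_iff.2 h0)
        linarith
    obtain ⟨h2, h3⟩ := add_of_lt hjs h1
    rw [← hc r js] at h2 h3
    have h4 := hmin js h2
    rw [h3] at h4
    -- so `j` is minimising for `c r`
    have h5 : c r (j - N) = 0 ∨ (c (r + 1) j).order < (c r (j - N)).order := by
      by_cases h0 : c r (j - N) = 0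
      · exact Or.inl h0
      · right
        have := hjmin (j - N) (Finsupp.mem_support_iff.2 h0)
        linarith
    obtain ⟨h6, h7⟩ := left_of_lt hj (hc r j) h5
    have h8 : ∀ j', c r j' ≠ 0 → (c r j).order + j ≤ (c r j').order + j' := by
      intro j' hj'
      have := hjmin j' (Finsupp.mem_support_iff.2 hj')
      rw [h7]
      linarith
    obtain ⟨j2, hj2, hj3⟩ := ih c hc j h6 h8
    -- the largest element of the support
    obtain ⟨J, hJ, hJmax⟩ := Finset.exists_max_image (c r).support (fun i => i) hne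
    rw [Finsupp.mem_support_iff] at hJ
    have h9 := hJmax j2 (Finsupp.mem_support_iff.2 hj3)
    refine ⟨J + N, ?_, ?_⟩
    · push_cast
      linarith
    · rw [hc r (J + N)]
      have h10 : c r (J + N) = 0 := by
        by_contra h0
        have := hJmax (J + N) (Finsupp.mem_support_iff.2 h0)
        linarith
      rw [h10, zero_add, add_sub_cancel_right]
      exact hJ

end order

section ring
variable {F : Type*} [Field F]

/-- Laurent polynomials in one variable -/
abbrev L1 (F : Type*) [Semiring F] := AddMonoidAlgebra F ℤ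

/-- Laurent polynomials in two variables as Laurent polynomials in the first one -/
noncomputable def cur (F : Type*) [Field F] : Lau F ≃+* AddMonoidAlgebra (L1 F) ℤ :=
  AddMonoidAlgebra.curryRingEquiv

theorem cur_single (i j : ℤ) (r : F) :
    cur F (AddMonoidAlgebra.single (i, j) r) =
      AddMonoidAlgebra.single i (AddMonoidAlgebra.single j r) :=
  AddMonoidAlgebra.curryRingEquiv_single i j r

theorem cur_coeff (g : Lau F) (i j : ℤ) : ((cur F g).coeff i).coeff j = g.coeff (i, j) := by
  classical
  induction g using AddMonoidAlgebra.induction_linear with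
  | zero => simp
  | add x y hx hy => simp [hx, hy]
  | single m r =>
    obtain ⟨k, l⟩ := m
    rw [cur_single]
    simp only [AddMonoidAlgebra.coeff_single, Finsupp.single_apply, Prod.mk.injEq]
    by_cases hk : k = i
    · by_cases hl : l = j
      · rw [if_pos hk, if_pos ⟨hk, hl⟩, AddMonoidAlgebra.coeff_single, Finsupp.single_apply, if_pos hl]
      · rw [if_pos hk, if_neg (fun h => hl h.2), AddMonoidAlgebra.coeff_single, Finsupp.single_apply,
          if_neg hl]
    · rw [if_neg hk, if_neg (fun h => hk h.1)]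
      rfl

/-- `1 + b ^ N` -/
noncomputable def DD (F : Type*) [Field F] (N : ℕ) : L1 F := 1 + AddMonoidAlgebra.single (N : ℤ) 1

/-- the part with first exponent `i` is divisible by `(1 + b ^ N) ^ (-i)` -/
def QQ (N : ℕ) (g : Lau F) : Prop := ∀ i : ℤ, DD F N ^ (-i).toNat ∣ (cur F g).coeff i

theorem QQ_mul {N : ℕ} {x y : Lau F} (hx : QQ N x) (hy : QQ N y) : QQ N (x * y) := by
  classical
  intro i
  rw [map_mul, AddMonoidAlgebra.coeff_mul]
  unfold Finsupp.sum
  apply Finset.dvd_sum
  intro k _
  apply Finset.dvd_sum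
  intro l _
  beta_reduce
  split_ifs with h
  · refine (pow_dvd_pow _ ?_).trans ((pow_add _ (-k).toNat (-l).toNat).dvd.trans
      (mul_dvd_mul (hx k) (hy l)))
    omega
  · exact dvd_zero _

theorem QQ_add {N : ℕ} {x y : Lau F} (hx : QQ N x) (hy : QQ N y) : QQ N (x + y) := by
  intro i
  rw [map_add, AddMonoidAlgebra.coeff_add, Finsupp.add_apply]
  exact dvd_add (hx i) (hy i)

theorem QQ_single {N : ℕ} {i j : ℤ} (hi : 0 ≤ i) (r : F) :
    QQ N (AddMonoidAlgebra.single (i, j) r : Lau F) := by
  classical
  intro k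
  rw [cur_single, AddMonoidAlgebra.coeff_single, Finsupp.single_apply]
  split_ifs with h
  · have : (-k).toNat = 0 := by omega
    rw [this, pow_zero]
    exact one_dvd _
  · exact dvd_zero _

/-- the subalgebra -/
noncomputable def SA (F : Type*) [Field F] (N : ℕ) : Subalgebra F (Lau F) where
  carrier := {g | QQ N g}
  mul_mem' := QQ_mul
  add_mem' := QQ_add
  algebraMap_mem' r := by
    have : algebraMap F (Lau F) r = AddMonoidAlgebra.single (0, 0) r := by
      rfl
    rw [Set.mem_ofPred_eq, this]
    exact QQ_single le_rfl r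

theorem mem_SA {N : ℕ} {g : Lau F} : g ∈ SA F N ↔ QQ N g := Iff.rfl

theorem gen_mem (N : ℕ) : ({(zL F N).1, (zL F N).2.1, (zL F N).2.2.1, (zL F N).2.2.2} : Set (Lau F)) ⊆
    SA F N := by
  classical
  have hone : (1 : Lau F) ∈ SA F N := (SA F N).one_mem
  rintro x (rfl | rfl | rfl | rfl)
  · refine (SA F N).mul_mem ?_ ((SA F N).add_mem hone ?_)
    · exact QQ_single le_rfl _
    · exact QQ_single (by positivity) _
  · exact QQ_single (by norm_num) _
  · exact QQ_single (by norm_num) _
  · intro k
    have e : cur F (zL F N).2.2.2 = AddMonoidAlgebra.single (-1) (DD F N) := by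
      unfold zL mon DD
      simp only
      rw [map_mul, map_add, map_one, cur_single, cur_single, AddMonoidAlgebra.one_def, mul_add,
        AddMonoidAlgebra.single_mul_single, AddMonoidAlgebra.single_mul_single,
        AddMonoidAlgebra.single_add, add_zero, mul_one, AddMonoidAlgebra.single_mul_single, zero_add,
        mul_one]
      rfl
    rw [e, AddMonoidAlgebra.coeff_single, Finsupp.single_apply]
    split_ifs with h
    · subst h
      norm_num
    · exact dvd_zero _

theorem adjoin_le (N : ℕ) :
    Algebra.adjoin F {(zL F N).1, (zL F N).2.1, (zL F N).2.2.1, (zL F N).2.2.2} ≤ SA F N :=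
  Algebra.adjoin_le (gen_mem N)

theorem DD_mul_coeff (N : ℕ) (h : L1 F) (j : ℤ) :
    (DD F N * h).coeff j = h.coeff j + h.coeff (j - N) := by
  unfold DD
  rw [add_mul, one_mul, AddMonoidAlgebra.coeff_add, Finsupp.add_apply]
  congr 1
  rw [AddMonoidAlgebra.coeff_single_mul_eq_mul_coeff (j - N), one_mul]
  intro m' _
  constructor
  · intro h; omega
  · intro h; omega

end ring

theorem lowest_left {K : Type*} [Field K] {N : ℕ} (hN : 1 ≤ N)
    (g : Lau (LaurentSeries K))
    (hg : g ∈ Algebra.adjoin (LaurentSeries K) {(zL (LaurentSeries K) N).1, (zL (LaurentSeries K) N).2.1,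
      (zL (LaurentSeries K) N).2.2.1, (zL (LaurentSeries K) N).2.2.2})
    (m : ℤ × ℤ) (hm : g.coeff m ≠ 0) (hneg : m.1 < 0)
    (hmin : ∀ m' ∈ g.coeff.support, (g.coeff m).order + (m.1 + m.2) ≤ (g.coeff m').order + (m'.1 + m'.2)) :
    ∃ j : ℤ, m.2 - N * m.1 ≤ j ∧ g.coeff (m.1, j) ≠ 0 := by
  obtain ⟨i, j0⟩ := m
  simp only at hm hneg hmin ⊢
  obtain ⟨h, hh⟩ := (mem_SA.1 (adjoin_le N hg)) i
  set r := (-i).toNat with hr
  let c : ℕ → ℤ →₀ LaurentSeries K := fun k => (DD (LaurentSeries K) N ^ k * h).coeff
  have hc : ∀ k j, c (k + 1) j = c k j + c k (j - N) := by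
    intro k j
    simp only [c]
    rw [pow_succ', mul_assoc, DD_mul_coeff]
  have hcr : ∀ j, c r j = g.coeff (i, j) := by
    intro j
    rw [← cur_coeff, hh]
  obtain ⟨j', h1, h2⟩ := line hN r c hc j0 (by rw [hcr]; exact hm) (by
    intro j' hj'
    rw [hcr] at hj'
    rw [hcr, hcr]
    have := hmin (i, j') (Finsupp.mem_support_iff.2 hj')
    simp only at this
    linarith)
  refine ⟨j', ?_, ?_⟩
  · have : (r : ℤ) = -i := by omega
    rw [this] at h1
    linarith
  · rw [← hcr]
    exact h2

/-- exchange of the two variables -/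
noncomputable def swp (F : Type*) [Field F] : Lau F ≃ₐ[F] Lau F :=
  AddMonoidAlgebra.domCongr F F AddEquiv.prodComm

theorem swp_single {F : Type*} [Field F] (m : ℤ × ℤ) (r : F) :
    swp F (AddMonoidAlgebra.single m r) = AddMonoidAlgebra.single m.swap r := by
  unfold swp
  rw [AddMonoidAlgebra.domCongr_single]
  rfl

theorem swp_coeff {F : Type*} [Field F] (g : Lau F) (m : ℤ × ℤ) :
    (swp F g).coeff m = g.coeff m.swap := by
  classical
  induction g using AddMonoidAlgebra.induction_linear with
  | zero => simp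
  | add x y hx hy => simp [hx, hy]
  | single m' r =>
    rw [swp_single]
    simp only [AddMonoidAlgebra.coeff_single, Finsupp.single_apply]
    have : m'.swap = m ↔ m' = m.swap := by
      constructor
      · rintro rfl; simp
      · rintro rfl; simp
    simp only [this]

theorem swp_mem {F : Type*} [Field F] {N : ℕ} {g : Lau F}
    (hg : g ∈ Algebra.adjoin F {(zL F N).1, (zL F N).2.1, (zL F N).2.2.1, (zL F N).2.2.2}) :
    swp F g ∈ Algebra.adjoin F {(zL F N).1, (zL F N).2.1, (zL F N).2.2.1, (zL F N).2.2.2} := by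
  have h1 : swp F g ∈ (Algebra.adjoin F
      {(zL F N).1, (zL F N).2.1, (zL F N).2.2.1, (zL F N).2.2.2}).map (swp F).toAlgHom :=
    ⟨g, hg, rfl⟩
  rw [AlgHom.map_adjoin] at h1
  refine Algebra.adjoin_mono ?_ h1
  have e1 : swp F (zL F N).1 = (zL F N).2.2.2 := by
    unfold zL mon
    simp only [map_mul, map_add, map_one, swp_single, Prod.swap_prod_mk]
  have e2 : swp F (zL F N).2.1 = (zL F N).2.2.1 := by
    unfold zL mon
    simp only [swp_single, Prod.swap_prod_mk]
  have e3 : swp F (zL F N).2.2.1 = (zL F N).2.1 := by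
    unfold zL mon
    simp only [swp_single, Prod.swap_prod_mk]
  have e4 : swp F (zL F N).2.2.2 = (zL F N).1 := by
    unfold zL mon
    simp only [map_mul, map_add, map_one, swp_single, Prod.swap_prod_mk]
  rintro _ ⟨x, (rfl | rfl | rfl | rfl), rfl⟩
  · right; right; right; exact e1
  · right; right; left; exact e2
  · right; left; exact e3
  · left; exact e4

theorem lowest_right {K : Type*} [Field K] {N : ℕ} (hN : 1 ≤ N)
    (g : Lau (LaurentSeries K))
    (hg : g ∈ Algebra.adjoin (LaurentSeries K) {(zL (LaurentSeries K) N).1, (zL (LaurentSeries K) N).2.1,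
      (zL (LaurentSeries K) N).2.2.1, (zL (LaurentSeries K) N).2.2.2})
    (m : ℤ × ℤ) (hm : g.coeff m ≠ 0) (hneg : m.2 < 0)
    (hmin : ∀ m' ∈ g.coeff.support, (g.coeff m).order + (m.1 + m.2) ≤ (g.coeff m').order + (m'.1 + m'.2)) :
    ∃ j : ℤ, m.1 - N * m.2 ≤ j ∧ g.coeff (j, m.2) ≠ 0 := by
  have h := lowest_left hN (swp _ g) (swp_mem hg) m.swap (by rw [swp_coeff, Prod.swap_swap]; exact hm)
    hneg (by
      intro m' hm'
      rw [Finsupp.mem_support_iff, swp_coeff] at hm'
      rw [swp_coeff, swp_coeff, Prod.swap_swap]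
      have := hmin m'.swap (Finsupp.mem_support_iff.2 hm')
      simp only [Prod.fst_swap, Prod.snd_swap] at this ⊢
      linarith)
  obtain ⟨j, h1, h2⟩ := h
  refine ⟨j, h1, ?_⟩
  rw [swp_coeff] at h2
  exact h2

end Pool.Agent.TH494.NagG
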