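import Mathlib
import Pool.Agent.H789R2.FR.Sph
import Pool.Agent.Helper390.CovarioA

set_option autoImplicit false

/-! Tools: polar coordinates in the plane, scaling, Plancherel on the line. -/

namespace Pool.Agent.TH494.FN

open MeasureTheory Set Complex
open scoped ENNReal NNReal RealInnerProductSpace
open Pool.Agent.H789R2.FR (E sg T sg_finite sg_ae polar)

instance sgFin (n : ℕ) : IsFiniteMeasure (sg n) := sg_finite n

/-- the plane -/
noncomputable def PhE : E 2 ≃ᵐ ℝ × ℝ :=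
  (MeasurableEquiv.toLp 2 (Fin 2 → ℝ)).symm.trans MeasurableEquiv.finTwoArrow

lemma PhE_apply (z : E 2) : PhE z = (z 0, z 1) := rfl

lemma PhE_mp : MeasurePreserving PhE (volume : Measure (E 2)) (volume : Measure (ℝ × ℝ)) :=
  (volume_preserving_finTwoArrow ℝ).comp
    (EuclideanSpace.volume_preserving_symm_measurableEquiv_toLp (Fin 2))

lemma lint_PhE (f : ℝ × ℝ → ℝ≥0∞) : ∫⁻ x, f x = ∫⁻ z : E 2, f (z 0, z 1) := by
  have := PhE_mp.lintegral_comp_emb PhE.measurableEmbedding f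
  rw [← this]
  rfl

lemma int_PhE (f : ℝ × ℝ → ℂ) : ∫ x, f x = ∫ z : E 2, f (z 0, z 1) := by
  have := PhE_mp.integral_comp PhE.measurableEmbedding f
  rw [← this]
  rfl

lemma norm_sq_two (z : E 2) : ‖z‖ ^ 2 = z 0 ^ 2 + z 1 ^ 2 := by
  rw [EuclideanSpace.norm_sq_eq, Fin.sum_univ_two]
  simp

lemma inner_two (x z : E 2) : ⟪x, z⟫ = z 0 * x 0 + z 1 * x 1 := by
  rw [PiLp.inner_apply, Fin.sum_univ_two]
  simp

/-- the substitution `τ = r ^ 2` -/
lemma subst_sq (g : ℝ → ℝ≥0∞) :
    ∫⁻ τ in Ioi (0 : ℝ), g τ = ∫⁻ r in Ioi (0 : ℝ), ENNReal.ofReal (2 * r) * g (r ^ 2) := by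
  have h := lintegral_image_eq_lintegral_abs_deriv_mul (s := Ioi (0 : ℝ)) (f := fun r => r ^ 2)
    (f' := fun r => 2 * r) measurableSet_Ioi (fun r _ => by
      simpa using (hasDerivAt_pow 2 r).hasDerivWithinAt) (by
      intro a ha b hb hab
      exact (pow_left_inj₀ (le_of_lt ha) (le_of_lt hb) two_ne_zero).1 hab) g
  have himg : (fun r : ℝ => r ^ 2) '' Ioi (0 : ℝ) = Ioi 0 := by
    ext t
    constructor
    · rintro ⟨r, hr, rfl⟩
      exact pow_pos (show (0 : ℝ) < r from hr) 2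
    · intro ht
      exact ⟨√t, Real.sqrt_pos.2 ht, Real.sq_sqrt (le_of_lt ht)⟩
  rw [himg] at h
  rw [h]
  refine setLIntegral_congr_fun measurableSet_Ioi fun r hr => ?_
  have hr0 : 0 < r := hr
  rw [abs_of_pos (by positivity)]

/-- polar coordinates with `τ = r ^ 2` -/
lemma polar_sq (f : E 2 → ℝ≥0∞) (hf : Measurable f) :
    ∫⁻ x, f x = 2⁻¹ * ∫⁻ τ in Ioi (0 : ℝ), ∫⁻ w, f (√τ • w) ∂(sg 2) := by
  have hm : Measurable (Function.uncurry fun (τ : ℝ) (w : E 2) => f (√τ • w)) := by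
    apply hf.comp
    exact (Real.continuous_sqrt.measurable.comp measurable_fst).smul measurable_snd
  rw [lintegral_lintegral_swap hm.aemeasurable, ← lintegral_const_mul _
    (Measurable.lintegral_prod_left hm), polar (by norm_num) f hf]
  refine lintegral_congr fun w => ?_
  rw [subst_sq (fun τ => f (√τ • w)), ← lintegral_const_mul']
  · refine setLIntegral_congr_fun measurableSet_Ioi fun r hr => ?_
    have hr0 : 0 < r := hr
    rw [Real.sqrt_sq hr0.le, ← mul_assoc]
    congr 1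
    rw [show (2⁻¹ : ℝ≥0∞) = ENNReal.ofReal 2⁻¹ by
      rw [ENNReal.ofReal_inv_of_pos (by norm_num)]; norm_num, ← ENNReal.ofReal_mul (by norm_num)]
    congr 1
    simp
  · simp

/-- the measure form -/
lemma polar_measure : (volume : Measure (E 2)) =
    (2⁻¹ : ℝ≥0∞) • ((volume.restrict (Ioi (0 : ℝ))).prod (sg 2)).map
      (fun p : ℝ × E 2 => √p.1 • p.2) := by
  have hT : Measurable (fun p : ℝ × E 2 => √p.1 • p.2) :=
    (Real.continuous_sqrt.measurable.comp measurable_fst).smul measurable_snd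
  ext A hA
  rw [Measure.smul_apply, Measure.map_apply hT hA, ← lintegral_indicator_one hA,
    polar_sq _ (measurable_one.indicator hA), Measure.prod_apply (hT hA), smul_eq_mul]
  congr 1
  refine lintegral_congr fun τ => ?_
  rw [← lintegral_indicator_one (measurable_prodMk_left (hT hA))]
  rfl

/-- integrals in polar coordinates -/
lemma int_polar (f : E 2 → ℂ) (hf : Measurable f) (M : ℝ) (hM : ∀ z, ‖f z‖ ≤ M)
    (hsupp : ∀ z, 1 ≤ ‖z‖ → f z = 0) :
    ∫ x, f x = (1 / 2 : ℂ) * ∫ τ in Ioi (0 : ℝ), ∫ w, f (√τ • w) ∂(sg 2) := by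
  have hT : Measurable (fun p : ℝ × E 2 => √p.1 • p.2) :=
    (Real.continuous_sqrt.measurable.comp measurable_fst).smul measurable_snd
  have hM0 : 0 ≤ M := (norm_nonneg _).trans (hM 0)
  have hint : Integrable (fun p : ℝ × E 2 => f (√p.1 • p.2))
      ((volume.restrict (Ioi (0 : ℝ))).prod (sg 2)) := by
    have h1 : Integrable (fun p : ℝ × E 2 => (Ioo (0 : ℝ) 1).indicator (fun _ => M) p.1)
        ((volume.restrict (Ioi (0 : ℝ))).prod (sg 2)) := by
      have h2 : Integrable (fun τ : ℝ => (Ioo (0 : ℝ) 1).indicator (fun _ => M) τ)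
          (volume.restrict (Ioi (0 : ℝ))) := by
        apply Integrable.restrict
        rw [integrable_indicator_iff measurableSet_Ioo]
        exact integrableOn_const (by simp)
      have h3 := h2.mul_prod (integrable_const (μ := sg 2) (1 : ℝ))
      simpa using h3
    refine h1.mono' (hf.comp hT).aestronglyMeasurable ?_
    have hn : ∀ᵐ p : ℝ × E 2 ∂((volume.restrict (Ioi (0 : ℝ))).prod (sg 2)), ‖p.2‖ = 1 :=
      Measure.quasiMeasurePreserving_snd.ae (sg_ae 2)
    have hp : ∀ᵐ p : ℝ × E 2 ∂((volume.restrict (Ioi (0 : ℝ))).prod (sg 2)), p.1 ∈ Ioi (0 : ℝ) :=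
      Measure.quasiMeasurePreserving_fst.ae (ae_restrict_mem measurableSet_Ioi)
    filter_upwards [hn, hp] with p hp1 hp2
    by_cases h : p.1 < 1
    · rw [indicator_of_mem (show p.1 ∈ Ioo (0 : ℝ) 1 from ⟨hp2, h⟩)]
      exact hM _
    · rw [hsupp]
      · rw [norm_zero]
        exact indicator_nonneg (fun _ _ => hM0) _
      · push Not at h
        rw [norm_smul, hp1, mul_one, Real.norm_of_nonneg (Real.sqrt_nonneg _)]
        exact Real.one_le_sqrt.2 h
  rw [polar_measure, integral_smul_measure, integral_map hT.aemeasurable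
    hf.aestronglyMeasurable, integral_prod _ hint]
  rw [Complex.real_smul]
  congr 1
  simp

/-- scaling -/
lemma lint_scale (n : ℕ) (f : E n → ℝ≥0∞) (hf : Measurable f) (c : ℝ) (hc : 0 < c) :
    ∫⁻ x : E n, f (c • x) = ENNReal.ofReal ((c ^ n)⁻¹) * ∫⁻ x, f x := by
  have h := Measure.map_addHaar_smul (volume : Measure (E n)) hc.ne'
  have h2 : ∫⁻ x : E n, f (c • x) = ∫⁻ x, f x ∂(Measure.map (c • ·) (volume : Measure (E n))) := by
    rw [lintegral_map hf (measurable_const_smul c)]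
  rw [h2, h, lintegral_smul_measure, smul_eq_mul]
  congr 2
  rw [finrank_euclideanSpace_fin, abs_of_pos (by positivity)]

/-- Plancherel on the line -/
lemma planch (g : ℝ → ℂ) (h1 : Integrable g) (h2 : MemLp g 2) :
    ∫⁻ t : ℝ, ‖∫ τ, cexp (-(I * ((τ * t : ℝ) : ℂ))) * g τ‖ₑ ^ 2 =
      ENNReal.ofReal (2 * Real.pi) * ∫⁻ τ, ‖g τ‖ₑ ^ 2 := by
  obtain ⟨hm, he⟩ := Pool.Agent.Helper390.Covario.plancherel h1 h2
  have hpi := Real.pi_pos
  have key : ∀ u : ℝ → ℂ, MemLp u 2 → ∫⁻ x, ‖u x‖ₑ ^ 2 = ENNReal.ofReal (∫ x, ‖u x‖ ^ 2) := by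
    intro u hu
    rw [ofReal_integral_eq_lintegral_ofReal]
    · refine lintegral_congr fun x => ?_
      rw [ENNReal.ofReal_pow (norm_nonneg _), ofReal_norm]
    · exact hu.integrable_norm_pow (by norm_num)
    · exact Filter.Eventually.of_forall fun x => by positivity
  have e1 : ∀ t : ℝ, ∫ τ, cexp (-(I * ((τ * t : ℝ) : ℂ))) * g τ =
      FourierTransform.fourier g ((2 * Real.pi)⁻¹ * t) := by
    intro t
    rw [Real.fourier_eq']
    refine integral_congr_ae (Filter.Eventually.of_forall fun τ => ?_)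
    simp only [smul_eq_mul]
    congr 2
    have : inner ℝ τ ((2 * Real.pi)⁻¹ * t) = (2 * Real.pi)⁻¹ * t * τ := by
      simp [mul_comm]
    rw [this]
    have h3 : -2 * Real.pi * ((2 * Real.pi)⁻¹ * t * τ) = -(τ * t) := by
      field_simp
    rw [h3]
    push_cast
    ring
  simp_rw [e1]
  have hsc : ∀ F : ℝ → ℝ≥0∞, Measurable F → ∫⁻ t : ℝ, F ((2 * Real.pi)⁻¹ * t) =
      ENNReal.ofReal (2 * Real.pi) * ∫⁻ x, F x := by
    intro F hF
    have h := Measure.map_addHaar_smul (volume : Measure ℝ)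
      (show (2 * Real.pi)⁻¹ ≠ 0 by positivity)
    have h3 : ∫⁻ t : ℝ, F ((2 * Real.pi)⁻¹ * t) =
        ∫⁻ x, F x ∂(Measure.map ((2 * Real.pi)⁻¹ • ·) (volume : Measure ℝ)) := by
      rw [lintegral_map hF (measurable_const_smul _)]
      rfl
    rw [h3, h, lintegral_smul_measure, smul_eq_mul]
    congr 2
    simp [abs_of_pos hpi]
  have hcont : Continuous (FourierTransform.fourier g) :=
    VectorFourier.fourierIntegral_continuous Real.continuous_fourierChar continuous_inner h1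
  rw [hsc (fun x => ‖FourierTransform.fourier g x‖ₑ ^ 2) (hcont.measurable.enorm.pow_const 2),
    key _ hm, key _ h2, he]

end Pool.Agent.TH494.FN
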