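import Mathlib
import Pool.Agent.H438R2.PD.A3
import Pool.Agent.H438R2.BR.T11
import Pool.Agent.H789R2.FR.Sph
import Pool.Agent.Helper390.CovarioA
import Pool.Agent.TH494.FnA
set_option autoImplicit false

namespace Pool.Agent.TH494.FN

open MeasureTheory Set Complex
open scoped ENNReal NNReal RealInnerProductSpace
open Pool.Agent.H789R2.FR (E sg T)
open Pool.Agent.H438R2.PD (E1)

/-- the Fourier extension operator of the paraboloid at the point (a, b, t) -/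
noncomputable def ex (f : ℝ × ℝ → ℂ) (a b t : ℝ) : ℂ :=
  ∫ x : ℝ × ℝ, cexp (-(I * ((x.1 * a + x.2 * b + (x.1 ^ 2 + x.2 ^ 2) * t : ℝ) : ℂ))) * f x

/-- the function on the circle of radius `√τ` -/
noncomputable def fc (f : ℝ × ℝ → ℂ) (τ : ℝ) (w : E 2) : ℂ := f ((√τ • w) 0, (√τ • w) 1)

/-- the extension of this function -/
noncomputable def TC (f : ℝ × ℝ → ℂ) (x : ℝ × ℝ) (τ : ℝ) : ℂ :=
  T (fc f τ) (√τ • (!₂[x.1, x.2] : E 2))

/-- the function of `τ` whose Fourier transform is the extension -/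
noncomputable def gt (f : ℝ × ℝ → ℂ) (a b τ : ℝ) : ℂ :=
  (Ioo (0 : ℝ) 1).indicator (fun τ => (1 / 2 : ℂ) * TC f (a, b) τ) τ

lemma unc_meas {f : ℝ × ℝ → ℂ} (hf : Measurable f) :
    Measurable (fun p : ℝ × E 2 => fc f p.1 p.2) := by
  unfold fc
  apply hf.comp
  have h : Measurable (fun p : ℝ × E 2 => √p.1 • p.2) :=
    (Real.continuous_sqrt.measurable.comp measurable_fst).smul measurable_snd
  exact (PhE.measurable.comp h)

lemma fc_meas {f : ℝ × ℝ → ℂ} (hf : Measurable f) (τ : ℝ) : Measurable (fc f τ) :=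
  (unc_meas hf).comp measurable_prodMk_left

/-- joint measurability -/
lemma Tc_meas {f : ℝ × ℝ → ℂ} (hf : Measurable f) :
    Measurable (fun p : (ℝ × ℝ) × ℝ => TC f p.1 p.2) := by
  unfold TC T
  apply StronglyMeasurable.measurable
  apply StronglyMeasurable.integral_prod_right (f := fun (p : (ℝ × ℝ) × ℝ) (w : E 2) =>
    cexp (-((⟪√p.2 • (!₂[p.1.1, p.1.2] : E 2), w⟫ : ℝ) : ℂ) * I) * fc f p.2 w)
  apply Measurable.stronglyMeasurable
  apply Measurable.mul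
  · have h1 : Continuous (fun q : ((ℝ × ℝ) × ℝ) × E 2 =>
        cexp (-((⟪√q.1.2 • (!₂[q.1.1.1, q.1.1.2] : E 2), q.2⟫ : ℝ) : ℂ) * I)) := by
      have h2 : Continuous (fun q : ((ℝ × ℝ) × ℝ) × E 2 => (!₂[q.1.1.1, q.1.1.2] : E 2)) := by
        fun_prop
      have h3 : Continuous (fun q : ((ℝ × ℝ) × ℝ) × E 2 => √q.1.2) :=
        Real.continuous_sqrt.comp (by fun_prop)
      fun_prop
    exact h1.measurable
  · exact (unc_meas hf).comp ((measurable_snd.comp measurable_fst).prodMk measurable_snd)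

lemma sec_meas (a b : ℝ) : Measurable (fun τ : ℝ => (((a, b) : ℝ × ℝ), τ)) :=
  (measurable_const (a := ((a, b) : ℝ × ℝ))).prodMk measurable_id

lemma gt_meas {f : ℝ × ℝ → ℂ} (hf : Measurable f) (a b : ℝ) : Measurable (gt f a b) := by
  have h2 : Measurable (fun τ : ℝ => TC f (a, b) τ) := by
    have h := Tc_meas hf
    generalize TC f = F at h ⊢
    exact h.comp (sec_meas a b)
  have h3 : Measurable (fun τ : ℝ => (1 / 2 : ℂ) * TC f (a, b) τ) :=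
    h2.const_mul (1 / 2 : ℂ)
  exact h3.indicator measurableSet_Ioo

lemma T_bound {g : E 2 → ℂ} {M : ℝ} (hM : ∀ z, ‖g z‖ ≤ M) (x : E 2) :
    ‖T g x‖ ≤ M * (sg 2).real univ := by
  unfold T
  refine (norm_integral_le_of_norm_le_const (C := M) (Filter.Eventually.of_forall fun w => ?_)).trans ?_
  · rw [norm_mul]
    have h1 : ‖Complex.exp (-((⟪x, w⟫ : ℝ) : ℂ) * I)‖ = 1 := by
      have h2 : -((⟪x, w⟫ : ℝ) : ℂ) * I = ((-⟪x, w⟫ : ℝ) : ℂ) * I := by push_cast; ring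
      rw [h2]
      exact Complex.norm_exp_ofReal_mul_I _
    rw [h1, one_mul]
    exact hM _
  · exact le_rfl

/-- the extension as a Fourier transform -/
lemma ex_eq {f : ℝ × ℝ → ℂ} (hf : Measurable f) {M : ℝ} (hM : ∀ z, ‖f z‖ ≤ M)
    (hsupp : ∀ x : ℝ × ℝ, 1 ≤ x.1 ^ 2 + x.2 ^ 2 → f x = 0) (a b t : ℝ) :
    ex f a b t = ∫ τ, cexp (-(I * ((τ * t : ℝ) : ℂ))) * gt f a b τ := by
  unfold ex
  rw [int_PhE]
  have hm0 : Measurable (fun z : E 2 => f (z 0, z 1)) := hf.comp PhE.measurable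
  have hcont : Continuous (fun z : E 2 =>
      cexp (-(I * (((z 0) * a + (z 1) * b + ((z 0) ^ 2 + (z 1) ^ 2) * t : ℝ) : ℂ)))) := by
    fun_prop
  rw [int_polar (fun z : E 2 => cexp (-(I * (((z 0) * a + (z 1) * b +
    ((z 0) ^ 2 + (z 1) ^ 2) * t : ℝ) : ℂ))) * f (z 0, z 1)) (hcont.measurable.mul hm0) M ?_ ?_]
  · rw [← integral_const_mul, ← integral_indicator measurableSet_Ioi]
    refine integral_congr_ae (Filter.Eventually.of_forall fun τ => ?_)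
    simp only
    unfold gt
    by_cases h0 : 0 < τ
    · rw [indicator_of_mem (show τ ∈ Ioi (0 : ℝ) from h0)]
      have hin : ∫ w : E 2, cexp (-(I * ((((√τ • w) 0) * a + ((√τ • w) 1) * b +
          (((√τ • w) 0) ^ 2 + ((√τ • w) 1) ^ 2) * t : ℝ) : ℂ))) * f ((√τ • w) 0, (√τ • w) 1) ∂(sg 2)
          = cexp (-(I * ((τ * t : ℝ) : ℂ))) * TC f (a, b) τ := by
        unfold TC T
        rw [← integral_const_mul]
        refine integral_congr_ae ?_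
        filter_upwards [Pool.Agent.H789R2.FR.sg_ae 2] with w hw
        have h1 : ((√τ • w) 0) ^ 2 + ((√τ • w) 1) ^ 2 = τ := by
          rw [← norm_sq_two, norm_smul, hw, mul_one, Real.norm_of_nonneg (Real.sqrt_nonneg _),
            Real.sq_sqrt h0.le]
        have h2 : ⟪√τ • (!₂[a, b] : E 2), w⟫ = ((√τ • w) 0) * a + ((√τ • w) 1) * b := by
          rw [real_inner_smul_left, inner_two]
          simp
          ring
        rw [h1, h2, ← mul_assoc, ← Complex.exp_add]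
        unfold fc
        congr 2
        push_cast
        ring
      rw [hin]
      by_cases h1 : τ < 1
      · rw [indicator_of_mem (show τ ∈ Ioo (0 : ℝ) 1 from ⟨h0, h1⟩)]
        ring
      · rw [indicator_of_notMem (fun h => h1 h.2), mul_zero]
        have hz : TC f (a, b) τ = 0 := by
          unfold TC T
          rw [integral_eq_zero_of_ae]
          filter_upwards [Pool.Agent.H789R2.FR.sg_ae 2] with w hw
          have h3 : ((√τ • w) 0) ^ 2 + ((√τ • w) 1) ^ 2 = τ := by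
            rw [← norm_sq_two, norm_smul, hw, mul_one, Real.norm_of_nonneg (Real.sqrt_nonneg _),
              Real.sq_sqrt h0.le]
          have h4 : fc f τ w = 0 := by
            unfold fc
            apply hsupp
            show 1 ≤ ((√τ • w) 0) ^ 2 + ((√τ • w) 1) ^ 2
            rw [h3]
            push Not at h1
            exact h1
          rw [h4, mul_zero]
          rfl
        rw [hz, mul_zero, mul_zero]
    · rw [indicator_of_notMem (show τ ∉ Ioi (0 : ℝ) from h0),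
        indicator_of_notMem (fun h => h0 h.1), mul_zero]
  · intro z
    rw [norm_mul]
    have h1 : ‖cexp (-(I * (((z 0) * a + (z 1) * b + ((z 0) ^ 2 + (z 1) ^ 2) * t : ℝ) : ℂ)))‖ = 1 := by
      have h2 : -(I * (((z 0) * a + (z 1) * b + ((z 0) ^ 2 + (z 1) ^ 2) * t : ℝ) : ℂ)) =
        ((-((z 0) * a + (z 1) * b + ((z 0) ^ 2 + (z 1) ^ 2) * t) : ℝ) : ℂ) * I := by
        push_cast; ring
      rw [h2]
      exact Complex.norm_exp_ofReal_mul_I _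
    rw [h1, one_mul]
    exact hM _
  · intro z hz
    rw [hsupp, mul_zero]
    show 1 ≤ (z 0) ^ 2 + (z 1) ^ 2
    rw [← norm_sq_two]
    nlinarith

/-- Plancherel in `t` -/
lemma ex_planch {f : ℝ × ℝ → ℂ} (hf : Measurable f) {M : ℝ} (hM : ∀ z, ‖f z‖ ≤ M)
    (hsupp : ∀ x : ℝ × ℝ, 1 ≤ x.1 ^ 2 + x.2 ^ 2 → f x = 0) (a b : ℝ) :
    ∫⁻ t : ℝ, ‖ex f a b t‖ₑ ^ 2 = ENNReal.ofReal (2 * Real.pi) * ∫⁻ τ, ‖gt f a b τ‖ₑ ^ 2 := by
  simp_rw [ex_eq hf hM hsupp a b]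
  have hM0 : 0 ≤ M := (norm_nonneg _).trans (hM 0)
  have hb : ∀ τ, ‖gt f a b τ‖ ≤ (Ioo (0 : ℝ) 1).indicator
      (fun _ => M * (sg 2).real univ) τ := by
    intro τ
    unfold gt
    by_cases h : τ ∈ Ioo (0 : ℝ) 1
    · rw [indicator_of_mem h, indicator_of_mem h, norm_mul]
      have h1 : ‖(1 / 2 : ℂ)‖ ≤ 1 := by norm_num
      have h2 := T_bound (g := fc f τ) (fun z => hM _) (√τ • (!₂[a, b] : E 2))
      calc _ ≤ 1 * (M * (sg 2).real univ) := mul_le_mul h1 h2 (norm_nonneg _) zero_le_one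
        _ = _ := one_mul _
    · rw [indicator_of_notMem h, indicator_of_notMem h, norm_zero]
  have hi : Integrable ((Ioo (0 : ℝ) 1).indicator (fun _ => M * (sg 2).real univ)) := by
    rw [integrable_indicator_iff measurableSet_Ioo]
    exact integrableOn_const (by simp)
  have h1 : Integrable (gt f a b) :=
    hi.mono' (gt_meas hf a b).aestronglyMeasurable (Filter.Eventually.of_forall hb)
  have h2 : MemLp (gt f a b) 2 := by
    have h3 : MemLp ((Ioo (0 : ℝ) 1).indicator (fun _ => M * (sg 2).real univ)) 2 :=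
      memLp_indicator_const 2 measurableSet_Ioo _ (Or.inr (by simp))
    refine h3.of_le (gt_meas hf a b).aestronglyMeasurable (Filter.Eventually.of_forall fun τ => ?_)
    exact (hb τ).trans (le_abs_self _)
  exact planch _ h1 h2

/-- the function in Minkowski's inequality -/
noncomputable def hh (f : ℝ × ℝ → ℂ) (x : ℝ × ℝ) (τ : ℝ) : ℝ≥0∞ :=
  (Ioo (0 : ℝ) 1).indicator (fun τ => ‖TC f x τ‖ₑ ^ 2) τ

lemma hh_meas {f : ℝ × ℝ → ℂ} (hf : Measurable f) : Measurable (Function.uncurry (hh f)) := by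
  have h : Function.uncurry (hh f) = (univ ×ˢ Ioo (0 : ℝ) 1).indicator
      (fun p : (ℝ × ℝ) × ℝ => ‖TC f p.1 p.2‖ₑ ^ 2) := by
    funext p
    unfold hh
    by_cases hp : p.2 ∈ Ioo (0 : ℝ) 1
    · rw [Function.uncurry, indicator_of_mem hp,
        indicator_of_mem (show p ∈ univ ×ˢ Ioo (0 : ℝ) 1 from ⟨mem_univ _, hp⟩)]
    · rw [Function.uncurry, indicator_of_notMem hp, indicator_of_notMem (fun h => hp h.2)]
  rw [h]
  exact ((Tc_meas hf).enorm.pow_const 2).indicator (MeasurableSet.univ.prod measurableSet_Ioo)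

lemma gt_hh (f : ℝ × ℝ → ℂ) (a b τ : ℝ) :
    ‖gt f a b τ‖ₑ ^ 2 = ENNReal.ofReal (1 / 4) * hh f (a, b) τ := by
  unfold gt hh
  by_cases h : τ ∈ Ioo (0 : ℝ) 1
  · rw [indicator_of_mem h, indicator_of_mem h, enorm_mul, mul_pow]
    congr 1
    rw [← ofReal_norm, ← ENNReal.ofReal_pow (norm_nonneg _)]
    norm_num
  · rw [indicator_of_notMem h, indicator_of_notMem h]
    simp

/-- the inner integral after Plancherel -/
lemma ex_hh {f : ℝ × ℝ → ℂ} (hf : Measurable f) {M : ℝ} (hM : ∀ z, ‖f z‖ ≤ M)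
    (hsupp : ∀ x : ℝ × ℝ, 1 ≤ x.1 ^ 2 + x.2 ^ 2 → f x = 0) (a b : ℝ) :
    ∫⁻ t : ℝ, ‖ex f a b t‖ₑ ^ 2 = ENNReal.ofReal (Real.pi / 2) * ∫⁻ τ, hh f (a, b) τ := by
  rw [ex_planch hf hM hsupp]
  simp_rw [gt_hh]
  rw [lintegral_const_mul' _ _ ENNReal.ofReal_ne_top, ← mul_assoc,
    ← ENNReal.ofReal_mul (by positivity)]
  congr 2
  ring

/-- the two-dimensional integral for fixed `τ` -/
lemma hh_q {f : ℝ × ℝ → ℂ} (hf : Measurable f) {M : ℝ} (hM : ∀ z, ‖f z‖ ≤ M) (q : ℝ) (hq : 4 < q)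
    (C : ℝ≥0) (hC : ∀ g : E 2 → ℂ, Measurable g → (∃ M : ℝ, ∀ z, ‖g z‖ ≤ M) →
      ∫⁻ x : E 2, ‖T g x‖ₑ ^ q ≤ C * (∫⁻ z, ‖g z‖ₑ ^ 4 ∂(sg 2)) ^ (q / 4)) (τ : ℝ) :
    (∫⁻ x : ℝ × ℝ, hh f x τ ^ (q / 2)) ^ (1 / (q / 2)) ≤
      (C : ℝ≥0∞) ^ (2 / q) * ((Ioo (0 : ℝ) 1).indicator (fun τ => ENNReal.ofReal (τ ^ (-(2 / q)))) τ *
        (∫⁻ z, ‖fc f τ z‖ₑ ^ 4 ∂(sg 2)) ^ (1 / 2 : ℝ)) := by
  have hq0 : 0 < q := by linarith
  by_cases h : τ ∈ Ioo (0 : ℝ) 1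
  · rw [indicator_of_mem h]
    have hτ := h.1
    have e1 : ∫⁻ x : ℝ × ℝ, hh f x τ ^ (q / 2) = ENNReal.ofReal (τ⁻¹) *
        ∫⁻ X : E 2, ‖T (fc f τ) X‖ₑ ^ q := by
      rw [lint_PhE]
      have e2 : ∀ z : E 2, hh f (z 0, z 1) τ ^ (q / 2) = ‖T (fc f τ) (√τ • z)‖ₑ ^ q := by
        intro z
        unfold hh TC
        rw [indicator_of_mem h]
        have e3 : (!₂[(z 0, z 1).1, (z 0, z 1).2] : E 2) = z := by
          ext i
          fin_cases i <;> rfl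
        rw [e3, ← ENNReal.rpow_natCast, ← ENNReal.rpow_mul]
        congr 1
        push_cast
        ring
      simp_rw [e2]
      have hTm : Measurable (fun X : E 2 => ‖T (fc f τ) X‖ₑ ^ q) := by
        apply Measurable.pow_const
        apply Measurable.enorm
        unfold T
        apply StronglyMeasurable.measurable
        apply StronglyMeasurable.integral_prod_right (f := fun (x : E 2) (w : E 2) =>
          cexp (-((⟪x, w⟫ : ℝ) : ℂ) * I) * fc f τ w)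
        apply Measurable.stronglyMeasurable
        apply Measurable.mul
        · have h1 : Continuous (fun p : E 2 × E 2 => cexp (-((⟪p.1, p.2⟫ : ℝ) : ℂ) * I)) := by
            fun_prop
          exact h1.measurable
        · exact (fc_meas hf τ).comp measurable_snd
      rw [lint_scale 2 (fun X => ‖T (fc f τ) X‖ₑ ^ q) hTm (√τ) (Real.sqrt_pos.2 hτ)]
      rw [Real.sq_sqrt hτ.le]
    have e4 := hC (fc f τ) (fc_meas hf τ) ⟨M, fun z => hM _⟩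
    rw [e1]
    have hp : 1 / (q / 2) = 2 / q := by field_simp
    rw [hp]
    calc (ENNReal.ofReal (τ⁻¹) * ∫⁻ X : E 2, ‖T (fc f τ) X‖ₑ ^ q) ^ (2 / q) ≤
        (ENNReal.ofReal (τ⁻¹) * (C * (∫⁻ z, ‖fc f τ z‖ₑ ^ 4 ∂(sg 2)) ^ (q / 4))) ^ (2 / q) := by
          gcongr
      _ = _ := by
          rw [ENNReal.mul_rpow_of_nonneg _ _ (by positivity),
            ENNReal.mul_rpow_of_nonneg _ _ (by positivity), ← ENNReal.rpow_mul,
            ENNReal.ofReal_rpow_of_pos (inv_pos.2 hτ), Real.inv_rpow hτ.le, ← Real.rpow_neg hτ.le]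
          have e5 : q / 4 * (2 / q) = 1 / 2 := by field_simp; norm_num
          rw [e5]
          ring
  · have e1 : ∫⁻ x : ℝ × ℝ, hh f x τ ^ (q / 2) = 0 := by
      have e2 : ∀ x : ℝ × ℝ, hh f x τ ^ (q / 2) = 0 := by
        intro x
        unfold hh
        rw [indicator_of_notMem h, ENNReal.zero_rpow_of_pos (by positivity)]
      simp [e2]
    rw [e1, ENNReal.zero_rpow_of_pos (by positivity)]
    exact bot_le

/-- the four-th powers -/
lemma four_pow {f : ℝ × ℝ → ℂ} (hf : Measurable f) :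
    ∫⁻ τ in Ioi (0 : ℝ), ∫⁻ z, ‖fc f τ z‖ₑ ^ 4 ∂(sg 2) = 2 * ∫⁻ x, ‖f x‖ₑ ^ 4 := by
  have h := polar_sq (fun z : E 2 => ‖f (z 0, z 1)‖ₑ ^ 4)
    ((hf.comp PhE.measurable).enorm.pow_const 4)
  rw [lint_PhE (fun x => ‖f x‖ₑ ^ 4), h, ← mul_assoc]
  rw [ENNReal.mul_inv_cancel (by norm_num) (by norm_num), one_mul]
  rfl

lemma rpow_int (q : ℝ) (hq : 4 < q) :
    ∫⁻ τ, ((Ioo (0 : ℝ) 1).indicator (fun τ => ENNReal.ofReal (τ ^ (-(2 / q)))) τ) ^ (2 : ℝ) < ∞ := by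
  have hq0 : 0 < q := by linarith
  have h1 : IntegrableOn (fun x : ℝ => x ^ (-(4 / q))) (Ioo 0 1) volume := by
    rw [intervalIntegral.integrableOn_Ioo_rpow_iff one_pos]
    rw [neg_lt_neg_iff, div_lt_one hq0]
    exact hq
  have h2 : ∀ τ : ℝ, ((Ioo (0 : ℝ) 1).indicator (fun τ => ENNReal.ofReal (τ ^ (-(2 / q)))) τ) ^ (2 : ℝ) =
      (Ioo (0 : ℝ) 1).indicator (fun τ => ENNReal.ofReal (τ ^ (-(4 / q)))) τ := by
    intro τ
    by_cases h : τ ∈ Ioo (0 : ℝ) 1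
    · rw [indicator_of_mem h, indicator_of_mem h, ENNReal.ofReal_rpow_of_nonneg
        (Real.rpow_nonneg h.1.le _) (by norm_num), ← Real.rpow_mul h.1.le]
      congr 2
      ring
    · rw [indicator_of_notMem h, indicator_of_notMem h, ENNReal.zero_rpow_of_pos (by norm_num)]
  simp_rw [h2]
  rw [lintegral_indicator measurableSet_Ioo]
  exact Integrable.lintegral_lt_top h1

theorem ex_12
    (hcirc : ∀ q : ℝ, 4 < q → ∃ C : ℝ≥0, ∀ g : E 2 → ℂ, Measurable g →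
      (∃ M : ℝ, ∀ z, ‖g z‖ ≤ M) →
      ∫⁻ x : E 2, ‖T g x‖ₑ ^ q ≤ C * (∫⁻ z, ‖g z‖ₑ ^ 4 ∂(sg 2)) ^ (q / 4))
    (hmink : ∀ p : ℝ, 1 ≤ p → ∀ h : ℝ × ℝ → ℝ → ℝ≥0∞, Measurable (Function.uncurry h) →
      (∫⁻ x, (∫⁻ y, h x y) ^ p) ^ (1 / p) ≤ ∫⁻ y, (∫⁻ x, h x y ^ p) ^ (1 / p))
    (q : ℝ) (hq : 4 < q) : ∃ C : ℝ≥0, ∀ f : ℝ × ℝ → ℂ, Measurable f → (∃ M : ℝ, ∀ z, ‖f z‖ ≤ M) →
      (∀ x : ℝ × ℝ, 1 ≤ x.1 ^ 2 + x.2 ^ 2 → f x = 0) →
      ∫⁻ a : ℝ, ∫⁻ b : ℝ, (∫⁻ t : ℝ, ‖ex f a b t‖ₑ ^ 2) ^ (q / 2) ≤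
        C * (∫⁻ x, ‖f x‖ₑ ^ 4) ^ (q / 4) := by
  have hq0 : 0 < q := by linarith
  obtain ⟨C0, hC0⟩ := hcirc q hq
  set K : ℝ≥0∞ := ∫⁻ τ, ((Ioo (0 : ℝ) 1).indicator
    (fun τ => ENNReal.ofReal (τ ^ (-(2 / q)))) τ) ^ (2 : ℝ) with hK
  have hKf : K < ∞ := rpow_int q hq
  set D : ℝ≥0∞ := ENNReal.ofReal (Real.pi / 2) ^ (q / 2) *
    ((C0 : ℝ≥0∞) ^ (2 / q) * (K ^ (1 / 2 : ℝ) * (2 : ℝ≥0∞) ^ (1 / 2 : ℝ))) ^ (q / 2) with hD
  have hDf : D ≠ ∞ := by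
    rw [hD]
    refine ENNReal.mul_ne_top (ENNReal.rpow_ne_top_of_nonneg (by positivity) ENNReal.ofReal_ne_top) ?_
    refine ENNReal.rpow_ne_top_of_nonneg (by positivity) (ENNReal.mul_ne_top ?_ (ENNReal.mul_ne_top ?_ ?_))
    · exact ENNReal.rpow_ne_top_of_nonneg (by positivity) ENNReal.coe_ne_top
    · exact ENNReal.rpow_ne_top_of_nonneg (by positivity) hKf.ne
    · exact ENNReal.rpow_ne_top_of_nonneg (by positivity) (by norm_num)
  refine ⟨D.toNNReal, ?_⟩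
  rintro f hf ⟨M, hM⟩ hsupp
  rw [ENNReal.coe_toNNReal hDf]
  set S : ℝ≥0∞ := ∫⁻ x, ‖f x‖ₑ ^ 4 with hS
  -- step 1: Plancherel
  have e1 : ∫⁻ a : ℝ, ∫⁻ b : ℝ, (∫⁻ t : ℝ, ‖ex f a b t‖ₑ ^ 2) ^ (q / 2) =
      ENNReal.ofReal (Real.pi / 2) ^ (q / 2) *
        ∫⁻ x : ℝ × ℝ, (∫⁻ τ, hh f x τ) ^ (q / 2) := by
    have hm : Measurable (fun x : ℝ × ℝ => (∫⁻ τ, hh f x τ) ^ (q / 2)) :=
      ((hh_meas hf).lintegral_prod_right').pow_const _
    rw [Measure.volume_eq_prod, lintegral_prod _ hm.aemeasurable,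
      ← lintegral_const_mul' _ _ (ENNReal.rpow_ne_top_of_nonneg (by positivity)
        ENNReal.ofReal_ne_top)]
    refine lintegral_congr fun a => ?_
    rw [← lintegral_const_mul' _ _ (ENNReal.rpow_ne_top_of_nonneg (by positivity)
        ENNReal.ofReal_ne_top)]
    refine lintegral_congr fun b => ?_
    rw [ex_hh hf hM hsupp, ENNReal.mul_rpow_of_nonneg _ _ (by positivity)]
  -- step 2: Minkowski
  have e2 : (∫⁻ x : ℝ × ℝ, (∫⁻ τ, hh f x τ) ^ (q / 2)) ^ (1 / (q / 2)) ≤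
      (C0 : ℝ≥0∞) ^ (2 / q) * (K ^ (1 / 2 : ℝ) * (2 * S) ^ (1 / 2 : ℝ)) := by
    refine (hmink (q / 2) (by linarith) (hh f) (hh_meas hf)).trans ?_
    refine (lintegral_mono fun τ => hh_q hf hM q hq C0 hC0 τ).trans ?_
    rw [lintegral_const_mul' _ _ (ENNReal.rpow_ne_top_of_nonneg (by positivity)
      ENNReal.coe_ne_top)]
    gcongr
    have hm1 : Measurable ((Ioo (0 : ℝ) 1).indicator (fun τ : ℝ => ENNReal.ofReal (τ ^ (-(2 / q))))) :=
      Measurable.indicator (by fun_prop) measurableSet_Ioo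
    have hm2 : Measurable (fun τ : ℝ => (∫⁻ z, ‖fc f τ z‖ₑ ^ 4 ∂(sg 2))) :=
      ((unc_meas hf).enorm.pow_const 4).lintegral_prod_right'
    have hm3 : Measurable ((Ioi (0 : ℝ)).indicator
        (fun τ : ℝ => (∫⁻ z, ‖fc f τ z‖ₑ ^ 4 ∂(sg 2)) ^ (1 / 2 : ℝ))) :=
      (hm2.pow_const _).indicator measurableSet_Ioi
    have e3 : ∀ τ : ℝ, (Ioo (0 : ℝ) 1).indicator (fun τ => ENNReal.ofReal (τ ^ (-(2 / q)))) τ *
        (∫⁻ z, ‖fc f τ z‖ₑ ^ 4 ∂(sg 2)) ^ (1 / 2 : ℝ) =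
        (((Ioo (0 : ℝ) 1).indicator (fun τ => ENNReal.ofReal (τ ^ (-(2 / q))))) *
        ((Ioi (0 : ℝ)).indicator
        (fun τ : ℝ => (∫⁻ z, ‖fc f τ z‖ₑ ^ 4 ∂(sg 2)) ^ (1 / 2 : ℝ)))) τ := by
      intro τ
      rw [Pi.mul_apply]
      by_cases h : τ ∈ Ioo (0 : ℝ) 1
      · rw [indicator_of_mem h, indicator_of_mem (show τ ∈ Ioi (0 : ℝ) from h.1)]
      · rw [indicator_of_notMem h, zero_mul, zero_mul]
    simp_rw [e3]
    refine (ENNReal.lintegral_mul_le_Lp_mul_Lq volume Real.HolderConjugate.two_two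
      hm1.aemeasurable hm3.aemeasurable).trans ?_
    refine mul_le_mul' le_rfl ?_
    have e4 : ∀ τ : ℝ, ((Ioi (0 : ℝ)).indicator
        (fun τ : ℝ => (∫⁻ z, ‖fc f τ z‖ₑ ^ 4 ∂(sg 2)) ^ (1 / 2 : ℝ))) τ ^ (2 : ℝ) =
        (Ioi (0 : ℝ)).indicator (fun τ : ℝ => (∫⁻ z, ‖fc f τ z‖ₑ ^ 4 ∂(sg 2))) τ := by
      intro τ
      by_cases h : τ ∈ Ioi (0 : ℝ)
      · rw [indicator_of_mem h, indicator_of_mem h, ← ENNReal.rpow_mul]
        norm_num
      · rw [indicator_of_notMem h, indicator_of_notMem h, ENNReal.zero_rpow_of_pos (by norm_num)]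
    simp_rw [e4]
    rw [lintegral_indicator measurableSet_Ioi, four_pow hf]
  -- step 3: conclusion
  rw [e1, hD, mul_assoc]
  refine mul_le_mul' le_rfl ?_
  have e5 : ∫⁻ x : ℝ × ℝ, (∫⁻ τ, hh f x τ) ^ (q / 2) =
      ((∫⁻ x : ℝ × ℝ, (∫⁻ τ, hh f x τ) ^ (q / 2)) ^ (1 / (q / 2))) ^ (q / 2) := by
    rw [← ENNReal.rpow_mul]
    have : 1 / (q / 2) * (q / 2) = 1 := by field_simp
    rw [this, ENNReal.rpow_one]
  rw [e5]
  calc ((∫⁻ x : ℝ × ℝ, (∫⁻ τ, hh f x τ) ^ (q / 2)) ^ (1 / (q / 2))) ^ (q / 2) ≤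
      ((C0 : ℝ≥0∞) ^ (2 / q) * (K ^ (1 / 2 : ℝ) * (2 * S) ^ (1 / 2 : ℝ))) ^ (q / 2) := by
        gcongr
    _ = _ := by
        rw [ENNReal.mul_rpow_of_nonneg 2 S (by norm_num : (0 : ℝ) ≤ 1 / 2), ← mul_assoc (K ^ (1 / 2 : ℝ)),
          ← mul_assoc ((C0 : ℝ≥0∞) ^ (2 / q)),
          ENNReal.mul_rpow_of_nonneg _ (S ^ (1 / 2 : ℝ)) (by positivity), ← ENNReal.rpow_mul]
        congr 2
        ring

end Pool.Agent.TH494.FN
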