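import Mathlib
import Pool.Agent.TH161.KS.Defs
import Pool.Agent.H931R3.Bal2

/-! KS: adding long chains below and above a finite poset. -/

set_option autoImplicit false

open Finset
open scoped Classical

namespace Pool.Agent.TH494.KS_LEX

open Pool.Agent.TH161.LW Pool.Agent.TH161.KS

lemma ratio_eq (P : Type) [Fintype P] [PartialOrder P] (x y : P) :
    (eP P x y : ℝ) / eN P = Pool.Agent.H931R3.Bal.pr P (Fintype.card P) x y := by
  rw [← Pool.Agent.H931R3.Bal.prob_eq rfl]
  unfold Pool.Agent.H13R3.WB.prob eP eN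
  have h : ∀ f : P ≃ Fin (Fintype.card P), Monotone ⇑f ↔ StrictMono ⇑f := fun f =>
    ⟨fun h => h.strictMono_of_injective f.injective, fun h => h.monotone⟩
  simp only [h]

theorem t_LEX : P_LEX := by
  intro P _ _ _ k
  have hcard : Fintype.card (Fin k ⊕ₗ (P ⊕ₗ Fin k)) = Fintype.card P + 2 * k := by
    have h1 : Fintype.card (Fin k ⊕ₗ (P ⊕ₗ Fin k)) = Fintype.card (Fin k ⊕ (P ⊕ Fin k)) := rfl
    rw [h1]
    simp
    ring
  refine ⟨Fin k ⊕ₗ (P ⊕ₗ Fin k), inferInstance, inferInstance,
    fun p => toLex (Sum.inr (toLex (Sum.inl p))), ?_, ?_, hcard, ?_, ?_, ?_⟩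
  · intro a b h
    have h1 := Sum.inr_injective (toLex.injective h)
    exact Sum.inl_injective (toLex.injective h1)
  · intro a b
    rw [Sum.Lex.inr_le_inr_iff, Sum.Lex.inl_le_inl_iff]
  · intro q hq q'
    rcases q with q | q | q
    · rcases q' with q' | q'
      · rcases le_total q q' with h | h
        · left; exact Sum.Lex.inl_le_inl_iff.2 h
        · right; exact Sum.Lex.inl_le_inl_iff.2 h
      · left; exact Sum.Lex.inl_le_inr _ _
    · exact absurd ⟨q, rfl⟩ hq
    · rcases q' with q' | q' | q'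
      · right; exact Sum.Lex.inl_le_inr _ _
      · right; exact Sum.Lex.inr_le_inr_iff.2 (Sum.Lex.inl_le_inr _ _)
      · rcases le_total q q' with h | h
        · left; exact Sum.Lex.inr_le_inr_iff.2 (Sum.Lex.inr_le_inr_iff.2 h)
        · right; exact Sum.Lex.inr_le_inr_iff.2 (Sum.Lex.inr_le_inr_iff.2 h)
  · intro p
    constructor
    · have h : k = ((univ : Finset (Fin k)).map ⟨fun i => (toLex (Sum.inl i) :
          Fin k ⊕ₗ (P ⊕ₗ Fin k)), fun a b h => Sum.inl_injective (toLex.injective h)⟩).card := by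
        rw [Finset.card_map, Finset.card_univ, Fintype.card_fin]
      conv_lhs => rw [h]
      apply Finset.card_le_card
      intro q hq
      rw [Finset.mem_map] at hq
      obtain ⟨i, -, rfl⟩ := hq
      rw [Finset.mem_filter]
      exact ⟨Finset.mem_univ _, Sum.Lex.inl_lt_inr _ _⟩
    · have h : k = ((univ : Finset (Fin k)).map ⟨fun i => (toLex (Sum.inr (toLex (Sum.inr i))) :
          Fin k ⊕ₗ (P ⊕ₗ Fin k)), fun a b h => Sum.inr_injective (toLex.injective
            (Sum.inr_injective (toLex.injective h)))⟩).card := by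
        rw [Finset.card_map, Finset.card_univ, Fintype.card_fin]
      conv_lhs => rw [h]
      apply Finset.card_le_card
      intro q hq
      rw [Finset.mem_map] at hq
      obtain ⟨i, -, rfl⟩ := hq
      rw [Finset.mem_filter]
      exact ⟨Finset.mem_univ _, Sum.Lex.inr_lt_inr_iff.2 (Sum.Lex.inl_lt_inr _ _)⟩
  · intro x y
    rw [ratio_eq, ratio_eq]
    have h2 : Fintype.card (P ⊕ₗ Fin k) = Fintype.card P + k := by
      have h1 : Fintype.card (P ⊕ₗ Fin k) = Fintype.card (P ⊕ Fin k) := rfl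
      rw [h1]; simp
    have h3 : Fintype.card (Fin k ⊕ₗ (P ⊕ₗ Fin k)) = k + (Fintype.card P + k) := by
      rw [hcard]; ring
    rw [h3, Pool.Agent.H931R3.Bal.pr_lex_inr (by simp) h2,
      Pool.Agent.H931R3.Bal.pr_lex_inl rfl (by simp)]

end Pool.Agent.TH494.KS_LEX
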