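import Mathlib
import Pool.Agent.W864.SymPrimes

set_option autoImplicit false

namespace Pool.Agent.TH494.Anti

open Matrix Pool.Agent.H109R2.SIC Pool.Agent.H109R2.SymGroup Pool.Agent.W864.Sym
open scoped ComplexOrder

variable {d : ℕ} {x : Fin (d ^ 2) → EuclideanSpace ℂ (Fin d)}

/-- the entrywise conjugate matrix. -/
def conjM (M : Matrix (Fin d) (Fin d) ℂ) : Matrix (Fin d) (Fin d) ℂ := M.map star

/-- `v ↦ M v̄` is an antiunitary map inducing the permutation `π` of the lines of `x`. -/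
def AInd (x : Fin (d ^ 2) → EuclideanSpace ℂ (Fin d)) (M : Matrix (Fin d) (Fin d) ℂ)
    (π : Equiv.Perm (Fin (d ^ 2))) : Prop :=
  Mᴴ * M = 1 ∧ ∀ i, ∃ c : ℂ, M *ᵥ star (x i).ofLp = c • (x (π i)).ofLp

theorem star_mulVec_conj (M : Matrix (Fin d) (Fin d) ℂ) (v : Fin d → ℂ) :
    star (M *ᵥ v) = conjM M *ᵥ star v := by
  ext a
  simp [conjM, mulVec, dotProduct, Matrix.map_apply]

theorem conjM_conjM (M : Matrix (Fin d) (Fin d) ℂ) : conjM (conjM M) = M := by
  ext a b
  simp [conjM]

theorem conjM_mul (M N : Matrix (Fin d) (Fin d) ℂ) : conjM (M * N) = conjM M * conjM N := by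
  ext a b
  simp [conjM, Matrix.mul_apply]

theorem conjM_unit {M : Matrix (Fin d) (Fin d) ℂ} (h : Mᴴ * M = 1) :
    (conjM M)ᴴ * conjM M = 1 := by
  have h1 : (conjM M)ᴴ = conjM Mᴴ := by
    ext a b
    simp [conjM, conjTranspose_apply]
  rw [h1, ← conjM_mul, h]
  ext a b
  by_cases hab : a = b
  · subst hab; simp [conjM]
  · simp [conjM, hab]

theorem unit_mul {M N : Matrix (Fin d) (Fin d) ℂ} (h : Mᴴ * M = 1) (h' : Nᴴ * N = 1) :
    (M * N)ᴴ * (M * N) = 1 := by
  rw [conjTranspose_mul]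
  calc Nᴴ * Mᴴ * (M * N) = Nᴴ * (Mᴴ * M) * N := by noncomm_ring
    _ = 1 := by rw [h, mul_one, h']

theorem dot_star_self (hx : IsMaxETF d x) (i : Fin (d ^ 2)) :
    (x i).ofLp ⬝ᵥ star (x i).ofLp = 1 := by
  rw [dotProduct_comm]; exact dot_self hx i

/-- the coefficients have modulus one. -/
theorem acoef (hx : IsMaxETF d x) {M : Matrix (Fin d) (Fin d) ℂ} (hM : Mᴴ * M = 1)
    {i j : Fin (d ^ 2)} {c : ℂ} (hc : M *ᵥ star (x i).ofLp = c • (x j).ofLp) : star c * c = 1 := by
  have h2 : star (M *ᵥ star (x i).ofLp) ⬝ᵥ (M *ᵥ star (x i).ofLp) = 1 := by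
    rw [star_mulVec, ← Matrix.dotProduct_mulVec, Matrix.mulVec_mulVec, hM,
      Matrix.one_mulVec, star_star, dot_star_self hx]
  rw [hc, star_smul, smul_dotProduct, dotProduct_smul, dot_self hx, smul_eq_mul, smul_eq_mul,
    mul_one] at h2
  exact h2

theorem coef_ne {c : ℂ} (h : star c * c = 1) : c ≠ 0 := by
  rintro rfl
  simp at h

/-- the composition of two antiunitary symmetries is a unitary symmetry. -/
theorem AInd.mul {M N : Matrix (Fin d) (Fin d) ℂ} {π σ : Equiv.Perm (Fin (d ^ 2))}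
    (h : AInd x M π) (h' : AInd x N σ) : Ind x (M * conjM N) (π * σ) := by
  refine ⟨unit_mul h.1 (conjM_unit h'.1), fun i => ?_⟩
  obtain ⟨c, hc⟩ := h'.2 i
  obtain ⟨c', hc'⟩ := h.2 (σ i)
  refine ⟨star c * c', ?_⟩
  have h1 := congrArg star hc
  rw [star_mulVec_conj, star_star, star_smul] at h1
  rw [← Matrix.mulVec_mulVec, h1, Matrix.mulVec_smul, hc', smul_smul]
  rfl

theorem AInd.mul_ind {M N : Matrix (Fin d) (Fin d) ℂ} {π σ : Equiv.Perm (Fin (d ^ 2))}
    (h : AInd x M π) (h' : Ind x N σ) : AInd x (M * conjM N) (π * σ) := by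
  refine ⟨unit_mul h.1 (conjM_unit h'.1), fun i => ?_⟩
  obtain ⟨c, hc⟩ := h'.2 i
  obtain ⟨c', hc'⟩ := h.2 (σ i)
  refine ⟨star c * c', ?_⟩
  have h1 := congrArg star hc
  rw [star_mulVec_conj, star_smul] at h1
  rw [← Matrix.mulVec_mulVec, h1, Matrix.mulVec_smul, hc', smul_smul]
  rfl

theorem AInd.ind_mul {M N : Matrix (Fin d) (Fin d) ℂ} {π σ : Equiv.Perm (Fin (d ^ 2))}
    (h : Ind x M π) (h' : AInd x N σ) : AInd x (M * N) (π * σ) := by
  refine ⟨unit_mul h.1 h'.1, fun i => ?_⟩
  obtain ⟨c, hc⟩ := h'.2 i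
  obtain ⟨c', hc'⟩ := h.2 (σ i)
  refine ⟨c * c', ?_⟩
  rw [← Matrix.mulVec_mulVec, hc, Matrix.mulVec_smul, hc', smul_smul]
  rfl

theorem app_inv (π : Equiv.Perm (Fin (d ^ 2))) (i : Fin (d ^ 2)) : π (π⁻¹ i) = i :=
  π.apply_symm_apply i

/-- inverse of a unitary symmetry. -/
theorem ind_inv (hx : IsMaxETF d x) {M : Matrix (Fin d) (Fin d) ℂ}
    {π : Equiv.Perm (Fin (d ^ 2))} (h : Ind x M π) : Ind x Mᴴ π⁻¹ := by
  refine ⟨?_, fun i => ?_⟩
  · rw [conjTranspose_conjTranspose]; exact mul_eq_one_comm.mp h.1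
  · obtain ⟨c, hc⟩ := h.2 (π⁻¹ i)
    have hcc := coef hx h.1 hc
    refine ⟨star c, ?_⟩
    rw [app_inv] at hc
    have h1 : (x i).ofLp = star c • (M *ᵥ (x (π⁻¹ i)).ofLp) := by
      rw [hc, smul_smul, hcc, one_smul]
    rw [h1, Matrix.mulVec_smul, Matrix.mulVec_mulVec, h.1, Matrix.one_mulVec]

/-- inverse of an antiunitary symmetry. -/
theorem aind_inv (hx : IsMaxETF d x) {M : Matrix (Fin d) (Fin d) ℂ}
    {π : Equiv.Perm (Fin (d ^ 2))} (h : AInd x M π) : AInd x (conjM Mᴴ) π⁻¹ := by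
  have hMM : M * Mᴴ = 1 := mul_eq_one_comm.mp h.1
  refine ⟨conjM_unit (by rw [conjTranspose_conjTranspose]; exact hMM), fun i => ?_⟩
  obtain ⟨c, hc⟩ := h.2 (π⁻¹ i)
  have hcc := acoef hx h.1 hc
  refine ⟨c, ?_⟩
  rw [app_inv] at hc
  have h1 : (x i).ofLp = star c • (M *ᵥ star (x (π⁻¹ i)).ofLp) := by
    rw [hc, smul_smul, hcc, one_smul]
  have h2 : Mᴴ *ᵥ (x i).ofLp = star c • star (x (π⁻¹ i)).ofLp := by
    rw [h1, Matrix.mulVec_smul, Matrix.mulVec_mulVec, h.1, Matrix.one_mulVec]
  have h3 := congrArg star h2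
  rw [star_mulVec_conj, star_smul, star_star, star_star] at h3
  exact h3

theorem tr_single (a c : Fin d) :
    trace (Matrix.single a c (1 : ℂ)) = if a = c then 1 else 0 := by
  split_ifs with h
  · subst h; exact Matrix.trace_single_eq_same _ _
  · exact Matrix.trace_single_eq_of_ne _ _ _ h

/-- fourth moments. -/
theorem moment (hx : IsMaxETF d x) (a b c e : Fin d) :
    ∑ i, star (x i a) * star (x i b) * (x i c * x i e)
      = ((d : ℂ) / ((d : ℂ) + 1)) *
        ((if c = b then 1 else 0) * (if a = e then 1 else 0)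
          + (if a = c then 1 else 0) * (if b = e then 1 else 0)) := by
  have h := design2 hx (Matrix.single a c 1) (Matrix.single b e 1)
  have key : ∀ (i : Fin (d ^ 2)) (a c : Fin d),
      trace (P x i * Matrix.single a c (1 : ℂ)) = star (x i a) * x i c := by
    intro i a c
    rw [trace_P_mul]
    rw [Finset.sum_eq_single a, Finset.sum_eq_single c]
    · simp
    · intro b _ hb
      simp [Ne.symm hb]
    · intro h; exact absurd (Finset.mem_univ _) h
    · intro b _ hb
      apply Finset.sum_eq_zero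
      intro b' _
      simp [Ne.symm hb]
    · intro h; exact absurd (Finset.mem_univ _) h
  simp only [key] at h
  have h1 : ∀ i, star (x i a) * star (x i b) * (x i c * x i e)
      = star (x i a) * x i c * (star (x i b) * x i e) := fun i => by ring
  simp only [h1]
  rw [h, tr_single, tr_single]
  congr 2
  by_cases h1 : c = b
  · subst h1
    rw [Matrix.single_mul_single_same, mul_one, tr_single]
    simp
  · rw [Matrix.single_mul_single_of_ne _ _ _ _ h1]
    simp [h1]

/-- `⟨x_i, A x_i⟩` for the antiunitary map `A v = M v̄`. -/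
noncomputable def q (x : Fin (d ^ 2) → EuclideanSpace ℂ (Fin d)) (M : Matrix (Fin d) (Fin d) ℂ)
    (i : Fin (d ^ 2)) : ℂ := star (x i).ofLp ⬝ᵥ (M *ᵥ star (x i).ofLp)

theorem q_eq (M : Matrix (Fin d) (Fin d) ℂ) (i : Fin (d ^ 2)) :
    q x M i = ∑ a, ∑ b, M a b * (star (x i a) * star (x i b)) := by
  simp only [q, dotProduct, mulVec, Finset.mul_sum, Pi.star_apply]
  refine Finset.sum_congr rfl fun a _ => Finset.sum_congr rfl fun b _ => ?_
  ring

theorem q_star (M : Matrix (Fin d) (Fin d) ℂ) (i : Fin (d ^ 2)) :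
    star (q x M i) = ∑ c, ∑ e, star (M c e) * (x i c * x i e) := by
  rw [q_eq, star_sum]
  refine Finset.sum_congr rfl fun a _ => ?_
  rw [star_sum]
  refine Finset.sum_congr rfl fun b _ => ?_
  rw [star_mul', star_mul', star_star, star_star]

theorem sum_q (hx : IsMaxETF d x) {M : Matrix (Fin d) (Fin d) ℂ} (hM : Mᴴ * M = 1) :
    ∑ i, q x M i * star (q x M i)
      = ((d : ℂ) / ((d : ℂ) + 1)) * ((d : ℂ) + trace (M * conjM M)) := by
  have h1 : ∀ i, q x M i * star (q x M i)
      = ∑ a, ∑ b, ∑ c, ∑ e, M a b * star (M c e)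
          * (star (x i a) * star (x i b) * (x i c * x i e)) := by
    intro i
    rw [q_star, q_eq, Finset.sum_mul]
    refine Finset.sum_congr rfl fun a _ => ?_
    rw [Finset.sum_mul]
    refine Finset.sum_congr rfl fun b _ => ?_
    rw [Finset.mul_sum]
    refine Finset.sum_congr rfl fun c _ => ?_
    rw [Finset.mul_sum]
    refine Finset.sum_congr rfl fun e _ => ?_
    ring
  simp only [h1]
  rw [Finset.sum_comm]
  have h2 : ∀ a, ∑ i, ∑ b, ∑ c, ∑ e, M a b * star (M c e)
          * (star (x i a) * star (x i b) * (x i c * x i e))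
      = ∑ b, ∑ c, ∑ e, M a b * star (M c e) * (((d : ℂ) / ((d : ℂ) + 1)) *
        ((if c = b then 1 else 0) * (if a = e then 1 else 0)
          + (if a = c then 1 else 0) * (if b = e then 1 else 0))) := by
    intro a
    rw [Finset.sum_comm]
    refine Finset.sum_congr rfl fun b _ => ?_
    rw [Finset.sum_comm]
    refine Finset.sum_congr rfl fun c _ => ?_
    rw [Finset.sum_comm]
    refine Finset.sum_congr rfl fun e _ => ?_
    rw [← Finset.mul_sum, moment hx]
  simp only [h2]
  have h3 : ∀ a b, ∑ c, ∑ e, M a b * star (M c e) * (((d : ℂ) / ((d : ℂ) + 1)) *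
        ((if c = b then 1 else 0) * (if a = e then 1 else 0)
          + (if a = c then 1 else 0) * (if b = e then 1 else 0)))
      = ((d : ℂ) / ((d : ℂ) + 1)) * (M a b * star (M b a) + M a b * star (M a b)) := by
    intro a b
    have e1 : ∀ c e, M a b * star (M c e) * (((d : ℂ) / ((d : ℂ) + 1)) *
        ((if c = b then 1 else 0) * (if a = e then 1 else 0)
          + (if a = c then 1 else 0) * (if b = e then 1 else 0)))
        = ((d : ℂ) / ((d : ℂ) + 1)) * (M a b * star (M c e)) * ((if c = b then 1 else 0) * (if a = e then 1 else 0))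
          + ((d : ℂ) / ((d : ℂ) + 1)) * (M a b * star (M c e)) * ((if a = c then 1 else 0) * (if b = e then 1 else 0)) := by
      intro c e; ring
    simp only [e1, Finset.sum_add_distrib]
    rw [mul_add]
    congr 1
    · rw [Finset.sum_eq_single b, Finset.sum_eq_single a]
      · simp
      · intro e _ he; simp [Ne.symm he]
      · intro h; exact absurd (Finset.mem_univ _) h
      · intro c _ hc; simp [hc]
      · intro h; exact absurd (Finset.mem_univ _) h
    · rw [Finset.sum_eq_single a, Finset.sum_eq_single b]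
      · simp
      · intro e _ he; simp [Ne.symm he]
      · intro h; exact absurd (Finset.mem_univ _) h
      · intro c _ hc; simp [Ne.symm hc]
      · intro h; exact absurd (Finset.mem_univ _) h
  simp only [h3]
  simp only [← Finset.mul_sum, Finset.sum_add_distrib]
  congr 1
  have h4 : trace (M * conjM M) = ∑ a, ∑ b, M a b * star (M b a) := by
    simp [trace, Matrix.mul_apply, conjM]
  have h5 : (d : ℂ) = ∑ a, ∑ b, M a b * star (M a b) := by
    have h6 : trace (M * Mᴴ) = (d : ℂ) := by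
      rw [mul_eq_one_comm.mp hM, trace_one, Fintype.card_fin]
    rw [← h6]
    simp [trace, Matrix.mul_apply, conjTranspose_apply]
  rw [h4, ← h5, add_comm]

/-- **The trace formula**: the number of lines fixed by an antiunitary symmetry `A` is the trace
of `A²`. -/
theorem trace_eq (hd : 1 ≤ d) (hx : IsMaxETF d x) {M : Matrix (Fin d) (Fin d) ℂ}
    {π : Equiv.Perm (Fin (d ^ 2))} (h : AInd x M π) :
    trace (M * conjM M) = (fix π : ℂ) := by
  have hd1 := d1_ne (d := d)
  have hd0 : (d : ℂ) ≠ 0 := by exact_mod_cast (by omega : d ≠ 0)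
  have h1 := sum_q hx h.1
  have h3 : ∀ i, q x M i * star (q x M i)
      = (if π i = i then ((d : ℂ) / ((d : ℂ) + 1)) else 0) + 1 / ((d : ℂ) + 1) := by
    intro i
    obtain ⟨c, hc⟩ := h.2 i
    have e1 : q x M i = c * inner ℂ (x i) (x (π i)) := by
      rw [q, hc, dotProduct_smul, smul_eq_mul, dot_eq_inner]
    have e3 : star (inner ℂ (x i) (x (π i))) = inner ℂ (x (π i)) (x i) := inner_conj_symm _ _
    have e4 := acoef hx h.1 hc
    have e5 := inner_mul_inner hx i (π i)
    rw [e1, star_mul, e3]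
    have e6 : c * inner ℂ (x i) (x (π i)) * (inner ℂ (x (π i)) (x i) * star c)
        = (if i = π i then (1 : ℂ) else 1 / ((d : ℂ) + 1)) := by
      rw [← e5]
      linear_combination (inner ℂ (x i) (x (π i)) * inner ℂ (x (π i)) (x i)) * e4
    rw [e6]
    by_cases hi : π i = i
    · rw [if_pos hi, if_pos hi.symm]
      field_simp
    · rw [if_neg hi, if_neg (fun h => hi h.symm)]
      simp
  simp only [h3, Finset.sum_add_distrib, Finset.sum_const, Finset.card_univ, Fintype.card_fin,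
    nsmul_eq_mul] at h1
  rw [← Finset.sum_filter, Finset.sum_const, nsmul_eq_mul] at h1
  push_cast at h1
  rw [fix]
  field_simp at h1
  linear_combination -h1

/-- the number of lines fixed by the square of an antiunitary symmetry. -/
theorem fix_sq (hd : 1 ≤ d) (hx : IsMaxETF d x) {M : Matrix (Fin d) (Fin d) ℂ}
    {π : Equiv.Perm (Fin (d ^ 2))} (h : AInd x M π) : fix (π * π) = fix π ^ 2 := by
  have h1 := norm_trace_sq hd hx (h.mul h)
  rw [trace_eq hd hx h, Complex.norm_natCast] at h1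
  exact_mod_cast h1.symm

/-- a permutation is not induced both by a unitary and by an antiunitary map. -/
theorem not_both (hd : 2 ≤ d) (hx : IsMaxETF d x) {M N : Matrix (Fin d) (Fin d) ℂ}
    {π : Equiv.Perm (Fin (d ^ 2))} (h : AInd x M π) (h' : Ind x N π) : False := by
  have h1 := AInd.ind_mul (ind_inv hx h') h
  rw [inv_mul_cancel] at h1
  have h2 := fix_sq (by omega) hx h1
  rw [mul_one, fix_one] at h2
  have h3 : 4 ≤ d ^ 2 := by nlinarith
  nlinarith

/-- the square of an antiunitary involutory symmetry is one, and it fixes exactly `d` lines. -/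
theorem invol (hd : 1 ≤ d) (hx : IsMaxETF d x) {M : Matrix (Fin d) (Fin d) ℂ}
    {π : Equiv.Perm (Fin (d ^ 2))} (h : AInd x M π) (h2 : π * π = 1) :
    M * conjM M = 1 ∧ fix π = d := by
  have h3 := fix_sq hd hx h
  rw [h2, fix_one] at h3
  have h4 : fix π = d := (Nat.pow_left_injective (by norm_num : 2 ≠ 0)) h3.symm
  refine ⟨?_, h4⟩
  have h5 := h.mul h
  rw [h2] at h5
  obtain ⟨c, hc⟩ := h5.scalar hx
  have h6 := trace_eq hd hx h
  rw [hc, h4, trace_smul, trace_one, Fintype.card_fin, smul_eq_mul] at h6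
  have hd0 : (d : ℂ) ≠ 0 := by exact_mod_cast (by omega : d ≠ 0)
  have h7 : c = 1 := mul_right_cancel₀ hd0 (by rw [h6, one_mul])
  rw [hc, h7, one_smul]

end Pool.Agent.TH494.Anti
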