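import Mathlib
import Pool.Agent.TH494.AntiBase

set_option autoImplicit false

namespace Pool.Agent.TH494.Anti

open Matrix Pool.Agent.H109R2.SIC Pool.Agent.H109R2.SymGroup Pool.Agent.W864.Sym
open scoped ComplexOrder

variable {d : ℕ} {x : Fin (d ^ 2) → EuclideanSpace ℂ (Fin d)}

/-- antiunitary maps. -/
abbrev AU (d : ℕ) : Type :=
  EuclideanSpace ℂ (Fin d) ≃ₛₗᵢ[starRingEnd ℂ] EuclideanSpace ℂ (Fin d)

/-- coordinatewise conjugation. -/
noncomputable def conjE (d : ℕ) : AU d where
  toFun v := WithLp.toLp 2 (star v.ofLp)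
  invFun v := WithLp.toLp 2 (star v.ofLp)
  map_add' u v := by
    ext a
    simp
  map_smul' c v := by
    ext a
    simp
  left_inv v := by
    ext a
    simp
  right_inv v := by
    ext a
    simp
  norm_map' v := by
    simp [EuclideanSpace.norm_eq]

theorem anti_matrix (A : AU d) :
    ∃ M : Matrix (Fin d) (Fin d) ℂ, Mᴴ * M = 1 ∧ ∀ v, M *ᵥ star v.ofLp = (A v).ofLp := by
  obtain ⟨M, hM, hMv⟩ := unitary_matrix ((conjE d).trans A)
  refine ⟨M, hM, fun v => ?_⟩
  have h := hMv (WithLp.toLp 2 (star v.ofLp))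
  have h1 : ((conjE d).trans A) (WithLp.toLp 2 (star v.ofLp)) = A v := by
    change A (WithLp.toLp 2 (star (star v.ofLp))) = A v
    rw [star_star]
  rw [h1] at h
  exact h

/-- `A` maps the line of `x i` to the line of `x (π i)`. -/
def AIndU (x : Fin (d ^ 2) → EuclideanSpace ℂ (Fin d)) (A : AU d)
    (π : Equiv.Perm (Fin (d ^ 2))) : Prop := ∀ i, ∃ c : ℂ, A (x i) = c • x (π i)

theorem aind_of {A : AU d} {π : Equiv.Perm (Fin (d ^ 2))} (h : AIndU x A π)
    {M : Matrix (Fin d) (Fin d) ℂ} (hM : Mᴴ * M = 1)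
    (hMv : ∀ v, M *ᵥ star v.ofLp = (A v).ofLp) : AInd x M π := by
  refine ⟨hM, fun i => ?_⟩
  obtain ⟨c, hc⟩ := h i
  exact ⟨c, by rw [hMv, hc]; rfl⟩

theorem inner_anti (A : AU d) (u v : EuclideanSpace ℂ (Fin d)) :
    inner ℂ (A u) (A v) = star (inner ℂ u v) := by
  have h := ((conjE d).trans A).inner_map_map (conjE d u) (conjE d v)
  have e : ∀ w, ((conjE d).trans A) (conjE d w) = A w := by
    intro w
    change A (WithLp.toLp 2 (star (star w.ofLp))) = A w
    rw [star_star]
  rw [e, e] at h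
  rw [h, inner_eq, inner_eq, star_sum]
  refine Finset.sum_congr rfl fun a _ => ?_
  change star (star (u a)) * star (v a) = _
  rw [star_mul']

theorem sq_apply (A : AU d) {M : Matrix (Fin d) (Fin d) ℂ}
    (hMv : ∀ v, M *ᵥ star v.ofLp = (A v).ofLp) (v : EuclideanSpace ℂ (Fin d)) :
    (M * conjM M) *ᵥ v.ofLp = (A (A v)).ofLp := by
  rw [← hMv (A v), ← hMv v, star_mulVec_conj, star_star, Matrix.mulVec_mulVec]

theorem trace_sq_map (A : AU d) {M : Matrix (Fin d) (Fin d) ℂ}
    (hMv : ∀ v, M *ᵥ star v.ofLp = (A v).ofLp) :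
    LinearMap.trace ℂ (EuclideanSpace ℂ (Fin d)) (A.trans A).toLinearEquiv.toLinearMap
      = trace (M * conjM M) := by
  have h := trace_of (M * conjM M) 1 (A.trans A : EuclideanSpace ℂ (Fin d) ≃ₗᵢ[ℂ]
    EuclideanSpace ℂ (Fin d)) (fun v => by rw [one_smul, sq_apply A hMv]; rfl)
  rw [h, one_mul]

/-- a vector fixed by `A` and orthogonal to a family fixed by `A`. -/
theorem exists_fixed (A : AU d) (hA : ∀ v, A (A v) = v) {n : ℕ} (hn : n < d)
    (e : Fin n → EuclideanSpace ℂ (Fin d)) (he : Orthonormal ℂ e) (hAe : ∀ k, A (e k) = e k) :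
    ∃ w, ‖w‖ = 1 ∧ A w = w ∧ ∀ k, inner ℂ (e k) w = 0 := by
  -- a vector orthogonal to all `e k`
  obtain ⟨v, hv0, hv⟩ : ∃ v : EuclideanSpace ℂ (Fin d), v ≠ 0 ∧ ∀ k, inner ℂ (e k) v = 0 := by
    have h1 : Submodule.span ℂ (Set.range e) ≠ ⊤ := by
      intro h
      have h2 : Module.finrank ℂ (Submodule.span ℂ (Set.range e)) ≤ n := by
        have := finrank_range_le_card (R := ℂ) e
        rwa [Fintype.card_fin] at this
      rw [h, finrank_top, finrank_euclideanSpace, Fintype.card_fin] at h2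
      omega
    have h3 : (Submodule.span ℂ (Set.range e))ᗮ ≠ ⊥ := by
      intro h
      exact h1 (Submodule.orthogonal_eq_bot_iff.mp h)
    obtain ⟨v, hv, hv0⟩ := Submodule.exists_mem_ne_zero_of_ne_bot h3
    refine ⟨v, hv0, fun k => ?_⟩
    exact (Submodule.mem_orthogonal _ _).mp hv (e k) (Submodule.subset_span ⟨k, rfl⟩)
  have hAv : ∀ k, inner ℂ (e k) (A v) = 0 := by
    intro k
    rw [← hAe k, inner_anti, hv, star_zero]
  have key : ∃ w : EuclideanSpace ℂ (Fin d), w ≠ 0 ∧ A w = w ∧ ∀ k, inner ℂ (e k) w = 0 := by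
    by_cases h : v + A v = 0
    · refine ⟨Complex.I • v, smul_ne_zero Complex.I_ne_zero hv0, ?_, fun k => ?_⟩
      · have h1 : A v = -v := by
          rw [eq_neg_iff_add_eq_zero, add_comm]; exact h
        rw [A.map_smulₛₗ, h1]
        simp
      · rw [inner_smul_right, hv, mul_zero]
    · refine ⟨v + A v, h, ?_, fun k => ?_⟩
      · rw [map_add, hA, add_comm]
      · rw [inner_add_right, hv, hAv, add_zero]
  obtain ⟨w, hw0, hw1, hw2⟩ := key
  have hn0 : ‖w‖ ≠ 0 := norm_ne_zero_iff.mpr hw0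
  refine ⟨((‖w‖⁻¹ : ℝ) : ℂ) • w, ?_, ?_, fun k => ?_⟩
  · rw [norm_smul, Complex.norm_real, norm_inv, norm_norm, inv_mul_cancel₀ hn0]
  · rw [A.map_smulₛₗ, hw1]
    simp
  · rw [inner_smul_right, hw2, mul_zero]

theorem exists_family (A : AU d) (hA : ∀ v, A (A v) = v) : ∀ n, n ≤ d →
    ∃ e : Fin n → EuclideanSpace ℂ (Fin d), Orthonormal ℂ e ∧ ∀ k, A (e k) = e k := by
  intro n
  induction n with
  | zero =>
    intro _
    exact ⟨Fin.elim0, ⟨fun i => i.elim0, fun i => i.elim0⟩, fun k => k.elim0⟩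
  | succ n ih =>
    intro hn
    obtain ⟨e, he, hAe⟩ := ih (by omega)
    obtain ⟨w, hw1, hw2, hw3⟩ := exists_fixed A hA (by omega : n < d) e he hAe
    refine ⟨Fin.cons w e, ?_, ?_⟩
    · refine ⟨fun i => ?_, ?_⟩
      · refine Fin.cases ?_ (fun k => ?_) i
        · simpa using hw1
        · simpa using he.1 k
      · intro i j hij
        revert hij
        refine Fin.cases ?_ (fun k => ?_) i <;> refine Fin.cases ?_ (fun l => ?_) j
        · intro h; exact absurd rfl h
        · intro _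
          simp only [Fin.cons_zero, Fin.cons_succ]
          rw [← inner_conj_symm, hw3, map_zero]
        · intro _
          simp only [Fin.cons_zero, Fin.cons_succ]
          exact hw3 k
        · intro h
          simp only [Fin.cons_succ]
          exact he.2 (fun h' => h (by rw [h']))
    · intro k
      refine Fin.cases ?_ (fun l => ?_) k
      · simpa using hw2
      · simpa using hAe l

/-- an antiunitary involution is the complex conjugation in a suitable orthonormal basis. -/
theorem exists_basis (A : AU d) (hA : ∀ v, A (A v) = v) :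
    ∃ b : OrthonormalBasis (Fin d) ℂ (EuclideanSpace ℂ (Fin d)), ∀ k, A (b k) = b k := by
  obtain ⟨e, he, hAe⟩ := exists_family A hA d le_rfl
  have h1 : Orthonormal ℂ (Set.univ.restrict e) := by
    refine ⟨fun i => he.1 _, fun i j hij => he.2 fun h => hij (Subtype.ext h)⟩
  obtain ⟨b, hb⟩ := h1.exists_orthonormalBasis_extension_of_card_eq (by simp)
  exact ⟨b, fun k => by rw [hb k trivial, hAe]⟩

/-- coordinates of the image. -/
theorem coords (A : AU d) (b : OrthonormalBasis (Fin d) ℂ (EuclideanSpace ℂ (Fin d)))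
    (hb : ∀ k, A (b k) = b k) (v : EuclideanSpace ℂ (Fin d)) (k : Fin d) :
    b.repr (A v) k = star (b.repr v k) := by
  rw [b.repr_apply_apply, b.repr_apply_apply]
  nth_rewrite 1 [← hb k]
  exact inner_anti A _ _

/-- the fixed lines are the real lines. -/
theorem fixed_iff (hd : 1 ≤ d) (hx : IsMaxETF d x) (A : AU d) {π : Equiv.Perm (Fin (d ^ 2))}
    (h : AIndU x A π)
    (b : OrthonormalBasis (Fin d) ℂ (EuclideanSpace ℂ (Fin d))) (hb : ∀ k, A (b k) = b k)
    (i : Fin (d ^ 2)) :
    π i = i ↔ ∃ c : ℂ, c ≠ 0 ∧ ∀ k, (c * b.repr (x i) k).im = 0 := by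
  obtain ⟨M, hM, hMv⟩ := anti_matrix A
  have hI := aind_of h hM hMv
  constructor
  · intro hi
    obtain ⟨z, hz⟩ := h i
    rw [hi] at hz
    have hzz : star z * z = 1 := acoef hx hM (i := i) (j := i) (by rw [hMv, hz]; rfl)
    obtain ⟨w, hw⟩ := IsAlgClosed.exists_pow_nat_eq z (n := 2) (by norm_num)
    have hz0 := coef_ne hzz
    have hw0 : w ≠ 0 := by
      rintro rfl
      apply hz0
      rw [← hw]; simp
    have hww : star w * w = 1 := by
      have h3 : (star w * w) * (star w * w) = 1 := by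
        have : (star w * w) * (star w * w) = star (w ^ 2) * w ^ 2 := by
          rw [star_pow]; ring
        rw [this, hw, hzz]
      rcases mul_self_eq_one_iff.mp h3 with h4 | h4
      · exact h4
      · exfalso
        have h5 : star w * w = ((‖w‖ ^ 2 : ℝ) : ℂ) := by
          rw [show star w = (starRingEnd ℂ) w from rfl, RCLike.conj_mul]
          norm_cast
        rw [h5] at h4
        have h6 : (‖w‖ ^ 2 : ℝ) = -1 := by exact_mod_cast h4
        nlinarith [sq_nonneg ‖w‖]
    refine ⟨w, hw0, fun k => ?_⟩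
    have e1 : star (b.repr (x i) k) = z * b.repr (x i) k := by
      rw [← coords A b hb, hz, map_smul]
      rfl
    rw [← Complex.conj_eq_iff_im]
    change star (w * b.repr (x i) k) = _
    rw [star_mul', e1, ← hw]
    linear_combination (w * b.repr (x i) k) * hww
  · rintro ⟨c, hc0, hc⟩
    obtain ⟨z, hz⟩ := h i
    have e1 : ∀ k, star c * b.repr (A (x i)) k = c * b.repr (x i) k := by
      intro k
      rw [coords A b hb]
      have := Complex.conj_eq_iff_im.mpr (hc k)
      rw [map_mul] at this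
      exact this
    have e2 : (star c) • A (x i) = c • x i := by
      apply b.repr.injective
      rw [map_smul, map_smul]
      ext k
      exact e1 k
    have e3 : (x i).ofLp = (c⁻¹ * (star c * z)) • (x (π i)).ofLp := by
      have : x i = (c⁻¹ * (star c * z)) • x (π i) := by
        rw [hz, smul_smul] at e2
        rw [← smul_smul, e2, smul_smul, inv_mul_cancel₀ hc0, one_smul]
      exact congrArg WithLp.ofLp this
    exact (line_inj hd hx _ _ _ e3).symm

/-- an antiunitary involutory symmetry squares to one. -/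
theorem sq_eq_self (hd : 1 ≤ d) (hx : IsMaxETF d x) (A : AU d) {π : Equiv.Perm (Fin (d ^ 2))}
    (h : AIndU x A π) (h2 : π * π = 1) (v : EuclideanSpace ℂ (Fin d)) : A (A v) = v := by
  obtain ⟨M, hM, hMv⟩ := anti_matrix A
  have hI := aind_of h hM hMv
  have h3 := (invol hd hx hI h2).1
  have h4 := sq_apply A hMv v
  rw [h3, Matrix.one_mulVec] at h4
  exact (WithLp.ofLp_injective 2 h4).symm

end Pool.Agent.TH494.Anti
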