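import Mathlib
import Pool.Agent.TH494.AntiReal

set_option autoImplicit false

namespace Pool.Agent.TH494.Anti

open Matrix Pool.Agent.H109R2.SIC Pool.Agent.H109R2.SymGroup Pool.Agent.W864.Sym
open scoped ComplexOrder

variable {d : ℕ} {x : Fin (d ^ 2) → EuclideanSpace ℂ (Fin d)}

/-- `π` is induced by a unitary matrix. -/
def UP (x : Fin (d ^ 2) → EuclideanSpace ℂ (Fin d)) (π : Equiv.Perm (Fin (d ^ 2))) : Prop :=
  ∃ M, Ind x M π

/-- `π` is induced by an antiunitary map. -/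
def AP (x : Fin (d ^ 2) → EuclideanSpace ℂ (Fin d)) (π : Equiv.Perm (Fin (d ^ 2))) : Prop :=
  ∃ M, AInd x M π

theorem up_isSym {π : Equiv.Perm (Fin (d ^ 2))} (h : UP x π) : IsSym x π := by
  obtain ⟨M, hM, hMx⟩ := h
  have hinner : ∀ v : EuclideanSpace ℂ (Fin d),
      inner ℂ (Matrix.toEuclideanLin M v) (Matrix.toEuclideanLin M v) = (inner ℂ v v : ℂ) := by
    intro v
    rw [inner_eq, inner_eq]
    have h3 : star (M *ᵥ v.ofLp) ⬝ᵥ (M *ᵥ v.ofLp) = star v.ofLp ⬝ᵥ v.ofLp := by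
      rw [star_mulVec, ← Matrix.dotProduct_mulVec, Matrix.mulVec_mulVec, hM, Matrix.one_mulVec]
    exact h3
  have hnorm : ∀ v : EuclideanSpace ℂ (Fin d), ‖Matrix.toEuclideanLin M v‖ = ‖v‖ := by
    intro v
    have h1 := hinner v
    rw [inner_self_eq_norm_sq_to_K, inner_self_eq_norm_sq_to_K] at h1
    have h2 : ‖Matrix.toEuclideanLin M v‖ ^ 2 = ‖v‖ ^ 2 := by exact_mod_cast h1
    exact (pow_left_inj₀ (norm_nonneg _) (norm_nonneg _) (by norm_num)).mp h2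
  let L : EuclideanSpace ℂ (Fin d) →ₗᵢ[ℂ] EuclideanSpace ℂ (Fin d) :=
    ⟨Matrix.toEuclideanLin M, hnorm⟩
  refine ⟨L.toLinearIsometryEquiv rfl, fun i => ?_⟩
  obtain ⟨c, hc⟩ := hMx i
  refine ⟨c, ?_⟩
  apply WithLp.ofLp_injective 2
  exact hc

theorem UP.one : UP x 1 := ⟨1, Ind.one⟩

theorem UP.mul {π σ : Equiv.Perm (Fin (d ^ 2))} (h : UP x π) (h' : UP x σ) : UP x (π * σ) := by
  obtain ⟨M, hM⟩ := h
  obtain ⟨N, hN⟩ := h'
  exact ⟨_, hM.mul hN⟩

theorem AP.mul {π σ : Equiv.Perm (Fin (d ^ 2))} (h : AP x π) (h' : AP x σ) : UP x (π * σ) := by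
  obtain ⟨M, hM⟩ := h
  obtain ⟨N, hN⟩ := h'
  exact ⟨_, hM.mul hN⟩

theorem AP.mul_up {π σ : Equiv.Perm (Fin (d ^ 2))} (h : AP x π) (h' : UP x σ) :
    AP x (π * σ) := by
  obtain ⟨M, hM⟩ := h
  obtain ⟨N, hN⟩ := h'
  exact ⟨_, hM.mul_ind hN⟩

theorem UP.mul_ap {π σ : Equiv.Perm (Fin (d ^ 2))} (h : UP x π) (h' : AP x σ) :
    AP x (π * σ) := by
  obtain ⟨M, hM⟩ := h
  obtain ⟨N, hN⟩ := h'
  exact ⟨_, AInd.ind_mul hM hN⟩

theorem UP.inv (hx : IsMaxETF d x) {π : Equiv.Perm (Fin (d ^ 2))} (h : UP x π) : UP x π⁻¹ := by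
  obtain ⟨M, hM⟩ := h
  exact ⟨_, ind_inv hx hM⟩

theorem AP.inv (hx : IsMaxETF d x) {π : Equiv.Perm (Fin (d ^ 2))} (h : AP x π) : AP x π⁻¹ := by
  obtain ⟨M, hM⟩ := h
  exact ⟨_, aind_inv hx hM⟩

theorem UP.not_ap (hd : 2 ≤ d) (hx : IsMaxETF d x) {π : Equiv.Perm (Fin (d ^ 2))}
    (h : UP x π) : ¬ AP x π := by
  rintro ⟨M, hM⟩
  obtain ⟨N, hN⟩ := h
  exact not_both hd hx hM hN

theorem AP.pow_odd {π : Equiv.Perm (Fin (d ^ 2))} (h : AP x π) {m : ℕ} (hm : Odd m) :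
    AP x (π ^ m) := by
  obtain ⟨k, rfl⟩ := hm
  induction k with
  | zero => simpa using h
  | succ k ih =>
    have : π ^ (2 * (k + 1) + 1) = (π * π) * π ^ (2 * k + 1) := by
      rw [← pow_two, ← pow_add]; congr 1; ring
    rw [this]
    exact (h.mul h).mul_ap ih

/-- the group of unitary symmetries. -/
def SU (hx : IsMaxETF d x) : Subgroup (Equiv.Perm (Fin (d ^ 2))) where
  carrier := {π | UP x π}
  mul_mem' h h' := UP.mul h h'
  one_mem' := UP.one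
  inv_mem' h := UP.inv hx h

/-- the unitary part has index at most two. -/
theorem split (hx : IsMaxETF d x) (H : Subgroup (Equiv.Perm (Fin (d ^ 2))))
    (hH : ∀ π ∈ H, UP x π ∨ AP x π) :
    ∃ K : Subgroup (Equiv.Perm (Fin (d ^ 2))), K ≤ H ∧ (∀ π ∈ K, UP x π) ∧
      (∀ π ∈ H, UP x π → π ∈ K) ∧
      (Nat.card H = Nat.card K ∨ Nat.card H = 2 * Nat.card K) := by
  set L : Subgroup H := (SU hx).subgroupOf H with hL
  have hmem : ∀ g : H, g ∈ L ↔ UP x g := fun g => Iff.rfl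
  refine ⟨L.map H.subtype, ?_, ?_, ?_, ?_⟩
  · rintro _ ⟨g, _, rfl⟩
    exact g.2
  · rintro _ ⟨g, hg, rfl⟩
    exact (hmem g).mp hg
  · intro π hπ hu
    exact ⟨⟨π, hπ⟩, (hmem _).mpr hu, rfl⟩
  · rw [Subgroup.card_subtype]
    by_cases h : ∀ g : H, UP x g
    · left
      have : L = ⊤ := by
        ext g
        simp [hmem, h]
      rw [this, Subgroup.card_top]
    · right
      push Not at h
      obtain ⟨a, ha⟩ := h
      have haA : AP x a := (hH a a.2).resolve_left ha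
      have h2 : L.index = 2 := by
        rw [Subgroup.index_eq_two_iff_exists_notMem_and]
        refine ⟨a, ha, fun b => ?_⟩
        rcases hH b b.2 with hb | hb
        · exact Or.inr hb
        · exact Or.inl (hb.mul haA)
      have h3 := L.card_mul_index
      rw [h2] at h3
      omega

theorem two_part_full (hd : 2 ≤ d) (hsq : ¬ IsSquare (d + 1)) (hx : IsMaxETF d x)
    (G : Subgroup (Equiv.Perm (Fin (d ^ 2)))) (hG : ∀ π ∈ G, UP x π ∨ AP x π) (k : ℕ)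
    (hk : 2 ^ k ∣ Nat.card G) : 2 ^ k ∣ 2 * d ^ 2 := by
  obtain ⟨K, hKG, hKU, -, hcard⟩ := split hx G hG
  have hK : ∀ k, 2 ^ k ∣ Nat.card K → 2 ^ k ∣ d ^ 2 :=
    fun k => two_part (by omega) hsq hx K (fun π hπ => up_isSym (hKU π hπ)) k
  rcases hcard with h | h
  · rw [h] at hk
    exact Dvd.dvd.mul_left (hK k hk) 2
  · rcases Nat.eq_zero_or_pos k with h0 | h0
    · subst h0; simp
    · obtain ⟨j, rfl⟩ := Nat.exists_eq_succ_of_ne_zero h0.ne'
      rw [h, Nat.pow_succ, mul_comm] at hk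
      have h1 : 2 ^ j ∣ Nat.card K := Nat.dvd_of_mul_dvd_mul_left (by norm_num) hk
      rw [Nat.succ_eq_add_one, pow_succ, mul_comm]
      exact Nat.mul_dvd_mul_left 2 (hK j h1)

/-- odd order of the unitary line stabilisers, as a statement on subgroups fixing a line. -/
theorem odd_of_fix (hd : 1 ≤ d) (hsq : ¬ IsSquare (d + 1)) (hx : IsMaxETF d x)
    (K : Subgroup (Equiv.Perm (Fin (d ^ 2)))) (hK : ∀ π ∈ K, UP x π) (i : Fin (d ^ 2))
    (hi : ∀ π ∈ K, π i = i) : Odd (Nat.card K) := by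
  have h1 := stab_odd hd hsq hx K (fun π hπ => up_isSym (hK π hπ)) i
  have h2 : MulAction.stabilizer K i = ⊤ := by
    ext g
    simp only [MulAction.mem_stabilizer_iff, Subgroup.mem_top, iff_true]
    exact hi g g.2
  rw [h2, Subgroup.card_top] at h1
  exact h1

/-- line stabilisers. -/
theorem stab_four (hsq : ¬ IsSquare (d + 1)) (hd : 2 ≤ d) (hx : IsMaxETF d x)
    (G : Subgroup (Equiv.Perm (Fin (d ^ 2)))) (hG : ∀ π ∈ G, UP x π ∨ AP x π)
    (i : Fin (d ^ 2)) : ¬ 4 ∣ Nat.card (MulAction.stabilizer G i) := by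
  intro h4
  set S : Subgroup (Equiv.Perm (Fin (d ^ 2))) := (MulAction.stabilizer G i).map G.subtype with hS
  have hcard : Nat.card S = Nat.card (MulAction.stabilizer G i) := Subgroup.card_subtype _ _
  have hSG : ∀ π ∈ S, π ∈ G ∧ π i = i := by
    rintro _ ⟨g, hg, rfl⟩
    exact ⟨g.2, hg⟩
  obtain ⟨K, hKS, hKU, -, hc⟩ := split hx S (fun π hπ => hG π (hSG π hπ).1)
  have hodd := odd_of_fix (by omega) hsq hx K hKU i (fun π hπ => (hSG π (hKS hπ)).2)
  rw [← hcard] at h4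
  obtain ⟨m, hm⟩ := hodd
  obtain ⟨n, hn⟩ := h4
  omega

/-- the fixed lines of the elements of a two-group of symmetries. -/
theorem two_group_fix (hd : 2 ≤ d) (hsq : ¬ IsSquare (d + 1)) (hx : IsMaxETF d x)
    (T : Subgroup (Equiv.Perm (Fin (d ^ 2)))) (hT : ∀ π ∈ T, UP x π ∨ AP x π) {k : ℕ}
    (hk : Nat.card T = 2 ^ k) (g : Equiv.Perm (Fin (d ^ 2))) (hg : g ∈ T) :
    (UP x g → g ≠ 1 → fix g = 0) ∧ (AP x g → g * g = 1 → fix g = d) ∧
      (AP x g → g * g ≠ 1 → fix g = 0) := by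
  obtain ⟨K, hKT, hKU, hKm, -⟩ := split hx T hT
  have hKk : Nat.card K ∣ 2 ^ k := by rw [← hk]; exact Subgroup.card_dvd_of_le hKT
  have hfree : ∀ g, UP x g → g ∈ T → ∀ i, g i = i → g = 1 := by
    intro g hgU hgT i hi
    have hgK : g ∈ K := hKm g hgT hgU
    set Z : Subgroup (Equiv.Perm (Fin (d ^ 2))) := Subgroup.zpowers g with hZ
    have hZK : Z ≤ K := by
      rw [hZ, Subgroup.zpowers_le]; exact hgK
    have hodd : Odd (Nat.card Z) := by
      refine odd_of_fix (by omega) hsq hx Z (fun π hπ => hKU π (hZK hπ)) i ?_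
      intro π hπ
      obtain ⟨n, rfl⟩ := Subgroup.mem_zpowers_iff.mp hπ
      exact Equiv.Perm.zpow_apply_eq_self_of_apply_eq_self hi n
    have hdvd : Nat.card Z ∣ 2 ^ k := (Subgroup.card_dvd_of_le hZK).trans hKk
    have h1 : Nat.card Z = 1 :=
      Nat.eq_one_of_dvd_coprimes (Nat.Coprime.pow_right k (Nat.coprime_two_right.mpr hodd))
        dvd_rfl hdvd
    rw [hZ, Nat.card_zpowers, orderOf_eq_one_iff] at h1
    exact h1
  have hfix0 : ∀ g : Equiv.Perm (Fin (d ^ 2)), (∀ i, g i ≠ i) → fix g = 0 := by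
    intro g hg
    rw [fix, Finset.card_eq_zero, Finset.filter_eq_empty_iff]
    intro i _
    exact hg i
  refine ⟨fun hU h1 => ?_, fun hA h2 => ?_, fun hA h2 => ?_⟩
  · exact hfix0 g fun i hi => h1 (hfree g hU hg i hi)
  · obtain ⟨M, hM⟩ := hA
    exact (invol (by omega) hx hM h2).2
  · refine hfix0 g fun i hi => h2 (hfree (g * g) (hA.mul hA) (T.mul_mem hg hg) i ?_)
    rw [Equiv.Perm.mul_apply, hi, hi]

/-- the orbit formula for two-groups. -/
theorem orbit_formula (hd : 2 ≤ d) (hsq : ¬ IsSquare (d + 1)) (hx : IsMaxETF d x)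
    (T : Subgroup (Equiv.Perm (Fin (d ^ 2)))) (hT : ∀ π ∈ T, UP x π ∨ AP x π) {k : ℕ}
    (hk : Nat.card T = 2 ^ k) :
    Nat.card (MulAction.orbitRel.Quotient T (Fin (d ^ 2))) * Nat.card T
      = d ^ 2 + d * Nat.card {π : T // AP x π ∧ (π : Equiv.Perm (Fin (d ^ 2))) * π = 1} := by
  classical
  have h1 := MulAction.sum_card_fixedBy_eq_card_orbits_mul_card_group T (Fin (d ^ 2))
  have h2 : ∀ g : T, Fintype.card (MulAction.fixedBy (Fin (d ^ 2)) g)
      = fix (g : Equiv.Perm (Fin (d ^ 2))) := by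
    intro g
    rw [Fintype.card_subtype]
    rfl
  simp only [h2] at h1
  have h3 : ∀ g : T, fix (g : Equiv.Perm (Fin (d ^ 2)))
      = (if g = 1 then d ^ 2 else 0)
        + (if AP x g ∧ (g : Equiv.Perm (Fin (d ^ 2))) * g = 1 then d else 0) := by
    intro g
    obtain ⟨hU, hA1, hA2⟩ := two_group_fix hd hsq hx T hT hk g g.2
    by_cases hg1 : g = 1
    · subst hg1
      have : ¬ AP x ((1 : T) : Equiv.Perm (Fin (d ^ 2))) := by
        have h1 : ((1 : T) : Equiv.Perm (Fin (d ^ 2))) = 1 := rfl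
        rw [h1]
        exact UP.not_ap hd hx UP.one
      rw [if_pos rfl, if_neg (fun h => this h.1), add_zero]
      exact fix_one
    · rw [if_neg hg1, zero_add]
      have hg1' : (g : Equiv.Perm (Fin (d ^ 2))) ≠ 1 := fun h => hg1 (Subtype.ext h)
      split_ifs with h
      · exact hA1 h.1 h.2
      · rcases hT g g.2 with hu | ha
        · exact hU hu hg1'
        · exact hA2 ha fun h' => h ⟨ha, h'⟩
  simp only [h3] at h1
  rw [Finset.sum_add_distrib, Finset.sum_ite_eq' Finset.univ (1 : T), if_pos (Finset.mem_univ _),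
    ← Finset.sum_filter, Finset.sum_const, smul_eq_mul] at h1
  have e1 : Nat.card (MulAction.orbitRel.Quotient T (Fin (d ^ 2)))
      = Fintype.card (Quotient (MulAction.orbitRel T (Fin (d ^ 2)))) :=
    Nat.card_eq_fintype_card
  have e2 : Nat.card T = Fintype.card T := Nat.card_eq_fintype_card
  have e3 : Nat.card {π : T // AP x π ∧ (π : Equiv.Perm (Fin (d ^ 2))) * π = 1}
      = (Finset.univ.filter fun π : T => AP x π ∧ (π : Equiv.Perm (Fin (d ^ 2))) * π = 1).card := by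
    rw [Nat.card_eq_fintype_card, Fintype.card_subtype]
  rw [e1, e2, e3, mul_comm d]
  exact h1.symm

/-- antiunitary involutions exist if the two-part of the group is large. -/
theorem exists_anti_invol (hd : 2 ≤ d) (hsq : ¬ IsSquare (d + 1)) (hx : IsMaxETF d x)
    (G : Subgroup (Equiv.Perm (Fin (d ^ 2)))) (hG : ∀ π ∈ G, UP x π ∨ AP x π) {k : ℕ}
    (hk : 2 ^ k ∣ Nat.card G) (hkd : ¬ 2 ^ k ∣ d ^ 2) :
    ∃ π ∈ G, AP x π ∧ π * π = 1 := by
  classical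
  by_contra hno
  push Not at hno
  have : Fact (Nat.Prime 2) := ⟨Nat.prime_two⟩
  obtain ⟨H, hH⟩ := Sylow.exists_subgroup_card_pow_prime 2 hk
  set T : Subgroup (Equiv.Perm (Fin (d ^ 2))) := H.map G.subtype with hTdef
  have hTG : T ≤ G := by
    rintro _ ⟨g, _, rfl⟩
    exact g.2
  have hTc : Nat.card T = 2 ^ k := by rw [hTdef, Subgroup.card_subtype, hH]
  have h := orbit_formula hd hsq hx T (fun π hπ => hG π (hTG hπ)) hTc
  have h0 : Nat.card {π : T // AP x π ∧ (π : Equiv.Perm (Fin (d ^ 2))) * π = 1} = 0 := by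
    have : IsEmpty {π : T // AP x π ∧ (π : Equiv.Perm (Fin (d ^ 2))) * π = 1} :=
      ⟨fun g => hno g.1 (hTG g.1.2) g.2.1 g.2.2⟩
    exact Nat.card_of_isEmpty
  rw [h0, mul_zero, add_zero, hTc] at h
  exact hkd ⟨_, by rw [← h, mul_comm]⟩

/-- two involutions whose product has odd order are conjugate by a power of the product. -/
theorem conj_of_odd {Γ : Type*} [Group Γ] {σ τ : Γ} (hσ : σ * σ = 1) (hτ : τ * τ = 1)
    {l : ℕ} (hl : (σ * τ) ^ (2 * l + 1) = 1) :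
    (σ * τ) ^ l * σ * ((σ * τ) ^ l)⁻¹ = τ := by
  have hσi : σ⁻¹ = σ := inv_eq_of_mul_eq_one_right hσ
  have hτi : τ⁻¹ = τ := inv_eq_of_mul_eq_one_right hτ
  -- `σ ρ⁻ˡ = ρˡ σ`
  have h1 : σ * ((σ * τ) ^ l)⁻¹ = (σ * τ) ^ l * σ := by
    have h2 : σ * (σ * τ)⁻¹ * σ⁻¹ = σ * τ := by
      rw [_root_.mul_inv_rev, hσi, hτi]
      calc σ * (τ * σ) * σ = σ * τ * (σ * σ) := by group
        _ = σ * τ := by rw [hσ, mul_one]
    calc σ * ((σ * τ) ^ l)⁻¹ = (σ * ((σ * τ)⁻¹) ^ l * σ⁻¹) * σ := by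
          rw [inv_pow]; group
      _ = (σ * (σ * τ)⁻¹ * σ⁻¹) ^ l * σ := by rw [conj_pow]
      _ = (σ * τ) ^ l * σ := by rw [h2]
  rw [mul_assoc, h1, ← mul_assoc, ← pow_add]
  have h3 : (σ * τ) ^ (l + l) * (σ * τ) = 1 := by
    rw [← pow_succ, ← two_mul, hl]
  calc (σ * τ) ^ (l + l) * σ = ((σ * τ) ^ (l + l) * (σ * τ)) * τ⁻¹ := by group
    _ = τ := by rw [h3, one_mul, hτi]

/-- conjugacy of antiunitary involutions fixing a common line. -/
theorem conj_common (hd : 2 ≤ d) (hsq : ¬ IsSquare (d + 1)) (hx : IsMaxETF d x)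
    (G : Subgroup (Equiv.Perm (Fin (d ^ 2))))
    {σ τ : Equiv.Perm (Fin (d ^ 2))} (hσG : σ ∈ G) (hτG : τ ∈ G) (hσ : AP x σ) (hτ : AP x τ)
    (hσ2 : σ * σ = 1) (hτ2 : τ * τ = 1) (i : Fin (d ^ 2)) (hσi : σ i = i) (hτi : τ i = i) :
    ∃ g ∈ G, UP x g ∧ g i = i ∧ g * σ * g⁻¹ = τ := by
  have hρU : UP x (σ * τ) := hσ.mul hτ
  have hρi : (σ * τ) i = i := by rw [Equiv.Perm.mul_apply, hτi, hσi]
  have hpow : ∀ l : ℕ, UP x ((σ * τ) ^ l) := by
    intro l
    obtain ⟨M, hM⟩ := hρU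
    exact ⟨_, hM.pow l⟩
  have hodd : Odd (orderOf (σ * τ)) := by
    rw [← Nat.card_zpowers]
    refine odd_of_fix (by omega) hsq hx _ (fun π hπ => ?_) i ?_
    · have : Subgroup.zpowers (σ * τ) ≤ SU hx := by
        rw [Subgroup.zpowers_le]; exact hρU
      exact this hπ
    · intro π hπ
      obtain ⟨n, rfl⟩ := Subgroup.mem_zpowers_iff.mp hπ
      exact Equiv.Perm.zpow_apply_eq_self_of_apply_eq_self hρi n
  obtain ⟨l, hl⟩ := hodd
  have h1 : (σ * τ) ^ (2 * l + 1) = 1 := by rw [← hl]; exact pow_orderOf_eq_one _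
  refine ⟨(σ * τ) ^ l, G.pow_mem (G.mul_mem hσG hτG) l, hpow l, ?_, conj_of_odd hσ2 hτ2 h1⟩
  exact Equiv.Perm.pow_apply_eq_self_of_apply_eq_self hρi l

/-- odd dimension. -/
theorem odd_dim (hd : 2 ≤ d) (hodd : Odd d) (hsq : ¬ IsSquare (d + 1)) (hx : IsMaxETF d x)
    (G : Subgroup (Equiv.Perm (Fin (d ^ 2)))) (hG : ∀ π ∈ G, UP x π ∨ AP x π) :
    ¬ 4 ∣ Nat.card G ∧
    (∀ π ∈ G, AP x π → ∃ m : ℕ, Odd m ∧ AP x (π ^ m) ∧ π ^ m * π ^ m = 1) ∧
    (∀ σ ∈ G, ∀ τ ∈ G, AP x σ → AP x τ → σ * σ = 1 → τ * τ = 1 →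
      ∃ g ∈ G, UP x g ∧ g * σ * g⁻¹ = τ) := by
  have hodd2 : Odd (d ^ 2) := hodd.pow
  have h4 : ∀ H : Subgroup (Equiv.Perm (Fin (d ^ 2))), (∀ π ∈ H, UP x π ∨ AP x π) →
      ¬ 4 ∣ Nat.card H := by
    intro H hH h
    have h1 := two_part_full hd hsq hx H hH 2 (by simpa using h)
    obtain ⟨m, hm⟩ := hodd2
    obtain ⟨n, hn⟩ := h1
    rw [hm] at hn
    omega
  have hUodd : ∀ g, UP x g → Odd (orderOf g) := by
    intro g hg
    have hle : Subgroup.zpowers g ≤ SU hx := by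
      rw [Subgroup.zpowers_le]; exact hg
    by_contra h
    rw [Nat.not_odd_iff_even] at h
    have h1 := two_part (by omega) hsq hx (Subgroup.zpowers g)
      (fun π hπ => up_isSym (hle hπ)) 1 (by
        rw [Nat.card_zpowers, pow_one]; exact h.two_dvd)
    rw [pow_one] at h1
    exact (Nat.not_even_iff_odd.mpr hodd2) (even_iff_two_dvd.mpr h1)
  refine ⟨h4 G hG, fun π _ hA => ?_, fun σ hσG τ hτG hσ hτ hσ2 hτ2 => ?_⟩
  · have h1 := hUodd (π * π) (hA.mul hA)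
    refine ⟨orderOf (π * π), h1, hA.pow_odd h1, ?_⟩
    have h2 : Commute π π := Commute.refl π
    rw [← h2.mul_pow]
    exact pow_orderOf_eq_one _
  · have hρ := hUodd (σ * τ) (hσ.mul hτ)
    obtain ⟨l, hl⟩ := hρ
    have h1 : (σ * τ) ^ (2 * l + 1) = 1 := by rw [← hl]; exact pow_orderOf_eq_one _
    refine ⟨(σ * τ) ^ l, G.pow_mem (G.mul_mem hσG hτG) l, ?_, conj_of_odd hσ2 hτ2 h1⟩
    obtain ⟨M, hM⟩ := hσ.mul hτ
    exact ⟨_, hM.pow l⟩

end Pool.Agent.TH494.Anti
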