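import Mathlib
import Pool.Agent.TH494.AntiGroup

set_option autoImplicit false

namespace Pool.Agent.TH494.Anti

open Matrix Pool.Agent.H109R2.SIC Pool.Agent.H109R2.SymGroup Pool.Agent.W864.Sym
open scoped ComplexOrder

variable {d : ℕ} {x : Fin (d ^ 2) → EuclideanSpace ℂ (Fin d)}

theorem exists_sqrt {z : ℂ} (hz : star z * z = 1) : ∃ w : ℂ, w ^ 2 = z ∧ star w * w = 1 := by
  obtain ⟨w, hw⟩ := IsAlgClosed.exists_pow_nat_eq z (n := 2) (by norm_num)
  refine ⟨w, hw, ?_⟩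
  have h3 : (star w * w) * (star w * w) = 1 := by
    have : (star w * w) * (star w * w) = star (w ^ 2) * w ^ 2 := by
      rw [star_pow]; ring
    rw [this, hw, hz]
  rcases mul_self_eq_one_iff.mp h3 with h4 | h4
  · exact h4
  · exfalso
    have h5 : star w * w = ((‖w‖ ^ 2 : ℝ) : ℂ) := by
      rw [show star w = (starRingEnd ℂ) w from rfl, RCLike.conj_mul]
      norm_cast
    rw [h5] at h4
    have h6 : (‖w‖ ^ 2 : ℝ) = -1 := by exact_mod_cast h4
    nlinarith [sq_nonneg ‖w‖]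

theorem conjM_smul (w : ℂ) (M : Matrix (Fin d) (Fin d) ℂ) :
    conjM (w • M) = star w • conjM M := by
  ext a b
  simp [conjM]

theorem conjM_one : conjM (1 : Matrix (Fin d) (Fin d) ℂ) = 1 := by
  ext a b
  by_cases hab : a = b
  · subst hab; simp [conjM]
  · simp [conjM, hab]

theorem conjM_pow (M : Matrix (Fin d) (Fin d) ℂ) (n : ℕ) : conjM (M ^ n) = conjM M ^ n := by
  induction n with
  | zero => rw [pow_zero, pow_zero, conjM_one]
  | succ n ih => rw [pow_succ, pow_succ, conjM_mul, ih]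

theorem scalar_inj (hd : 1 ≤ d) {a b : ℂ} {M : Matrix (Fin d) (Fin d) ℂ} (hM : Mᴴ * M = 1)
    (h : a • M = b • M) : a = b := by
  have h1 : (a - b) • M = 0 := by rw [sub_smul, h, sub_self]
  rcases smul_eq_zero.mp h1 with h2 | h2
  · exact sub_eq_zero.mp h2
  · exfalso
    rw [h2, mul_zero] at hM
    have i0 : Fin d := ⟨0, hd⟩
    have := congrFun (congrFun hM i0) i0
    simp at this

/-- antiunitary maps inducing the same permutation differ by a phase. -/
theorem aind_unique (hd : 1 ≤ d) (hx : IsMaxETF d x) {M N : Matrix (Fin d) (Fin d) ℂ}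
    {π : Equiv.Perm (Fin (d ^ 2))} (h : AInd x M π) (h' : AInd x N π) :
    ∃ c : ℂ, star c * c = 1 ∧ M = c • N := by
  have h1 := h.mul (aind_inv hx h')
  rw [mul_inv_cancel, conjM_conjM] at h1
  obtain ⟨c, hc⟩ := h1.scalar hx
  have h2 : M = c • N := by
    calc M = (M * Nᴴ) * N := by rw [Matrix.mul_assoc, h'.1, mul_one]
      _ = c • N := by rw [hc, smul_mul_assoc, one_mul]
  refine ⟨c, ?_, h2⟩
  have h3 := h.1
  rw [h2, conjTranspose_smul, smul_mul_smul_comm, h'.1] at h3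
  exact scalar_inj hd (M := 1) (by simp) (by rw [h3, one_smul])

/-- a unitary symmetry of odd order commuting with an antiunitary symmetry has a unitary lift of
the same order commuting with the antiunitary map. -/
theorem real_lift (hd : 1 ≤ d) (hx : IsMaxETF d x) {M N₀ : Matrix (Fin d) (Fin d) ℂ}
    {σ ρ : Equiv.Perm (Fin (d ^ 2))} (hM : AInd x M σ) (hN₀ : Ind x N₀ ρ)
    (hc : σ * ρ = ρ * σ) {m : ℕ} (hm : Odd m) (hρ : ρ ^ m = 1) :
    ∃ N, Ind x N ρ ∧ N ^ m = 1 ∧ M * conjM N = N * M := by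
  have e1 := hM.mul_ind hN₀
  have e2 := AInd.ind_mul hN₀ hM
  rw [hc] at e1
  obtain ⟨c, hcc, hc'⟩ := aind_unique hd hx e1 e2
  obtain ⟨w, hw, hww⟩ := exists_sqrt hcc
  have h1 : M * conjM (w • N₀) = (w • N₀) * M := by
    rw [conjM_smul, mul_smul_comm, hc', smul_smul, smul_mul_assoc, ← hw]
    congr 1
    linear_combination w * hww
  have hN1 : Ind x (w • N₀) ρ := hN₀.smul hww
  set N₁ := w • N₀ with hN₁
  have h2 : ∀ n, M * conjM (N₁ ^ n) = N₁ ^ n * M := by
    intro n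
    rw [conjM_pow]
    induction n with
    | zero => simp
    | succ n ih =>
      rw [pow_succ, pow_succ, ← Matrix.mul_assoc, ih, Matrix.mul_assoc, h1, Matrix.mul_assoc]
  have h3 := hN1.pow m
  rw [hρ] at h3
  obtain ⟨z, hz⟩ := h3.scalar hx
  have hzr : star z = z := by
    have h4 := h2 m
    rw [hz, conjM_smul, conjM_one, mul_smul_comm, mul_one, smul_mul_assoc, one_mul] at h4
    exact scalar_inj hd hM.1 h4
  have hzz : z * z = 1 := by
    have h4 := h3.1
    rw [hz, conjTranspose_smul, smul_mul_smul_comm, conjTranspose_one, mul_one, hzr] at h4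
    exact scalar_inj hd (M := 1) (by simp) (by rw [h4, one_smul])
  rcases mul_self_eq_one_iff.mp hzz with h5 | h5
  · refine ⟨N₁, hN1, by rw [hz, h5, one_smul], h1⟩
  · refine ⟨(-1 : ℂ) • N₁, hN1.smul (by simp), ?_, ?_⟩
    · rw [smul_pow, hz, h5, hm.neg_one_pow, smul_smul]
      simp
    · calc M * conjM ((-1 : ℂ) • N₁) = (-1 : ℂ) • (N₁ * M) := by
            rw [conjM_smul, mul_smul_comm, h1, star_neg, star_one]
        _ = ((-1 : ℂ) • N₁) * M := (smul_mul_assoc _ _ _).symm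

/-- lines fixed by `σ ρ^j`. -/
theorem fix_comm {σ ρ : Equiv.Perm (Fin (d ^ 2))} (hσ : σ * σ = 1) (hc : σ * ρ = ρ * σ)
    {l : ℕ} (hρ : ρ ^ (2 * l + 1) = 1) (n : ℕ) (i : Fin (d ^ 2)) :
    (σ * ρ ^ (n * (l + 1))) i = i ↔ σ i = i ∧ (ρ ^ n) i = i := by
  have hcomm : Commute σ (ρ ^ (n * (l + 1))) := Commute.pow_right hc _
  have hσodd : σ ^ (2 * l + 1) = σ := by
    have h2 : σ ^ 2 = 1 := (pow_two σ).trans hσ
    rw [pow_succ σ (2 * l), pow_mul, h2, one_pow, one_mul]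
  have hρj : (ρ ^ (n * (l + 1))) ^ (2 * l + 1) = 1 := by
    rw [← pow_mul, mul_comm, pow_mul, hρ, one_pow]
  constructor
  · intro h
    have h1 : ((σ * ρ ^ (n * (l + 1))) ^ (2 * l + 1)) i = i :=
      Equiv.Perm.pow_apply_eq_self_of_apply_eq_self h _
    rw [hcomm.mul_pow, hσodd, hρj, mul_one] at h1
    refine ⟨h1, ?_⟩
    rw [Equiv.Perm.mul_apply] at h
    have h2 : (ρ ^ (n * (l + 1))) i = i := σ.injective (by rw [h, h1])
    have h3 : ρ ^ n = (ρ ^ (n * (l + 1))) ^ 2 := by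
      rw [← pow_mul, show n * (l + 1) * 2 = (2 * l + 1) * n + n by ring, pow_add, pow_mul, hρ,
        one_pow, one_mul]
    rw [h3]
    exact Equiv.Perm.pow_apply_eq_self_of_apply_eq_self h2 _
  · rintro ⟨h1, h2⟩
    rw [Equiv.Perm.mul_apply, pow_mul,
      Equiv.Perm.pow_apply_eq_self_of_apply_eq_self h2, h1]

/-- the number of lines fixed by both `σ` and `ρ`. -/
def fix2 (σ ρ : Equiv.Perm (Fin (d ^ 2))) : ℕ :=
  (Finset.univ.filter fun i => σ i = i ∧ ρ i = i).card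

/-- the character of the real lift is the permutation character on the real lines. -/
theorem real_trace (hd : 1 ≤ d) (hx : IsMaxETF d x) {M N : Matrix (Fin d) (Fin d) ℂ}
    {σ ρ : Equiv.Perm (Fin (d ^ 2))} (hM : AInd x M σ) (hσ : σ * σ = 1) (hN : Ind x N ρ)
    (hc : σ * ρ = ρ * σ) {m : ℕ} (hm : Odd m) (hρ : ρ ^ m = 1) (hNm : N ^ m = 1)
    (hNc : M * conjM N = N * M) (n : ℕ) : trace (N ^ n) = (fix2 σ (ρ ^ n) : ℂ) := by
  obtain ⟨l, rfl⟩ := hm
  have hM1 := (invol hd hx hM hσ).1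
  have h2 : ∀ n, M * conjM (N ^ n) = N ^ n * M := by
    intro n
    rw [conjM_pow]
    induction n with
    | zero => simp
    | succ n ih =>
      rw [pow_succ, pow_succ, ← Matrix.mul_assoc, ih, Matrix.mul_assoc, hNc, Matrix.mul_assoc]
  have h3 := trace_eq hd hx (hM.mul_ind (hN.pow (n * (l + 1))))
  have h4 : M * conjM (N ^ (n * (l + 1))) * conjM (M * conjM (N ^ (n * (l + 1)))) = N ^ n := by
    rw [conjM_mul, conjM_conjM, h2]
    calc N ^ (n * (l + 1)) * M * (conjM M * N ^ (n * (l + 1)))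
        = N ^ (n * (l + 1)) * (M * conjM M) * N ^ (n * (l + 1)) := by noncomm_ring
      _ = N ^ n := by
        rw [hM1, mul_one, ← pow_add,
          show n * (l + 1) + n * (l + 1) = (2 * l + 1) * n + n by ring, pow_add, pow_mul, hNm,
          one_pow, one_mul]
  rw [h4] at h3
  rw [h3, fix, fix2]
  congr 2
  ext i
  simp only [Finset.mem_filter, Finset.mem_univ, true_and]
  exact fix_comm hσ hc hρ n i

theorem fix_eq_sq (hd : 1 ≤ d) (hx : IsMaxETF d x) {M N : Matrix (Fin d) (Fin d) ℂ}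
    {σ ρ : Equiv.Perm (Fin (d ^ 2))} (hM : AInd x M σ) (hσ : σ * σ = 1) (hN : Ind x N ρ)
    (hc : σ * ρ = ρ * σ) {m : ℕ} (hm : Odd m) (hρ : ρ ^ m = 1) (n : ℕ) :
    fix (ρ ^ n) = fix2 σ (ρ ^ n) ^ 2 := by
  obtain ⟨N', hN', hN'm, hN'c⟩ := real_lift hd hx hM hN hc hm hρ
  have h1 := real_trace hd hx hM hσ hN' hc hm hρ hN'm hN'c n
  have h2 := norm_trace_sq hd hx (hN'.pow n)
  rw [h1, Complex.norm_natCast] at h2
  exact_mod_cast h2.symm

/-- congruence for the number of lines fixed by both. -/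
theorem fix2_mod {σ ρ : Equiv.Perm (Fin (d ^ 2))} (hσd : fix σ = d) (hc : σ * ρ = ρ * σ)
    {p : ℕ} (hp : p.Prime) (hρ : ρ ^ p = 1) : fix2 σ ρ ≡ d [MOD p] := by
  classical
  have : Fact p.Prime := ⟨hp⟩
  have hiff : ∀ i, σ (ρ i) = ρ i ↔ σ i = i := by
    intro i
    have h1 : σ (ρ i) = ρ (σ i) := by
      have := congrArg (fun π => π i) hc
      simpa using this
    rw [h1]
    exact ρ.injective.eq_iff
  set τ : Equiv.Perm {i // σ i = i} := ρ.subtypePerm hiff with hτ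
  have hτp : τ ^ p ^ 1 = 1 := by
    rw [pow_one, hτ, Equiv.Perm.subtypePerm_pow]
    ext i
    simp [hρ]
  have h1 := Equiv.Perm.card_compl_support_modEq (p := p) (n := 1) (σ := τ) hτp
  have h2 : Fintype.card {i // σ i = i} = d := by
    rw [Fintype.card_subtype]; exact hσd
  rw [h2] at h1
  have h3 : τ.supportᶜ.card = fix2 σ ρ := by
    rw [fix2, ← Finset.card_map (Function.Embedding.subtype _)]
    congr 1
    ext i
    simp only [Finset.mem_map, Finset.mem_compl, Equiv.Perm.mem_support, not_not,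
      Function.Embedding.coe_subtype, Finset.mem_filter, Finset.mem_univ, true_and]
    constructor
    · rintro ⟨⟨j, hj⟩, h, rfl⟩
      refine ⟨hj, ?_⟩
      exact congrArg Subtype.val h
    · rintro ⟨h, h'⟩
      exact ⟨⟨i, h⟩, Subtype.ext h', rfl⟩
  rw [h3] at h1
  exact h1

/-- the matrix as an isometry. -/
theorem exists_U {M : Matrix (Fin d) (Fin d) ℂ} (hM : Mᴴ * M = 1) :
    ∃ U : EuclideanSpace ℂ (Fin d) ≃ₗᵢ[ℂ] EuclideanSpace ℂ (Fin d),
      ∀ v, M *ᵥ v.ofLp = (U v).ofLp := by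
  have hinner : ∀ v : EuclideanSpace ℂ (Fin d),
      inner ℂ (Matrix.toEuclideanLin M v) (Matrix.toEuclideanLin M v) = (inner ℂ v v : ℂ) := by
    intro v
    rw [inner_eq, inner_eq]
    have h3 : star (M *ᵥ v.ofLp) ⬝ᵥ (M *ᵥ v.ofLp) = star v.ofLp ⬝ᵥ v.ofLp := by
      rw [star_mulVec, ← Matrix.dotProduct_mulVec, Matrix.mulVec_mulVec, hM, Matrix.one_mulVec]
    exact h3
  have hnorm : ∀ v : EuclideanSpace ℂ (Fin d), ‖Matrix.toEuclideanLin M v‖ = ‖v‖ := by
    intro v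
    have h1 := hinner v
    rw [inner_self_eq_norm_sq_to_K, inner_self_eq_norm_sq_to_K] at h1
    have h2 : ‖Matrix.toEuclideanLin M v‖ ^ 2 = ‖v‖ ^ 2 := by exact_mod_cast h1
    exact (pow_left_inj₀ (norm_nonneg _) (norm_nonneg _) (by norm_num)).mp h2
  let L : EuclideanSpace ℂ (Fin d) →ₗᵢ[ℂ] EuclideanSpace ℂ (Fin d) :=
    ⟨Matrix.toEuclideanLin M, hnorm⟩
  exact ⟨L.toLinearIsometryEquiv rfl, fun v => rfl⟩

theorem U_pow {M : Matrix (Fin d) (Fin d) ℂ}
    {U : EuclideanSpace ℂ (Fin d) ≃ₗᵢ[ℂ] EuclideanSpace ℂ (Fin d)}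
    (h : ∀ v, M *ᵥ v.ofLp = (U v).ofLp) (n : ℕ) (v : EuclideanSpace ℂ (Fin d)) :
    (M ^ n) *ᵥ v.ofLp = ((U ^ n) v).ofLp := by
  induction n generalizing v with
  | zero => rw [pow_zero, Matrix.one_mulVec]; rfl
  | succ n ih =>
    rw [pow_succ, pow_succ, ← Matrix.mulVec_mulVec, h, ih]
    rfl

theorem trace_U {M : Matrix (Fin d) (Fin d) ℂ}
    {U : EuclideanSpace ℂ (Fin d) ≃ₗᵢ[ℂ] EuclideanSpace ℂ (Fin d)}
    (h : ∀ v, M *ᵥ v.ofLp = (U v).ofLp) :
    LinearMap.trace ℂ (EuclideanSpace ℂ (Fin d)) U.toLinearEquiv.toLinearMap = trace M := by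
  have h1 := trace_of M 1 U (fun v => by rw [one_smul]; exact h v)
  rw [h1, one_mul]

end Pool.Agent.TH494.Anti
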