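import Mathlib
import Pool.Agent.TH97.GB.Defs

set_option autoImplicit false

namespace Pool.Agent.TH494.GB_DL

open Subgroup Pool.Agent.TH97.GB
open scoped commutatorElement

/-- all `p`-subgroups have class at most `k` -/
def Cl (k : ℕ) (V : Type) [Group V] : Prop :=
  ∀ p : ℕ, p.Prime → ∀ P : Subgroup V, IsPGroup p P → P.lowerCentralSeries k = ⊥

theorem Cl.subgroup {k : ℕ} {V : Type} [Group V] (h : Cl k V) (W : Subgroup V) : Cl k W := by
  intro p hp P hP
  have h1 := h p hp (P.map W.subtype) (hP.map _)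
  rw [← Subgroup.map_lowerCentralSeries] at h1
  exact (Subgroup.map_eq_bot_iff_of_injective _ W.subtype_injective).mp h1

theorem Cl.quotient {k : ℕ} {V : Type} [Group V] [Finite V] (h : Cl k V) (N : Subgroup V)
    [N.Normal] : Cl k (V ⧸ N) := by
  intro p hp P hP
  have : Fact p.Prime := ⟨hp⟩
  set f : V →* V ⧸ N := QuotientGroup.mk' N with hf
  have hfs : Function.Surjective f := QuotientGroup.mk'_surjective N
  set P' : Subgroup V := P.comap f with hP'
  have hPP : P'.map f = P := Subgroup.map_comap_eq_self_of_surjective hfs P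
  -- the restriction of `f` to `P'`
  set g : P' →* P := f.subgroupComap P with hg
  have hgs : Function.Surjective g := by
    rintro ⟨y, hy⟩
    obtain ⟨x, rfl⟩ := hfs y
    exact ⟨⟨x, hy⟩, rfl⟩
  let S : Sylow p P' := default
  have hS : (S : Subgroup P').map g = ⊤ := by
    have h1 : ((S.mapSurjective hgs : Sylow p P) : Subgroup P) = ⊤ := by
      have h2 := (S.mapSurjective hgs)
      have h3 := (S.mapSurjective hgs).3 (Q := ⊤) ((hP.to_subgroup ⊤)) le_top
      exact h3.symm
    rwa [Sylow.coe_mapSurjective] at h1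
  have h1 : ((S : Subgroup P').map P'.subtype).map f = P := by
    rw [Subgroup.map_map]
    have e : f.comp P'.subtype = P.subtype.comp g := by ext x; rfl
    rw [e, ← Subgroup.map_map, hS, ← MonoidHom.range_eq_map, Subgroup.range_subtype]
  have h2 := h p hp ((S : Subgroup P').map P'.subtype) (S.isPGroup'.map _)
  rw [← h1, ← Subgroup.map_lowerCentralSeries, h2, Subgroup.map_bot]

/-- derived length of a `p`-group -/
theorem derived_p {k : ℕ} {B : Type} [Group B] (h : Cl k B) {p : ℕ} (hp : p.Prime)
    (hB : IsPGroup p B) : derivedSeries B k = ⊥ := by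
  have h1 := h p hp ⊤ (hB.to_subgroup ⊤)
  have h2 : ∀ n, derivedSeries B n ≤ (⊤ : Subgroup B).lowerCentralSeries n := by
    intro n
    induction n with
    | zero => exact le_rfl
    | succ n ih =>
      rw [derivedSeries_succ, Subgroup.lowerCentralSeries_succ]
      exact Subgroup.commutator_mono ih le_top
  exact le_bot_iff.mp (h1 ▸ h2 k)

theorem derived_add {V : Type} [Group V] (M : Subgroup V) {n : ℕ} (h : derivedSeries V n ≤ M)
    (a : ℕ) : derivedSeries V (n + a) ≤ (derivedSeries M a).map M.subtype := by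
  induction a with
  | zero =>
    rw [add_zero, derivedSeries_zero, ← MonoidHom.range_eq_map, Subgroup.range_subtype]
    exact h
  | succ a ih =>
    rw [← add_assoc, derivedSeries_succ, derivedSeries_succ, Subgroup.map_commutator]
    exact Subgroup.commutator_mono ih ih

/-- one step down -/
theorem derived_step {V : Type} [Group V] {N M : Subgroup V} [N.Normal] {n a : ℕ} 
    (h : derivedSeries V n ≤ M) (ha : derivedSeries (M ⧸ N.subgroupOf M) a = ⊥) :
    derivedSeries V (n + a) ≤ N := by
  refine (derived_add M h a).trans ?_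
  have h1 := map_derivedSeries_le_derivedSeries (QuotientGroup.mk' (N.subgroupOf M)) a
  rw [ha, le_bot_iff, Subgroup.map_eq_bot_iff, QuotientGroup.ker_mk'] at h1
  rw [Subgroup.map_le_iff_le_comap]
  exact h1

/-- a normal elementary subgroup -/
theorem exists_layer (V : Type) [Group V] [Finite V] (hV : Group.IsSolvable V) [Nontrivial V] :
    ∃ N : Subgroup V, N.Normal ∧ N ≠ ⊥ ∧ ∃ q : ℕ, q.Prime ∧
      ∀ r : ℕ, r.Prime → r ∣ Nat.card N → r = q := by
  classical
  -- an abelian normal subgroup
  obtain ⟨A, hAn, hA0, hAc⟩ : ∃ A : Subgroup V, A.Normal ∧ A ≠ ⊥ ∧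
      ∀ x ∈ A, ∀ y ∈ A, x * y = y * x := by
    have hex : ∃ n, derivedSeries V n = ⊥ := hV.solvable
    have h1 := Nat.find_spec hex
    have h0 : Nat.find hex ≠ 0 := by
      intro h0
      rw [h0, derivedSeries_zero] at h1
      exact top_ne_bot h1
    obtain ⟨n, hn⟩ := Nat.exists_eq_succ_of_ne_zero h0
    have h2 := Nat.find_min hex (m := n) (by omega)
    refine ⟨derivedSeries V n, inferInstance, h2, ?_⟩
    rw [hn, Nat.succ_eq_add_one, derivedSeries_succ] at h1
    intro x hx y hy
    have h3 : ⁅x, y⁆ ∈ (⊥ : Subgroup V) := by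
      rw [← h1]; exact Subgroup.commutator_mem_commutator hx hy
    rw [Subgroup.mem_bot, commutatorElement_eq_one_iff_mul_comm] at h3
    exact h3
  have hcard : Nat.card A ≠ 1 := by
    intro h
    exact hA0 (Subgroup.card_eq_one.mp h)
  obtain ⟨q, hq, hqd⟩ := Nat.exists_prime_and_dvd hcard
  have : Fact q.Prime := ⟨hq⟩
  let N : Subgroup V :=
    { carrier := {x | x ∈ A ∧ x ^ q = 1}
      mul_mem' := by
        rintro x y ⟨hx, hx'⟩ ⟨hy, hy'⟩
        refine ⟨A.mul_mem hx hy, ?_⟩
        have hc : Commute x y := hAc x hx y hy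
        rw [hc.mul_pow, hx', hy', one_mul]
      one_mem' := ⟨A.one_mem, one_pow q⟩
      inv_mem' := by
        rintro x ⟨hx, hx'⟩
        exact ⟨A.inv_mem hx, by rw [inv_pow, hx', inv_one]⟩ }
  refine ⟨N, ⟨?_⟩, ?_, q, hq, ?_⟩
  · rintro x ⟨hx, hx'⟩ g
    refine ⟨hAn.conj_mem x hx g, ?_⟩
    rw [conj_pow, hx', mul_one, mul_inv_cancel]
  · obtain ⟨x, hx⟩ := exists_prime_orderOf_dvd_card' (G := A) q hqd
    intro hN
    have h1 : (x : V) ∈ N := ⟨x.2, by
      have := pow_orderOf_eq_one x
      rw [hx] at this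
      exact_mod_cast congrArg Subtype.val this⟩
    rw [hN, Subgroup.mem_bot] at h1
    have h2 : x = 1 := Subtype.ext h1
    rw [h2, orderOf_one] at hx
    exact hq.one_lt.ne hx
  · intro r hr hrd
    have : Fact r.Prime := ⟨hr⟩
    obtain ⟨x, hx⟩ := exists_prime_orderOf_dvd_card' (G := N) r hrd
    have h1 : x ^ q = 1 := Subtype.ext (by simpa using x.2.2)
    have h2 := orderOf_dvd_of_pow_eq_one h1
    rw [hx] at h2
    exact (Nat.prime_dvd_prime_iff_eq hr hq).mp h2

theorem card_comap {V : Type} [Group V] [Finite V] (N : Subgroup V) [N.Normal]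
    (K : Subgroup (V ⧸ N)) :
    Nat.card (K.comap (QuotientGroup.mk' N)) = Nat.card N * Nat.card K := by
  have h1 := (K.comap (QuotientGroup.mk' N)).card_mul_index
  rw [Subgroup.index_comap_of_surjective K (QuotientGroup.mk'_surjective N)] at h1
  have h2 := K.card_mul_index
  have h3 := Subgroup.card_eq_card_quotient_mul_card_subgroup N
  rw [h3, ← h2] at h1
  have h4 : K.index ≠ 0 := Subgroup.index_ne_zero_of_finite
  refine Nat.eq_of_mul_eq_mul_right (Nat.pos_of_ne_zero h4) ?_
  rw [h1]; ring

/-- the normal series of the hypothesis of the theorem on the `p`-length -/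
def PSer (p : ℕ) (V : Type) [Group V] : Prop :=
  ∃ m : ℕ, ∃ S : ℕ → Subgroup V, S 0 = ⊥ ∧ S m = ⊤ ∧ (∀ i, S i ≤ S (i + 1)) ∧
    (∀ i, (S i).Normal) ∧ ∀ i < m,
      (∀ r : ℕ, r.Prime → r ∣ Nat.card ↥(S (i + 1)) / Nat.card ↥(S i) → r ∉ ({p} : Set ℕ)) ∨
      (∃ q ∈ ({p} : Set ℕ), ∀ r : ℕ, r.Prime →
        r ∣ Nat.card ↥(S (i + 1)) / Nat.card ↥(S i) → r = q)

theorem exists_series (p : ℕ) : ∀ n : ℕ, ∀ (V : Type) [Group V] [Finite V],
    Group.IsSolvable V → Nat.card V ≤ n → PSer p V := by
  intro n
  induction n with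
  | zero =>
    intro V _ _ _ h
    have := Nat.card_pos (α := V)
    omega
  | succ n ih =>
    intro V _ _ hV hn
    rcases subsingleton_or_nontrivial V with hs | hs
    · refine ⟨0, fun _ => ⊥, rfl, Subsingleton.elim _ _, fun _ => le_rfl, fun _ => inferInstance,
        fun i hi => absurd hi (Nat.not_lt_zero i)⟩
    · obtain ⟨N, hN, hN0, q, hq, hqN⟩ := exists_layer V hV
      have hcard : Nat.card (V ⧸ N) < Nat.card V := by
        have h3 := Subgroup.card_eq_card_quotient_mul_card_subgroup N
        have h4 : 1 < Nat.card N := (Subgroup.one_lt_card_iff_ne_bot N).mpr hN0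
        have h5 : 0 < Nat.card (V ⧸ N) := Nat.card_pos
        rw [h3]
        nlinarith
      obtain ⟨m, S, s0, s1, s2, s3, s4⟩ := ih (V ⧸ N) inferInstance (by omega)
      refine ⟨m + 1, fun i => match i with
        | 0 => ⊥
        | i + 1 => (S i).comap (QuotientGroup.mk' N), rfl, ?_, ?_, ?_, ?_⟩
      · show (S m).comap _ = ⊤
        rw [s1, Subgroup.comap_top]
      · intro i
        rcases i with _ | i
        · exact bot_le
        · exact Subgroup.comap_mono (s2 i)
      · intro i
        rcases i with _ | i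
        · infer_instance
        · exact (s3 i).comap _
      · intro i hi
        rcases i with _ | i
        · have e : Nat.card ↥((S 0).comap (QuotientGroup.mk' N)) / Nat.card ↥(⊥ : Subgroup V)
              = Nat.card N := by
            rw [card_comap, s0, Subgroup.card_bot, Subgroup.card_bot, mul_one, Nat.div_one]
          by_cases hpq : q = p
          · right
            refine ⟨p, rfl, fun r hr hd => ?_⟩
            have hd' : r ∣ Nat.card ↥((S 0).comap (QuotientGroup.mk' N)) / Nat.card ↥(⊥ : Subgroup V) := hd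
            rw [e] at hd'
            exact (hqN r hr hd').trans hpq
          · left
            intro r hr hd hrp
            have hd' : r ∣ Nat.card ↥((S 0).comap (QuotientGroup.mk' N)) / Nat.card ↥(⊥ : Subgroup V) := hd
            rw [e] at hd'
            exact hpq ((hqN r hr hd').symm.trans hrp)
        · have e : Nat.card ↥((S (i + 1)).comap (QuotientGroup.mk' N)) /
              Nat.card ↥((S i).comap (QuotientGroup.mk' N))
              = Nat.card (S (i + 1)) / Nat.card (S i) := by
            rw [card_comap, card_comap]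
            exact Nat.mul_div_mul_left _ _ Nat.card_pos
          have h5 := s4 i (by omega)
          show (∀ r : ℕ, r.Prime → r ∣ Nat.card ↥((S (i + 1)).comap (QuotientGroup.mk' N)) /
              Nat.card ↥((S i).comap (QuotientGroup.mk' N)) → r ∉ ({p} : Set ℕ)) ∨
            (∃ q ∈ ({p} : Set ℕ), ∀ r : ℕ, r.Prime →
              r ∣ Nat.card ↥((S (i + 1)).comap (QuotientGroup.mk' N)) /
              Nat.card ↥((S i).comap (QuotientGroup.mk' N)) → r = q)
          rw [e]
          exact h5

/-- the theorem on the `π`-length -/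
def PLstm : Prop :=
    ∀ (π : Set ℕ), π.Nonempty → (∀ p ∈ π, p.Prime) →
    ∀ (G : Type) [Group G] [Finite G],
      (∃ m : ℕ, ∃ S : ℕ → Subgroup G, S 0 = ⊥ ∧ S m = ⊤ ∧ (∀ i, S i ≤ S (i + 1)) ∧
        (∀ i, (S i).Normal) ∧
        ∀ i < m,
          (∀ p : ℕ, p.Prime → p ∣ Nat.card ↥(S (i + 1)) / Nat.card ↥(S i) → p ∉ π) ∨
          (∃ q ∈ π, ∀ p : ℕ, p.Prime →
            p ∣ Nat.card ↥(S (i + 1)) / Nat.card ↥(S i) → p = q)) →
      ∀ H : Subgroup G,
        (∀ p : ℕ, p.Prime → p ∣ Nat.card ↥H → p ∈ π) →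
        (∀ p : ℕ, p.Prime → p ∣ H.index → p ∉ π) →
        ∀ d : ℕ, derivedSeries (↥H) d = ⊥ →
          ∃ T : ℕ → Subgroup G, T 0 = ⊥ ∧ T (2 * d + 1) = ⊤ ∧
            (∀ i, T i ≤ T (i + 1)) ∧ (∀ i, (T i).Normal) ∧
            (∀ i ≤ d, ∀ p : ℕ, p.Prime →
              p ∣ Nat.card ↥(T (2 * i + 1)) / Nat.card ↥(T (2 * i)) → p ∉ π) ∧
            (∀ i < d, ∀ p : ℕ, p.Prime →
              p ∣ Nat.card ↥(T (2 * i + 2)) / Nat.card ↥(T (2 * i + 1)) → p ∈ π)

theorem card_factor {V : Type} [Group V] [Finite V] {N M : Subgroup V} [N.Normal] (h : N ≤ M) :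
    Nat.card (M ⧸ N.subgroupOf M) = Nat.card M / Nat.card N := by
  have h1 : Nat.card M = Nat.card (M ⧸ N.subgroupOf M) * Nat.card (N.subgroupOf M) :=
    Subgroup.card_eq_card_quotient_mul_card_subgroup _
  have h2 : Nat.card (N.subgroupOf M) = Nat.card N :=
    Nat.card_congr (Subgroup.subgroupOfEquivOfLe h).toEquiv
  rw [h1, h2, Nat.mul_div_cancel _ Nat.card_pos]

/-- the bound -/
def fD (k : ℕ) : ℕ → ℕ
  | 0 => 0
  | s + 1 => (k + 1) * fD k s + k * k

theorem main_ind (hPL : PLstm) (k : ℕ) : ∀ s : ℕ, ∀ (V : Type) [Group V] [Finite V],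
    Group.IsSolvable V → Cl k V → (Nat.card V).primeFactors.card ≤ s →
      derivedSeries V (fD k s) = ⊥ := by
  intro s
  induction s with
  | zero =>
    intro V _ _ _ _ hs
    have h1 : (Nat.card V).primeFactors = ∅ := Finset.card_eq_zero.mp (Nat.le_zero.mp hs)
    rw [Nat.primeFactors_eq_empty] at h1
    have h2 : Nat.card V = 1 := by
      rcases h1 with h1 | h1
      · exact absurd h1 Nat.card_pos.ne'
      · exact h1
    have h3 : Subsingleton V := (Nat.card_eq_one_iff_unique.mp h2).1
    exact Subsingleton.elim _ _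
  | succ s ih =>
    intro V _ _ hV hC hs
    by_cases hcard : Nat.card V = 1
    · have h3 : Subsingleton V := (Nat.card_eq_one_iff_unique.mp hcard).1
      exact Subsingleton.elim _ _
    obtain ⟨p, hp, hpd⟩ := Nat.exists_prime_and_dvd hcard
    have : Fact p.Prime := ⟨hp⟩
    let P : Sylow p V := default
    have hPd : derivedSeries P k = ⊥ := derived_p (hC.subgroup _) hp P.isPGroup'
    obtain ⟨T, t0, t1, t2, t3, t4, t5⟩ := hPL {p} ⟨p, rfl⟩ (by rintro q rfl; exact hp) V
      (exists_series p _ V hV le_rfl) P (by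
        intro q hq hd
        obtain ⟨n, hn⟩ := IsPGroup.iff_card.mp P.isPGroup'
        rw [hn] at hd
        exact (Nat.prime_dvd_prime_iff_eq hq hp).mp (hq.dvd_of_dvd_pow hd)) (by
        intro q hq hd hqp
        rw [Set.mem_singleton_iff] at hqp
        subst hqp
        exact P.not_dvd_index hd) k hPd
    -- the `p'`-factors
    have h1 : ∀ i ≤ k, derivedSeries (T (2 * i + 1) ⧸ (T (2 * i)).subgroupOf (T (2 * i + 1)))
        (fD k s) = ⊥ := by
      intro i hi
      have := t3 (2 * i)
      refine ih _ inferInstance ((hC.subgroup _).quotient _) ?_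
      rw [card_factor (t2 _)]
      have hsub : (Nat.card ↥(T (2 * i + 1)) / Nat.card ↥(T (2 * i))).primeFactors
          ⊆ (Nat.card V).primeFactors.erase p := by
        intro r hr
        have hr1 := Nat.prime_of_mem_primeFactors hr
        have hr2 := Nat.dvd_of_mem_primeFactors hr
        refine Finset.mem_erase.mpr ⟨fun h => ?_, Nat.mem_primeFactors.mpr ⟨hr1, ?_,
          Nat.card_pos.ne'⟩⟩
        · exact t4 i hi r hr1 hr2 h
        · exact (hr2.trans (Nat.div_dvd_of_dvd (Subgroup.card_dvd_of_le (t2 _)))).trans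
            (Subgroup.card_subgroup_dvd_card _)
      have hmem : p ∈ (Nat.card V).primeFactors :=
        Nat.mem_primeFactors.mpr ⟨hp, hpd, Nat.card_pos.ne'⟩
      have := Finset.card_le_card hsub
      rw [Finset.card_erase_of_mem hmem] at this
      omega
    -- the `p`-factors
    have h2 : ∀ i < k, derivedSeries (T (2 * i + 2) ⧸ (T (2 * i + 1)).subgroupOf (T (2 * i + 2)))
        k = ⊥ := by
      intro i hi
      have := t3 (2 * i + 1)
      refine derived_p ((hC.subgroup _).quotient _) hp ?_
      have hc := card_factor (t2 (2 * i + 1))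
      have h5 := t5 i hi
      rw [← hc] at h5
      refine IsPGroup.of_card (n := (Nat.card (T (2 * i + 2) ⧸
        (T (2 * i + 1)).subgroupOf (T (2 * i + 2)))).factorization p) ?_
      refine Nat.eq_pow_of_factorization_eq_single Nat.card_pos.ne' ?_
      ext r
      by_cases hr : r = p
      · subst hr; simp
      · rw [Finsupp.single_eq_of_ne hr]
        by_cases hrp : r.Prime
        · exact Nat.factorization_eq_zero_of_not_dvd fun hd => hr (h5 r hrp hd)
        · exact Nat.factorization_eq_zero_of_not_prime _ hrp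
    -- going down
    have h3 : ∀ j ≤ k, derivedSeries V (j * (fD k s + k)) ≤ T (2 * (k - j) + 1) := by
      intro j
      induction j with
      | zero => intro _; rw [Nat.sub_zero, t1]; exact le_top
      | succ j ihj =>
        intro hj
        have e0 := ihj (by omega)
        have := t3 (2 * (k - j))
        have e1 := derived_step e0 (h1 (k - j) (by omega))
        obtain ⟨i, hi⟩ : ∃ i, k - j = i + 1 := ⟨k - j - 1, by omega⟩
        rw [hi] at e1
        have e2 : 2 * (i + 1) = 2 * i + 2 := by ring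
        rw [e2] at e1
        have := t3 (2 * i + 1)
        have e3 := derived_step e1 (h2 i (by omega))
        have e4 : k - (j + 1) = i := by omega
        rw [e4]
        have e5 : (j + 1) * (fD k s + k) = j * (fD k s + k) + fD k s + k := by ring
        rw [e5]
        exact e3
    have h4 := h3 k le_rfl
    rw [Nat.sub_self, mul_zero, zero_add] at h4
    have := t3 (2 * 0)
    have h5 := derived_step (N := T (2 * 0)) (M := T (2 * 0 + 1)) h4 (h1 0 (Nat.zero_le k))
    rw [mul_zero, t0, le_bot_iff] at h5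
    have e6 : fD k (s + 1) = k * (fD k s + k) + fD k s := by
      show (k + 1) * fD k s + k * k = _
      ring
    rw [e6]
    exact h5

theorem t_DL_of (hPL : PLstm) : P_DL := by
  intro m k hm
  refine ⟨fD k m.primeFactors.card, fun Q _ _ hQ hx hC => ?_⟩
  refine main_ind hPL k _ Q hQ hC (Finset.card_le_card fun p hp => ?_)
  have hp1 := Nat.prime_of_mem_primeFactors hp
  have hp2 := Nat.dvd_of_mem_primeFactors hp
  have : Fact p.Prime := ⟨hp1⟩
  obtain ⟨x, hx'⟩ := exists_prime_orderOf_dvd_card' (G := Q) p hp2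
  have h := orderOf_dvd_of_pow_eq_one (hx x)
  rw [hx'] at h
  exact Nat.mem_primeFactors.mpr ⟨hp1, h, hm.ne'⟩

end Pool.Agent.TH494.GB_DL
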