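import Mathlib
import Pool.Agent.TH494.GB_DL0
import Pool.Agent.TH62.PL.Main

set_option autoImplicit false

namespace Pool.Agent.TH494.GB_DL

open Pool.Agent.TH97.GB

theorem t_DL : P_DL :=
  t_DL_of (Pool.Agent.TH62.PL.final_of Pool.Agent.TH62.PL.t_all_main)

end Pool.Agent.TH494.GB_DL
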