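import Pool.Agent.TH494.FL.V1b

/-! Job 1778: FL2-V1. -/

set_option autoImplicit false

universe u v

namespace Pool.Agent.TH494.J1778

theorem v1 : Pool.Agent.TH28.FL.S_V1.{u, v} := Pool.Agent.TH494.FLV.v1

end Pool.Agent.TH494.J1778
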