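import Pool.Agent.TH281.DW.Stmts
import Pool.Agent.W805.ER.Final

/-!
# Job 2101 (DW-3, requester helper281, MP_4ccfbf_an Q2)

From the abstract decay statement `TaskDec` to stability at rate `t^(-1/β)` of the damped wave
equation on the torus (`TaskStab`).  Adapted from `Pool.Agent.W805.DampedTorus.stable`.
-/

set_option autoImplicit false

open MeasureTheory Complex Filter Topology Set
open scoped ENNReal Real
open Pool.Agent.W805.ER (Mult Sol mulOp e2 fsq BM)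
open Pool.Agent.W805.DampedTorus
open Pool.Agent.TH281.DW (TaskDec TaskStab REB)

namespace Pool.Agent.TH494.J2101

noncomputable section

local instance msJ : MeasureSpace UnitAddCircle := ⟨AddCircle.haarAddCircle⟩
local instance pmJ : IsProbabilityMeasure (volume : Measure UnitAddCircle) :=
  inferInstanceAs (IsProbabilityMeasure AddCircle.haarAddCircle)

theorem main (hDec : TaskDec) : TaskStab := by
  intro b M hbm h0 hM C β hβ hREB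
  have hM0 : 0 ≤ M := (h0 0).trans (hM 0)
  have hb : BM b M := by
    refine ⟨hbm, fun x => ?_⟩
    rw [abs_of_nonneg (h0 x)]; exact hM x
  obtain ⟨K, hK, hdec⟩ := hDec (Fin 2 → ℤ) L2 e2 freq (mulOp (volume : Measure Torus) b) C β hβ
    (re_inner_nonneg hb h0) hREB
  refine ⟨K * (3 + 2 * M ^ 2) + 1, by positivity, ?_⟩
  intro u v huv t ht
  obtain ⟨a, a₁, w₁, hsol, hg, hg2, hd⟩ := sol_of_isSolution hb huv
  have hz : ∀ t, 0 ≤ t → ∀ k, freq k = 0 → e2.repr (a t) k = 0 := by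
    intro t ht k hk
    rw [hg t ht k, hk]; simp
  have h1 := hdec a v a₁ w₁ hsol hz t ht
  have hgt := gradSq_eq (hg t ht.le)
  unfold energy
  rw [hgt]
  -- initial data
  have s1 := hasSum_mult (hg2 0 le_rfl)
  have s2 := hasSum_mult (hg 0 le_rfl)
  have s3 := hasSum_hat (u 0)
  have s4 := hasSum_mult (hsol.ga 0 le_rfl)
  have s5 := hasSum_hat (v 0)
  have hH1 : h1Sq (v 0) = ‖v 0‖ ^ 2 + ‖a₁ 0‖ ^ 2 := by
    have := s5.add s4
    unfold h1Sq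
    rw [← this.tsum_eq]
    congr 1; ext k; ring
  have hH2 : h2Sq (u 0) = ‖u 0‖ ^ 2 + 2 * ‖a 0‖ ^ 2 +
      ‖-(w₁ 0) - mulOp volume b (v 0)‖ ^ 2 := by
    have := (s3.add (s2.mul_left 2)).add s1
    unfold h2Sq
    rw [← this.tsum_eq]
    congr 1; ext k; ring
  have hw1 : ‖w₁ 0‖ ^ 2 ≤ 2 * ‖-(w₁ 0) - mulOp volume b (v 0)‖ ^ 2 +
      2 * M ^ 2 * ‖v 0‖ ^ 2 := by
    have h2 := Pool.Agent.W805.ER.norm_mulOp_le (μ := volume) hb (v 0)
    have h3 : ‖w₁ 0‖ ≤ ‖-(w₁ 0) - mulOp volume b (v 0)‖ +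
        ‖mulOp volume b (v 0)‖ := by
      have := norm_add_le (-(w₁ 0) - mulOp volume b (v 0))
        (mulOp volume b (v 0))
      rwa [sub_add_cancel, norm_neg] at this
    have h4 : ‖w₁ 0‖ ≤ ‖-(w₁ 0) - mulOp volume b (v 0)‖ + M * ‖v 0‖ := by linarith
    have h5 : ‖w₁ 0‖ ^ 2 ≤ (‖-(w₁ 0) - mulOp volume b (v 0)‖ + M * ‖v 0‖) ^ 2 :=
      pow_le_pow_left₀ (norm_nonneg _) h4 2
    nlinarith [sq_nonneg (‖-(w₁ 0) - mulOp volume b (v 0)‖ - M * ‖v 0‖)]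
  have hsum : ‖a 0‖ ^ 2 + ‖v 0‖ ^ 2 + ‖a₁ 0‖ ^ 2 + ‖w₁ 0‖ ^ 2 ≤
      (3 + 2 * M ^ 2) * (h2Sq (u 0) + h1Sq (v 0)) := by
    rw [hH1, hH2]
    have e1 := sq_nonneg ‖u 0‖
    have e2 := sq_nonneg ‖a 0‖
    have e3 := sq_nonneg ‖a₁ 0‖
    have e4 := sq_nonneg ‖-(w₁ 0) - mulOp volume b (v 0)‖
    have e5 := sq_nonneg ‖v 0‖
    have e6 := sq_nonneg M
    nlinarith [mul_nonneg e6 e1, mul_nonneg e6 e2, mul_nonneg e6 e3, mul_nonneg e6 e4,
      mul_nonneg e6 e5]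
  have hp : (0 : ℝ) < t ^ (-(2 / β)) := Real.rpow_pos_of_pos ht _
  have hKt : 0 ≤ K * t ^ (-(2 / β)) := by positivity
  have h6 := mul_le_mul_of_nonneg_left hsum hKt
  have hS : 0 ≤ h2Sq (u 0) + h1Sq (v 0) := by
    rw [hH1, hH2]; positivity
  have hpow : (t ^ (-(1 / β))) ^ 2 = t ^ (-(2 / β)) := by
    rw [← Real.rpow_natCast (t ^ (-(1 / β))) 2, ← Real.rpow_mul ht.le]
    congr 1
    push_cast
    ring
  show (‖a t‖ ^ 2 + ‖v t‖ ^ 2) / 2 ≤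
    (K * (3 + 2 * M ^ 2) + 1) * (t ^ (-(1 / β))) ^ 2 * (h2Sq (u 0) + h1Sq (v 0))
  rw [hpow]
  have h7 : 0 ≤ t ^ (-(2 / β)) * (h2Sq (u 0) + h1Sq (v 0)) := mul_nonneg hp.le hS
  have h8 : 0 ≤ K * (3 + 2 * M ^ 2) * (t ^ (-(2 / β)) * (h2Sq (u 0) + h1Sq (v 0))) :=
    mul_nonneg (by positivity) h7
  have h9 : 0 ≤ ‖a t‖ ^ 2 + ‖v t‖ ^ 2 := by positivity
  nlinarith

end

end Pool.Agent.TH494.J2101
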