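import Pool.Agent.TH37.HG.Stmts2

/-! Job HG-X1B: the product trick for configurations of central type. -/

set_option autoImplicit false

namespace Pool.Agent.TH494.HG

open Pool.Agent.TH37.HG
open Pool.Agent.H53R2 (InVar)
open scoped commutatorElement

section gen

variable {G : Type} [Group G]

theorem nrm_closure {s : Set G} {g : G} (h : ∀ z ∈ s, g * z * g⁻¹ ∈ Subgroup.closure s)
    (h' : ∀ z ∈ s, g⁻¹ * z * g ∈ Subgroup.closure s) :
    g ∈ Subgroup.normalizer (Subgroup.closure s : Set G) := by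
  have key : ∀ (g : G), (∀ z ∈ s, g * z * g⁻¹ ∈ Subgroup.closure s) →
      ∀ x ∈ Subgroup.closure s, g * x * g⁻¹ ∈ Subgroup.closure s := by
    intro g hg x hx
    have h1 : Subgroup.closure s ≤ (Subgroup.closure s).comap (MulAut.conj g).toMonoidHom := by
      rw [Subgroup.closure_le]
      intro z hz
      exact hg z hz
    exact h1 hx
  rw [Subgroup.mem_normalizer_iff]
  intro x
  constructor
  · exact key g h x
  · intro hx
    have := key g⁻¹ (by simpa using h') _ hx
    simpa [mul_assoc] using this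

theorem nrm_cent {A : Subgroup G} {g : G} (h : g ∈ Subgroup.normalizer (A : Set G)) :
    g ∈ Subgroup.normalizer (Subgroup.centralizer (A : Set G) : Set G) := by
  rw [Subgroup.mem_normalizer_iff] at h ⊢
  intro x
  rw [Subgroup.mem_centralizer_iff, Subgroup.mem_centralizer_iff]
  constructor
  · intro hx a ha
    have h1 : g⁻¹ * a * g ∈ A := by
      rw [h]
      simpa [mul_assoc] using ha
    have h2 := hx _ h1
    calc a * (g * x * g⁻¹) = g * ((g⁻¹ * a * g) * x) * g⁻¹ := by group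
      _ = g * (x * (g⁻¹ * a * g)) * g⁻¹ := by rw [h2]
      _ = g * x * g⁻¹ * a := by group
  · intro hx a ha
    have h1 : g * a * g⁻¹ ∈ A := (h a).1 ha
    have h2 := hx _ h1
    calc a * x = g⁻¹ * ((g * a * g⁻¹) * (g * x * g⁻¹)) * g := by group
      _ = g⁻¹ * ((g * x * g⁻¹) * (g * a * g⁻¹)) * g := by rw [h2]
      _ = x * a := by group

theorem nrm_inf {A B : Subgroup G} {g : G} (h : g ∈ Subgroup.normalizer (A : Set G))
    (h' : g ∈ Subgroup.normalizer (B : Set G)) :
    g ∈ Subgroup.normalizer ((A ⊓ B : Subgroup G) : Set G) := by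
  rw [Subgroup.mem_normalizer_iff] at h h' ⊢
  intro x
  rw [Subgroup.mem_inf, Subgroup.mem_inf, h x, h' x]

/-- the subgroup of the triples `(x y, x, y)` -/
def SS (X Y : Subgroup G) (hXY : ∀ x ∈ X, ∀ y ∈ Y, x * y = y * x) : Subgroup (G × G × G) where
  carrier := {s | ∃ x ∈ X, ∃ y ∈ Y, s = (x * y, x, y)}
  mul_mem' := by
    rintro _ _ ⟨x, hx, y, hy, rfl⟩ ⟨x', hx', y', hy', rfl⟩
    refine ⟨x * x', mul_mem hx hx', y * y', mul_mem hy hy', ?_⟩
    simp only [Prod.mk_mul_mk]
    have := hXY x' hx' y hy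
    rw [mul_assoc x y (x' * y'), ← mul_assoc y x' y', ← this]
    simp only [mul_assoc]
  one_mem' := ⟨1, one_mem _, 1, one_mem _, by rw [mul_one]; rfl⟩
  inv_mem' := by
    rintro _ ⟨x, hx, y, hy, rfl⟩
    refine ⟨x⁻¹, inv_mem hx, y⁻¹, inv_mem hy, ?_⟩
    rw [hXY x hx y hy]
    simp only [Prod.inv_mk, mul_inv_rev]

theorem mem_SS {X Y : Subgroup G} {hXY : ∀ x ∈ X, ∀ y ∈ Y, x * y = y * x} {s : G × G × G} :
    s ∈ SS X Y hXY ↔ ∃ x ∈ X, ∃ y ∈ Y, s = (x * y, x, y) := Iff.rfl

theorem nrm_SS {X Y : Subgroup G} {hXY : ∀ x ∈ X, ∀ y ∈ Y, x * y = y * x} {g1 g2 g3 : G}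
    (hX : g1 ∈ Subgroup.normalizer (X : Set G)) (hY : g1 ∈ Subgroup.normalizer (Y : Set G))
    (h2 : ∀ x ∈ X, g1 * x * g1⁻¹ = g2 * x * g2⁻¹) (h3 : ∀ y ∈ Y, g1 * y * g1⁻¹ = g3 * y * g3⁻¹) :
    (g1, g2, g3) ∈ Subgroup.normalizer (SS X Y hXY : Set (G × G × G)) := by
  rw [Subgroup.mem_normalizer_iff] at hX hY ⊢
  rintro ⟨a1, a2, a3⟩
  rw [mem_SS, mem_SS]
  constructor
  · rintro ⟨x, hx, y, hy, h⟩
    simp only [Prod.mk.injEq] at h
    obtain ⟨e1, e2, e3⟩ := h
    rw [e1, e2, e3]
    refine ⟨g1 * x * g1⁻¹, (hX x).1 hx, g1 * y * g1⁻¹, (hY y).1 hy, ?_⟩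
    simp only [Prod.mk_mul_mk, Prod.inv_mk, Prod.mk.injEq]
    refine ⟨by group, ?_, ?_⟩
    · exact (h2 _ hx).symm
    · exact (h3 _ hy).symm
  · rintro ⟨x, hx, y, hy, h⟩
    simp only [Prod.mk_mul_mk, Prod.inv_mk, Prod.mk.injEq] at h
    obtain ⟨e1, e2, e3⟩ := h
    have hx' : g1⁻¹ * x * g1 ∈ X := by
      rw [hX]
      simpa [mul_assoc] using hx
    have hy' : g1⁻¹ * y * g1 ∈ Y := by
      rw [hY]
      simpa [mul_assoc] using hy
    refine ⟨_, hx', _, hy', ?_⟩
    simp only [Prod.mk.injEq]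
    refine ⟨?_, ?_, ?_⟩
    · have : a1 = g1⁻¹ * (x * y) * g1 := by rw [← e1]; group
      rw [this]; group
    · have h4 := h2 _ hx'
      have h5 : g2 * a2 * g2⁻¹ = g2 * (g1⁻¹ * x * g1) * g2⁻¹ := by
        rw [e2, ← h4]; group
      exact mul_left_cancel (mul_right_cancel h5)
    · have h4 := h3 _ hy'
      have h5 : g3 * a3 * g3⁻¹ = g3 * (g1⁻¹ * y * g1) * g3⁻¹ := by
        rw [e3, ← h4]; group
      exact mul_left_cancel (mul_right_cancel h5)

/-- commutators centralise elements with central commutators -/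
theorem comm_lemma {g h z : G} (h1 : Commute ⁅g, z⁆ g) (h2 : Commute ⁅g, z⁆ h)
    (h3 : Commute ⁅h, z⁆ g) (h4 : Commute ⁅h, z⁆ h)
    (h5 : Commute ⁅g, z⁆ ⁅h, z⁆) : Commute ⁅g, h⁆ z := by
  have e1 : g * z * g⁻¹ = ⁅g, z⁆ * z := by rw [commutatorElement_def]; group
  have e2 : h * z * h⁻¹ = ⁅h, z⁆ * z := by rw [commutatorElement_def]; group
  generalize ⁅g, z⁆ = c at *
  generalize ⁅h, z⁆ = d at *
  have c1 : MulAut.conj g z = c * z := e1
  have c2 : MulAut.conj h z = d * z := e2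
  have fix : ∀ {a k : G}, Commute a k → MulAut.conj k a = a := by
    intro a k hk
    rw [MulAut.conj_apply, ← hk.eq, mul_inv_cancel_right]
  have fix' : ∀ {a k : G}, Commute a k → (MulAut.conj k)⁻¹ a = a := by
    intro a k hk
    rw [MulAut.inv_apply, MulEquiv.symm_apply_eq, fix hk]
  have c3 : (MulAut.conj g)⁻¹ z = c⁻¹ * z := by
    rw [MulAut.inv_apply, MulEquiv.symm_apply_eq, map_mul, c1, map_inv, fix h1, inv_mul_cancel_left]
  have c4 : (MulAut.conj h)⁻¹ z = d⁻¹ * z := by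
    rw [MulAut.inv_apply, MulEquiv.symm_apply_eq, map_mul, c2, map_inv, fix h4, inv_mul_cancel_left]
  have s2 : (MulAut.conj g)⁻¹ (d⁻¹ * z) = d⁻¹ * (c⁻¹ * z) := by
    rw [map_mul, map_inv, fix' h3, c3]
  have s3 : MulAut.conj h (d⁻¹ * (c⁻¹ * z)) = d⁻¹ * (c⁻¹ * (d * z)) := by
    rw [map_mul, map_mul, map_inv, map_inv, fix h4, fix h2, c2]
  have s4 : MulAut.conj g (d⁻¹ * (c⁻¹ * (d * z))) = d⁻¹ * (c⁻¹ * (d * (c * z))) := by
    rw [map_mul, map_mul, map_mul, map_inv, map_inv, fix h3, fix h1, c1]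
  have e4 : MulAut.conj ⁅g, h⁆ z = z := by
    rw [map_commutatorElement, commutatorElement_def, MulAut.mul_apply, MulAut.mul_apply,
      MulAut.mul_apply, c4, s2, s3, s4]
    calc d⁻¹ * (c⁻¹ * (d * (c * z))) = d⁻¹ * (c⁻¹ * d) * c * z := by group
      _ = d⁻¹ * (d * c⁻¹) * c * z := by rw [h5.inv_left.eq]
      _ = z := by group
  rw [MulAut.conj_apply] at e4
  exact mul_inv_eq_iff_eq_mul.1 e4

end gen

section main

variable {G : Type} [Group G]

/-- the sets of generators -/
def gS (a e t : G) : Set G := {z | z = e ∨ ∃ i : ℤ, z = t ^ i * a * t ^ (-i)}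

/-- the part of `closure (gS a e t)` centralising `closure (gS c e t)` -/
def XX (a c e t : G) : Subgroup G :=
  Subgroup.closure (gS a e t) ⊓ Subgroup.centralizer (Subgroup.closure (gS c e t) : Set G)

theorem cj_cj (t a : G) (i j : ℤ) :
    t ^ i * (t ^ j * a * t ^ (-j)) * t ^ (-i) = t ^ (i + j) * a * t ^ (-(i + j)) := by
  rw [zpow_add, neg_add_rev, zpow_add]; group

theorem cj_comm (t x y : G) (i : ℤ) :
    t ^ i * ⁅x, y⁆ * t ^ (-i) = ⁅t ^ i * x * t ^ (-i), t ^ i * y * t ^ (-i)⁆ := by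
  simp only [commutatorElement_def, zpow_neg]; group

/-- hypotheses: `e` commutes with everything and the commutators of the conjugates are powers
of `e` -/
structure Ok (a c e t : G) : Prop where
  et : Commute e t
  ea : ∀ i : ℤ, Commute e (t ^ i * a * t ^ (-i))
  ec : ∀ i : ℤ, Commute e (t ^ i * c * t ^ (-i))
  ac : ∀ i j : ℤ, ∃ k : ℤ, ⁅t ^ i * a * t ^ (-i), t ^ j * c * t ^ (-j)⁆ = e ^ k

theorem Ok.symm {a c e t : G} (h : Ok a c e t) : Ok c a e t := by
  refine ⟨h.et, h.ec, h.ea, ?_⟩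
  intro i j
  obtain ⟨k, hk⟩ := h.ac j i
  refine ⟨-k, ?_⟩
  rw [← commutatorElement_inv, hk, zpow_neg]

theorem nrm_a {a c e t : G} (h : Ok a c e t) (i : ℤ) :
    t ^ i * a * t ^ (-i) ∈ Subgroup.normalizer (Subgroup.closure (gS c e t) : Set G) := by
  have he : e ∈ Subgroup.closure (gS c e t) := Subgroup.subset_closure (Or.inl rfl)
  apply nrm_closure
  · rintro z (rfl | ⟨j, rfl⟩)
    · rw [← (h.ea i).eq, mul_inv_cancel_right]
      exact he
    · obtain ⟨k, hk⟩ := h.ac i j
      have : t ^ i * a * t ^ (-i) * (t ^ j * c * t ^ (-j)) * (t ^ i * a * t ^ (-i))⁻¹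
          = e ^ k * (t ^ j * c * t ^ (-j)) := by
        rw [← hk, commutatorElement_def]; group
      rw [this]
      exact mul_mem (zpow_mem he k) (Subgroup.subset_closure (Or.inr ⟨j, rfl⟩))
  · rintro z (rfl | ⟨j, rfl⟩)
    · rw [mul_assoc, (h.ea i).eq, inv_mul_cancel_left]
      exact he
    · obtain ⟨k, hk⟩ := h.ac i j
      have hc : Commute (e ^ k) (t ^ i * a * t ^ (-i)) := (h.ea i).zpow_left k
      have : (t ^ i * a * t ^ (-i))⁻¹ * (t ^ j * c * t ^ (-j)) * (t ^ i * a * t ^ (-i))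
          = e ^ (-k) * (t ^ j * c * t ^ (-j)) := by
        generalize t ^ i * a * t ^ (-i) = x at *
        generalize t ^ j * c * t ^ (-j) = y at *
        have e1 : x * y = e ^ k * y * x := by
          rw [← hk, commutatorElement_def]; group
        calc x⁻¹ * y * x = x⁻¹ * e ^ (-k) * (e ^ k * y * x) := by
              rw [zpow_neg]; group
          _ = x⁻¹ * e ^ (-k) * (x * y) := by rw [e1]
          _ = x⁻¹ * (e ^ (-k) * x) * y := by group
          _ = x⁻¹ * (x * e ^ (-k)) * y := by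
              rw [zpow_neg, hc.inv_left.eq]
          _ = e ^ (-k) * y := by rw [inv_mul_cancel_left]
      rw [this]
      exact mul_mem (zpow_mem he _) (Subgroup.subset_closure (Or.inr ⟨j, rfl⟩))

theorem nrm_t {c e t : G} (h : Commute e t) :
    t ∈ Subgroup.normalizer (Subgroup.closure (gS c e t) : Set G) := by
  have he : e ∈ Subgroup.closure (gS c e t) := Subgroup.subset_closure (Or.inl rfl)
  apply nrm_closure
  · rintro z (rfl | ⟨j, rfl⟩)
    · rw [← h.eq, mul_inv_cancel_right]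
      exact he
    · have := cj_cj t c 1 j
      rw [zpow_one, zpow_neg_one] at this
      rw [this]
      exact Subgroup.subset_closure (Or.inr ⟨_, rfl⟩)
  · rintro z (rfl | ⟨j, rfl⟩)
    · rw [mul_assoc, h.eq, inv_mul_cancel_left]
      exact he
    · have := cj_cj t c (-1) j
      rw [zpow_neg_one, neg_neg, zpow_one] at this
      rw [this]
      exact Subgroup.subset_closure (Or.inr ⟨_, rfl⟩)

theorem self_mem (c e t : G) : c ∈ Subgroup.closure (gS c e t) :=
  Subgroup.subset_closure (Or.inr ⟨0, by simp⟩)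

theorem nrm_self (c e t : G) :
    c ∈ Subgroup.normalizer (Subgroup.closure (gS c e t) : Set G) :=
  Subgroup.le_normalizer (self_mem c e t)

theorem XX_nrm {a c e t : G} (h : Ok a c e t) (g : G) (hg : g = a ∨ g = c ∨ g = t) :
    g ∈ Subgroup.normalizer (XX a c e t : Set G) := by
  have ha := nrm_a h 0
  have hc := nrm_a h.symm 0
  have e1 : t ^ (0 : ℤ) * a * t ^ (-0 : ℤ) = a := by simp
  have e2 : t ^ (0 : ℤ) * c * t ^ (-0 : ℤ) = c := by simp
  rw [e1] at ha
  rw [e2] at hc
  rcases hg with rfl | rfl | rfl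
  · exact nrm_inf (nrm_self _ _ _) (nrm_cent ha)
  · exact nrm_inf hc (nrm_cent (nrm_self _ _ _))
  · exact nrm_inf (nrm_t h.et) (nrm_cent (nrm_t h.et))

/-- membership in `XX` -/
theorem mem_XX {a c e t : G} {x : G} (h1 : x ∈ Subgroup.closure (gS a e t)) (h2 : Commute x e)
    (h3 : ∀ j : ℤ, Commute x (t ^ j * c * t ^ (-j))) : x ∈ XX a c e t := by
  refine Subgroup.mem_inf.2 ⟨h1, ?_⟩
  have h4 : Subgroup.closure (gS c e t) ≤ Subgroup.centralizer ({x} : Set G) := by
    rw [Subgroup.closure_le]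
    rintro z (rfl | ⟨j, rfl⟩)
    · rw [SetLike.mem_coe, Subgroup.mem_centralizer_singleton_iff]
      exact h2.eq.symm
    · rw [SetLike.mem_coe, Subgroup.mem_centralizer_singleton_iff]
      exact (h3 j).eq.symm
  rw [Subgroup.mem_centralizer_iff]
  intro z hz
  have := h4 hz
  rw [Subgroup.mem_centralizer_singleton_iff] at this
  exact this

theorem comm_mem_XX {a c e t : G} (h : Ok a c e t) (i : ℤ) :
    ⁅a, t ^ i * a * t ^ (-i)⁆ ∈ XX a c e t := by
  have e1 : t ^ (0 : ℤ) * a * t ^ (-0 : ℤ) = a := by simp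
  have ha : a ∈ Subgroup.closure (gS a e t) := self_mem a e t
  have hi : t ^ i * a * t ^ (-i) ∈ Subgroup.closure (gS a e t) :=
    Subgroup.subset_closure (Or.inr ⟨i, rfl⟩)
  have hea := h.ea 0
  rw [e1] at hea
  apply mem_XX
  · rw [commutatorElement_def]
    exact mul_mem (mul_mem (mul_mem ha hi) (inv_mem ha)) (inv_mem hi)
  · rw [commutatorElement_def]
    exact (((hea.mul_right (h.ea i)).mul_right hea.inv_right).mul_right (h.ea i).inv_right).symm
  · intro j
    obtain ⟨k, hk⟩ := h.ac 0 j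
    obtain ⟨l, hl⟩ := h.ac i j
    rw [e1] at hk
    apply comm_lemma
    · rw [hk]; exact hea.zpow_left k
    · rw [hk]; exact (h.ea i).zpow_left k
    · rw [hl]; exact hea.zpow_left l
    · rw [hl]; exact (h.ea i).zpow_left l
    · rw [hk, hl]; exact (Commute.refl e).zpow_zpow k l

theorem pow_mem_XX {a c e t : G} (h : Ok a c e t) (p : ℕ) (hp : e ^ p = 1) :
    a ^ p ∈ XX a c e t := by
  have e1 : t ^ (0 : ℤ) * a * t ^ (-0 : ℤ) = a := by simp
  have ha : a ∈ Subgroup.closure (gS a e t) := self_mem a e t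
  have hea := h.ea 0
  rw [e1] at hea
  apply mem_XX
  · exact pow_mem ha p
  · exact (hea.pow_right p).symm
  · intro j
    obtain ⟨k, hk⟩ := h.ac 0 j
    rw [e1] at hk
    have hc : Commute (e ^ k) a := hea.zpow_left k
    have hz : (e ^ k) ^ p = 1 := by
      rw [← zpow_natCast, ← zpow_mul, mul_comm, zpow_mul, zpow_natCast, hp, one_zpow]
    generalize t ^ j * c * t ^ (-j) = y at *
    generalize e ^ k = d at *
    have e2 : a * y = d * y * a := by
      rw [← hk, commutatorElement_def]; group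
    have e3 : ∀ n : ℕ, a ^ n * y = d ^ n * y * a ^ n := by
      intro n
      induction n with
      | zero => simp
      | succ n ih =>
        calc a ^ (n + 1) * y = a ^ n * (a * y) := by rw [pow_succ, mul_assoc]
          _ = a ^ n * (d * y * a) := by rw [e2]
          _ = (a ^ n * d) * y * a := by simp only [mul_assoc]
          _ = (d * a ^ n) * y * a := by rw [(hc.pow_right n).eq]
          _ = d * (a ^ n * y) * a := by simp only [mul_assoc]
          _ = d * (d ^ n * y * a ^ n) * a := by rw [ih]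
          _ = d ^ (n + 1) * y * a ^ (n + 1) := by
            rw [pow_succ', pow_succ a n]; simp only [mul_assoc]
    have e4 := e3 p
    rw [hz, one_mul] at e4
    exact e4

theorem XX_comm {a c e t : G} : ∀ x ∈ XX a c e t, ∀ y ∈ XX c a e t, x * y = y * x := by
  intro x hx y hy
  have h1 := (Subgroup.mem_inf.1 hx).2
  have h2 := (Subgroup.mem_inf.1 hy).1
  rw [Subgroup.mem_centralizer_iff] at h1
  exact (h1 y h2).symm

theorem XX_fix {a c e t : G} {x : G} (hx : x ∈ XX a c e t) : Commute x c := by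
  have h1 := (Subgroup.mem_inf.1 hx).2
  rw [Subgroup.mem_centralizer_iff] at h1
  exact (h1 c (self_mem c e t)).symm

/-- the configuration gives the facts -/
theorem ok_of {b m t : G} (hC : Cfg b m t) (hN : Cen b m t) (ht : ⁅⁅b, m⁆, t⁆ = 1) :
    Ok b m ⁅b, m⁆ t := by
  have et : Commute ⁅b, m⁆ t := commutatorElement_eq_one_iff_commute.1 ht
  refine ⟨et, fun i => commutatorElement_eq_one_iff_commute.1 (hN i).1,
    fun i => commutatorElement_eq_one_iff_commute.1 (hN i).2, ?_⟩
  intro i j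
  have e1 : ⁅t ^ i * b * t ^ (-i), t ^ j * m * t ^ (-j)⁆
      = t ^ i * ⁅b, t ^ (j - i) * m * t ^ (-(j - i))⁆ * t ^ (-i) := by
    rw [cj_comm, cj_cj]
    congr 3 <;> ring_nf
  by_cases hij : j - i = 0
  · refine ⟨1, ?_⟩
    rw [e1, hij, zpow_one]
    have e2 : t ^ (0 : ℤ) * m * t ^ (-0 : ℤ) = m := by simp
    rw [e2]
    have h3 := (et.zpow_right i).eq
    rw [← h3, mul_assoc, ← zpow_add, add_neg_cancel, zpow_zero, mul_one]
  · refine ⟨0, ?_⟩
    rw [e1, hC _ hij, mul_one, zpow_zero, ← zpow_add, add_neg_cancel, zpow_zero]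

end main

theorem fst_z {A B : Type} [Group A] [Group B] (x : A × B) (n : ℤ) : (x ^ n).1 = x.1 ^ n := rfl
theorem snd_z {A B : Type} [Group A] [Group B] (x : A × B) (n : ℤ) : (x ^ n).2 = x.2 ^ n := rfl

theorem x1b : X1bStmt := by
  intro W G _ hW p b m t hC hN ht hp hne
  have hok := ok_of hC hN ht
  have hInv : InVar W (G × G × G) := by
    intro w hw g
    have h1 := hW w hw (fun n => (g n).1)
    have h2 := hW w hw (fun n => (g n).2.1)
    have h3 := hW w hw (fun n => (g n).2.2)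
    have f1 : (MonoidHom.fst G (G × G)).comp (FreeGroup.lift g) =
        FreeGroup.lift (fun n => (g n).1) := by
      apply FreeGroup.ext_hom
      intro a
      simp
    have f2 : ((MonoidHom.fst G G).comp (MonoidHom.snd G (G × G))).comp (FreeGroup.lift g) =
        FreeGroup.lift (fun n => (g n).2.1) := by
      apply FreeGroup.ext_hom
      intro a
      simp
    have f3 : ((MonoidHom.snd G G).comp (MonoidHom.snd G (G × G))).comp (FreeGroup.lift g) =
        FreeGroup.lift (fun n => (g n).2.2) := by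
      apply FreeGroup.ext_hom
      intro a
      simp
    rw [← f1] at h1
    rw [← f2] at h2
    rw [← f3] at h3
    exact Prod.ext h1 (Prod.ext h2 h3)
  let S : Subgroup (G × G × G) := SS (XX b m ⁅b, m⁆ t) (XX m b ⁅b, m⁆ t) XX_comm
  let G' : Subgroup (G × G × G) := Subgroup.closure {(b, b, 1), (m, 1, m), (t, t, t)}
  have hle : G' ≤ Subgroup.normalizer (S : Set (G × G × G)) := by
    rw [Subgroup.closure_le]
    rintro _ (rfl | rfl | rfl)
    · apply nrm_SS (XX_nrm hok _ (Or.inl rfl)) (XX_nrm hok.symm _ (Or.inr (Or.inl rfl)))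
      · intro x _; rfl
      · intro y hy
        rw [← (XX_fix hy).eq]; simp
    · apply nrm_SS (XX_nrm hok _ (Or.inr (Or.inl rfl))) (XX_nrm hok.symm _ (Or.inl rfl))
      · intro x hx
        rw [← (XX_fix hx).eq]; simp
      · intro y _; rfl
    · apply nrm_SS (XX_nrm hok _ (Or.inr (Or.inr rfl))) (XX_nrm hok.symm _ (Or.inr (Or.inr rfl)))
      · intro x _; rfl
      · intro y _; rfl
  have hN' : (S.subgroupOf G').Normal := Subgroup.normal_subgroupOf_of_le_normalizer hle
  let β : G' := ⟨(b, b, 1), Subgroup.subset_closure (Or.inl rfl)⟩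
  let μ : G' := ⟨(m, 1, m), Subgroup.subset_closure (Or.inr (Or.inl rfl))⟩
  let τ : G' := ⟨(t, t, t), Subgroup.subset_closure (Or.inr (Or.inr rfl))⟩
  let π : G' →* (G' ⧸ S.subgroupOf G') := QuotientGroup.mk' _
  have hπ : ∀ r : G', π r = 1 ↔ (r : G × G × G) ∈ S := by
    intro r
    exact (QuotientGroup.eq_one_iff r).trans Subgroup.mem_subgroupOf
  have one : ∀ r : G', (r : G × G × G) = 1 → π r = 1 := by
    intro r hr
    rw [hπ, hr]
    exact one_mem _
  refine ⟨G' ⧸ S.subgroupOf G', inferInstance, π β, π μ, π τ, ?_, ⟨?_, ?_, ?_, ?_, ?_, ?_, ?_, ?_⟩,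
    ?_⟩
  · exact (hInv.subgroup G').quot _
  · rw [← map_pow, hπ]
    refine ⟨b ^ p, pow_mem_XX hok p hp, 1, one_mem _, ?_⟩
    change ((b, b, 1) : G × G × G) ^ p = _
    rw [Prod.pow_mk, Prod.pow_mk, one_pow, mul_one]
  · rw [← map_pow, hπ]
    refine ⟨1, one_mem _, m ^ p, pow_mem_XX hok.symm p hp, ?_⟩
    change ((m, 1, m) : G × G × G) ^ p = _
    rw [Prod.pow_mk, Prod.pow_mk, one_pow, one_mul]
  · intro i
    rw [← map_zpow, ← map_zpow, ← map_mul, ← map_mul, ← map_commutatorElement, hπ]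
    refine ⟨⁅b, t ^ i * b * t ^ (-i)⁆, comm_mem_XX hok i, 1, one_mem _, ?_⟩
    refine Prod.ext ?_ (Prod.ext ?_ ?_)
    · rw [mul_one]; rfl
    · rfl
    · change ⁅(1 : G), t ^ i * 1 * t ^ (-i)⁆ = 1
      exact commutatorElement_one_left _
  · intro i
    rw [← map_zpow, ← map_zpow, ← map_mul, ← map_mul, ← map_commutatorElement, hπ]
    refine ⟨1, one_mem _, ⁅m, t ^ i * m * t ^ (-i)⁆, comm_mem_XX hok.symm i, ?_⟩
    refine Prod.ext ?_ (Prod.ext ?_ ?_)
    · rw [one_mul]; rfl
    · change ⁅(1 : G), t ^ i * 1 * t ^ (-i)⁆ = 1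
      exact commutatorElement_one_left _
    · rfl
  · intro i hi
    rw [← map_zpow, ← map_zpow, ← map_mul, ← map_mul, ← map_commutatorElement]
    apply one
    refine Prod.ext ?_ (Prod.ext ?_ ?_)
    · exact hC i hi
    · change ⁅b, t ^ i * 1 * t ^ (-i)⁆ = 1
      rw [mul_one, ← zpow_add, add_neg_cancel, zpow_zero, commutatorElement_one_right]
    · exact commutatorElement_one_left _
  · rw [← map_commutatorElement, ← map_commutatorElement]
    apply one
    refine Prod.ext ?_ (Prod.ext ?_ ?_)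
    · have h0 := (hN 0).1
      have h1 : ⁅⁅b, m⁆, b⁆ = 1 := by simpa using h0
      exact h1
    · change ⁅⁅b, (1 : G)⁆, b⁆ = 1
      rw [commutatorElement_one_right, commutatorElement_one_left]
    · exact commutatorElement_one_right _
  · rw [← map_commutatorElement, ← map_commutatorElement]
    apply one
    refine Prod.ext ?_ (Prod.ext ?_ ?_)
    · have h0 := (hN 0).2
      have h1 : ⁅⁅b, m⁆, m⁆ = 1 := by simpa using h0
      exact h1
    · exact commutatorElement_one_right _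
    · change ⁅⁅(1 : G), m⁆, m⁆ = 1
      rw [commutatorElement_one_left, commutatorElement_one_left]
  · rw [← map_commutatorElement, ← map_commutatorElement]
    apply one
    refine Prod.ext ?_ (Prod.ext ?_ ?_)
    · exact ht
    · change ⁅⁅b, (1 : G)⁆, t⁆ = 1
      rw [commutatorElement_one_right, commutatorElement_one_left]
    · change ⁅⁅(1 : G), m⁆, t⁆ = 1
      rw [commutatorElement_one_left, commutatorElement_one_left]
  · rw [← map_commutatorElement, Ne, hπ]
    rintro ⟨x, _, y, _, h⟩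
    have h1 : ⁅b, m⁆ = x * y := congrArg Prod.fst h
    have h2 : ⁅b, (1 : G)⁆ = x := congrArg (fun z => z.2.1) h
    have h3 : ⁅(1 : G), m⁆ = y := congrArg (fun z => z.2.2) h
    rw [commutatorElement_one_right] at h2
    rw [commutatorElement_one_left] at h3
    rw [← h2, ← h3, mul_one] at h1
    exact hne h1

end Pool.Agent.TH494.HG
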