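import Mathlib
import Pool.Agent.TH948.HT.Defs

/-!
# Job 3929 (HT-2): dyadic levels
-/

set_option autoImplicit false
set_option linter.unusedSectionVars false

namespace Pool.Agent.TH494.HT2

open Finset
open scoped Classical
open Pool.Agent.TH965.Spread Pool.Agent.TH948.KK Pool.Agent.TH948.BD Pool.Agent.TH948.HT

/-- sums of powers along an injective map -/
lemma sum_pow_le {S : Finset ℤ} (φ : ℤ → ℕ) (hφ : Set.InjOn φ S) (r : ℝ) (h0 : 0 ≤ r) (h1 : r < 1) :
    ∑ i ∈ S, r ^ φ i ≤ (1 - r)⁻¹ := by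
  rw [← Finset.sum_image (f := fun n => r ^ n) hφ, ← tsum_geometric_of_lt_one h0 h1]
  exact (summable_geometric_of_lt_one h0 h1).sum_le_tsum _ (fun n _ => pow_nonneg h0 n)

lemma sum_five (S : Finset ℤ) (j : ℤ) : ∑ i ∈ S, (2 / 3 : ℝ) ^ (i - j).natAbs ≤ 5 := by
  rw [← Finset.sum_filter_add_sum_filter_not S (fun i => j ≤ i)]
  have h1 : ∑ i ∈ S.filter (fun i => j ≤ i), (2 / 3 : ℝ) ^ (i - j).natAbs ≤ 3 := by
    have := sum_pow_le (S := S.filter (fun i => j ≤ i)) (fun i => (i - j).natAbs) (by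
      intro a ha b hb hab
      have h1 := (Finset.mem_filter.1 (Finset.mem_coe.1 ha)).2
      have h2 := (Finset.mem_filter.1 (Finset.mem_coe.1 hb)).2
      have h3 : (a - j).natAbs = (b - j).natAbs := hab
      omega) (2 / 3 : ℝ) (by norm_num) (by norm_num)
    refine this.trans (le_of_eq (by norm_num))
  have h2 : ∑ i ∈ S.filter (fun i => ¬ j ≤ i), (2 / 3 : ℝ) ^ (i - j).natAbs ≤ 2 := by
    have h3 := sum_pow_le (S := S.filter (fun i => ¬ j ≤ i)) (fun i => (i - j).natAbs - 1) (by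
      intro a ha b hb hab
      have h1 := (Finset.mem_filter.1 (Finset.mem_coe.1 ha)).2
      have h2 := (Finset.mem_filter.1 (Finset.mem_coe.1 hb)).2
      have h3 : (a - j).natAbs - 1 = (b - j).natAbs - 1 := hab
      omega) (2 / 3 : ℝ) (by norm_num) (by norm_num)
    have h4 : ∑ i ∈ S.filter (fun i => ¬ j ≤ i), (2 / 3 : ℝ) ^ (i - j).natAbs =
        2 / 3 * ∑ i ∈ S.filter (fun i => ¬ j ≤ i), (2 / 3 : ℝ) ^ ((i - j).natAbs - 1) := by
      rw [Finset.mul_sum]
      refine Finset.sum_congr rfl fun i hi => ?_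
      have h5 := (Finset.mem_filter.1 hi).2
      rw [← pow_succ']
      congr 1
      omega
    rw [h4]
    have h6 : ((1 : ℝ) - 2 / 3)⁻¹ = 3 := by norm_num
    rw [h6] at h3
    linarith
  linarith

lemma geo_le (G : Finset ℤ) (c₀ v : ℝ) (h0 : 0 < c₀) (hv : 0 ≤ v) :
    ∑ j ∈ G.filter (fun j => c₀ * (2 : ℝ) ^ j ≤ v), c₀ * (2 : ℝ) ^ j ≤ 2 * v := by
  rcases (G.filter (fun j => c₀ * (2 : ℝ) ^ j ≤ v)).eq_empty_or_nonempty with h | h
  · rw [h, Finset.sum_empty]
    positivity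
  · obtain ⟨k, hk, hmax⟩ := Finset.exists_max_image _ (fun j : ℤ => j) h
    have hk2 := (Finset.mem_filter.1 hk).2
    have h3 := sum_pow_le (S := G.filter (fun j => c₀ * (2 : ℝ) ^ j ≤ v)) (fun i => (k - i).natAbs)
      (by
        intro a ha b hb hab
        have h1 := hmax a (Finset.mem_coe.1 ha)
        have h2 := hmax b (Finset.mem_coe.1 hb)
        have h3 : (k - a).natAbs = (k - b).natAbs := hab
        omega) (1 / 2 : ℝ) (by norm_num) (by norm_num)
    have h6 : ((1 : ℝ) - 1 / 2)⁻¹ = 2 := by norm_num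
    rw [h6] at h3
    calc ∑ j ∈ G.filter (fun j => c₀ * (2 : ℝ) ^ j ≤ v), c₀ * (2 : ℝ) ^ j
        = c₀ * (2 : ℝ) ^ k * ∑ j ∈ G.filter (fun j => c₀ * (2 : ℝ) ^ j ≤ v),
            (1 / 2 : ℝ) ^ (k - j).natAbs := by
          rw [Finset.mul_sum]
          refine Finset.sum_congr rfl fun j hj => ?_
          have h1 := hmax j hj
          have h2 : ((k - j).natAbs : ℤ) = k - j := by omega
          have h4 : (1 / 2 : ℝ) ^ (k - j).natAbs = (2 : ℝ) ^ (j - k) := by
            rw [one_div, inv_pow, ← zpow_natCast, h2, ← zpow_neg]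
            congr 1
            ring
          rw [h4, mul_assoc, ← zpow_add₀ (by norm_num : (2 : ℝ) ≠ 0)]
          congr 2
          ring
      _ ≤ c₀ * (2 : ℝ) ^ k * 2 := mul_le_mul_of_nonneg_left h3 (by positivity)
      _ ≤ v * 2 := mul_le_mul_of_nonneg_right hk2 (by norm_num)
      _ = 2 * v := by ring

theorem levels {X Y : Type} (F : Finset X) (y : X → ℝ) (E : Finset Y) (v : Y → ℝ)
    (hv : ∀ e, 0 ≤ v e) (c₀ c₂ : ℝ) (h0 : 0 < c₀) (h2 : 0 < c₂)
    (h : ∀ j : ℤ, GoodLev F y j →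
      c₂ * lev F y j ≤ ((E.filter (fun e => c₀ * (2 : ℝ) ^ j ≤ v e)).card : ℝ)) :
    c₀ * c₂ / 20 * ∑ f ∈ F, |y f| ≤ ∑ e ∈ E, v e := by
  set F' := F.filter (fun f => y f ≠ 0) with hF'
  set J : Finset ℤ := F'.image (fun f => Int.log 2 |y f|) with hJ
  set m : ℤ → ℝ := fun j => (2 : ℝ) ^ j * lev F y j with hm
  have hm0 : ∀ j, 0 ≤ m j := fun j => by
    have : (0 : ℝ) < (2 : ℝ) ^ j := by positivity
    exact mul_nonneg this.le (Nat.cast_nonneg _)
  -- the level of `f`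
  have hlev : ∀ f, y f ≠ 0 → ∀ j : ℤ,
      ((2 : ℝ) ^ j ≤ |y f| ∧ |y f| < (2 : ℝ) ^ (j + 1)) ↔ Int.log 2 |y f| = j := by
    intro f hf j
    have hpos : 0 < |y f| := abs_pos.2 hf
    have h1 := Int.zpow_log_le_self (R := ℝ) (b := 2) (by norm_num) hpos
    have h3 := Int.lt_zpow_succ_log_self (R := ℝ) (b := 2) (by norm_num) |y f|
    constructor
    · rintro ⟨h4, h5⟩
      have h6 : (2 : ℝ) ^ j < (2 : ℝ) ^ (Int.log 2 |y f| + 1) := lt_of_le_of_lt h4 (by exact_mod_cast h3)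
      have h7 : (2 : ℝ) ^ (Int.log 2 |y f|) < (2 : ℝ) ^ (j + 1) :=
        lt_of_le_of_lt (by exact_mod_cast h1) h5
      have h8 := (zpow_lt_zpow_iff_right₀ (by norm_num : (1 : ℝ) < 2)).1 h6
      have h9 := (zpow_lt_zpow_iff_right₀ (by norm_num : (1 : ℝ) < 2)).1 h7
      omega
    · rintro rfl
      exact ⟨by exact_mod_cast h1, by exact_mod_cast h3⟩
  have hfib : ∀ j, (F'.filter (fun f => Int.log 2 |y f| = j)).card = lev F y j := by
    intro j
    unfold lev
    congr 1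
    ext f
    simp only [hF', Finset.mem_filter]
    constructor
    · rintro ⟨⟨h1, h3⟩, h4⟩
      exact ⟨h1, (hlev f h3 j).2 h4⟩
    · rintro ⟨h1, h3⟩
      have hne : y f ≠ 0 := by
        intro h4
        rw [h4, abs_zero] at h3
        have : (0 : ℝ) < (2 : ℝ) ^ j := by positivity
        linarith [h3.1]
      exact ⟨⟨h1, hne⟩, (hlev f hne j).1 h3⟩
  have hJ1 : ∀ j ∈ J, 1 ≤ lev F y j := by
    intro j hj
    rw [hJ, Finset.mem_image] at hj
    obtain ⟨f, hf, hfj⟩ := hj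
    rw [← hfib j]
    exact Finset.card_pos.2 ⟨f, Finset.mem_filter.2 ⟨hf, hfj⟩⟩
  have hJ0 : ∀ j, j ∉ J → m j = 0 := by
    intro j hj
    have h1 : lev F y j = 0 := by
      rw [← hfib j, Finset.card_eq_zero, Finset.filter_eq_empty_iff]
      intro f hf hfj
      exact hj (Finset.mem_image.2 ⟨f, hf, hfj⟩)
    rw [hm]
    simp [h1]
  -- step 1
  have s1 : ∑ f ∈ F, |y f| ≤ 2 * ∑ j ∈ J, m j := by
    have e1 : ∑ f ∈ F, |y f| = ∑ f ∈ F', |y f| := by
      rw [hF', Finset.sum_filter]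
      refine Finset.sum_congr rfl fun f _ => ?_
      by_cases hf : y f = 0
      · simp [hf]
      · simp [hf]
    have hmaps : ∀ f ∈ F', Int.log 2 |y f| ∈ J := fun f hf =>
      Finset.mem_image_of_mem (fun f => Int.log 2 |y f|) hf
    rw [e1, ← Finset.sum_fiberwise_of_maps_to hmaps, Finset.mul_sum]
    refine Finset.sum_le_sum fun j _ => ?_
    calc ∑ f ∈ F'.filter (fun f => Int.log 2 |y f| = j), |y f|
        ≤ ∑ f ∈ F'.filter (fun f => Int.log 2 |y f| = j), (2 : ℝ) ^ (j + 1) := by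
          refine Finset.sum_le_sum fun f hf => ?_
          rw [Finset.mem_filter, hF', Finset.mem_filter] at hf
          exact ((hlev f hf.1.2 j).2 hf.2).2.le
      _ = 2 * m j := by
          rw [Finset.sum_const, nsmul_eq_mul, hfib, hm, zpow_add₀ (by norm_num : (2 : ℝ) ≠ 0),
            zpow_one]
          ring
  -- step 2
  set G := J.filter (fun j => GoodLev F y j) with hG
  have s2 : ∑ i ∈ J, m i ≤ 5 * ∑ j ∈ G, m j := by
    have hch : ∀ i ∈ J, ∃ j ∈ G, m i ≤ m j * (2 / 3 : ℝ) ^ (i - j).natAbs := by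
      intro i hi
      obtain ⟨j, hj, hmax⟩ := Finset.exists_max_image J
        (fun j => m j * (2 / 3 : ℝ) ^ (i - j).natAbs) ⟨i, hi⟩
      refine ⟨j, Finset.mem_filter.2 ⟨hj, hJ1 j hj, fun l => ?_⟩, ?_⟩
      · by_cases hl : l ∈ J
        · have h3 := hmax l hl
          have h4 : (3 / 2 : ℝ) ^ (i - l).natAbs * (2 / 3 : ℝ) ^ (i - l).natAbs = 1 := by
            rw [← mul_pow]
            norm_num
          have h5 : (3 / 2 : ℝ) ^ (i - j).natAbs * (2 / 3 : ℝ) ^ (i - j).natAbs = 1 := by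
            rw [← mul_pow]
            norm_num
          have h6 : (3 / 2 : ℝ) ^ (i - l).natAbs ≤ (3 / 2 : ℝ) ^ ((l - j).natAbs + (i - j).natAbs) :=
            pow_le_pow_right₀ (by norm_num) (by omega)
          rw [pow_add] at h6
          have h7 : 0 ≤ m j * (2 / 3 : ℝ) ^ (i - j).natAbs := mul_nonneg (hm0 j) (by positivity)
          calc (2 : ℝ) ^ l * lev F y l = m l * ((3 / 2 : ℝ) ^ (i - l).natAbs * (2 / 3 : ℝ) ^ (i - l).natAbs) := by
                rw [h4, mul_one]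
            _ = (m l * (2 / 3 : ℝ) ^ (i - l).natAbs) * (3 / 2 : ℝ) ^ (i - l).natAbs := by ring
            _ ≤ (m j * (2 / 3 : ℝ) ^ (i - j).natAbs) * (3 / 2 : ℝ) ^ (i - l).natAbs :=
                mul_le_mul_of_nonneg_right h3 (by positivity)
            _ ≤ (m j * (2 / 3 : ℝ) ^ (i - j).natAbs) *
                  ((3 / 2 : ℝ) ^ (l - j).natAbs * (3 / 2 : ℝ) ^ (i - j).natAbs) :=
                mul_le_mul_of_nonneg_left h6 h7
            _ = (3 / 2 : ℝ) ^ (l - j).natAbs * m j *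
                  ((3 / 2 : ℝ) ^ (i - j).natAbs * (2 / 3 : ℝ) ^ (i - j).natAbs) := by ring
            _ = (3 / 2 : ℝ) ^ (l - j).natAbs * ((2 : ℝ) ^ j * lev F y j) := by rw [h5, mul_one]
        · have h3 := hJ0 l hl
          have h4 : (2 : ℝ) ^ l * lev F y l = 0 := h3
          rw [h4]
          exact mul_nonneg (by positivity) (hm0 j)
      · have h3 := hmax i hi
        simp only [sub_self, Int.natAbs_zero, pow_zero, mul_one] at h3
        exact h3
    calc ∑ i ∈ J, m i ≤ ∑ i ∈ J, ∑ j ∈ G, m j * (2 / 3 : ℝ) ^ (i - j).natAbs := by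
          refine Finset.sum_le_sum fun i hi => ?_
          obtain ⟨j, hj, hle⟩ := hch i hi
          refine hle.trans ?_
          exact Finset.single_le_sum
            (f := fun j => m j * (2 / 3 : ℝ) ^ (i - j).natAbs)
            (fun j _ => mul_nonneg (hm0 j) (by positivity)) hj
      _ = ∑ j ∈ G, m j * ∑ i ∈ J, (2 / 3 : ℝ) ^ (i - j).natAbs := by
          rw [Finset.sum_comm]
          exact Finset.sum_congr rfl fun j _ => (Finset.mul_sum _ _ _).symm
      _ ≤ ∑ j ∈ G, m j * 5 :=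
          Finset.sum_le_sum fun j _ => mul_le_mul_of_nonneg_left (sum_five J j) (hm0 j)
      _ = 5 * ∑ j ∈ G, m j := by rw [← Finset.sum_mul]; ring
  -- step 3
  have s3 : c₀ * c₂ * ∑ j ∈ G, m j ≤ 2 * ∑ e ∈ E, v e := by
    calc c₀ * c₂ * ∑ j ∈ G, m j = ∑ j ∈ G, c₀ * (2 : ℝ) ^ j * (c₂ * lev F y j) := by
          rw [Finset.mul_sum]
          exact Finset.sum_congr rfl fun j _ => by rw [hm]; ring
      _ ≤ ∑ j ∈ G, c₀ * (2 : ℝ) ^ j * ((E.filter (fun e => c₀ * (2 : ℝ) ^ j ≤ v e)).card : ℝ) := by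
          refine Finset.sum_le_sum fun j hj => ?_
          exact mul_le_mul_of_nonneg_left (h j (Finset.mem_filter.1 hj).2) (by positivity)
      _ = ∑ j ∈ G, ∑ e ∈ E, if c₀ * (2 : ℝ) ^ j ≤ v e then c₀ * (2 : ℝ) ^ j else 0 := by
          refine Finset.sum_congr rfl fun j _ => ?_
          rw [← Finset.sum_filter, Finset.sum_const, nsmul_eq_mul]
          ring
      _ = ∑ e ∈ E, ∑ j ∈ G.filter (fun j => c₀ * (2 : ℝ) ^ j ≤ v e), c₀ * (2 : ℝ) ^ j := by
          rw [Finset.sum_comm]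
          exact Finset.sum_congr rfl fun e _ => (Finset.sum_filter _ _).symm
      _ ≤ ∑ e ∈ E, 2 * v e := Finset.sum_le_sum fun e _ => geo_le G c₀ (v e) h0 (hv e)
      _ = 2 * ∑ e ∈ E, v e := (Finset.mul_sum _ _ _).symm
  have hcc : 0 < c₀ * c₂ := mul_pos h0 h2
  have s4 : c₀ * c₂ * ∑ f ∈ F, |y f| ≤ c₀ * c₂ * (2 * (5 * ∑ j ∈ G, m j)) :=
    mul_le_mul_of_nonneg_left (s1.trans (by linarith)) hcc.le
  have s5 : c₀ * c₂ * (2 * (5 * ∑ j ∈ G, m j)) = 10 * (c₀ * c₂ * ∑ j ∈ G, m j) := by ring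
  linarith

end Pool.Agent.TH494.HT2
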