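import Pool.Agent.TH494.Ell.Add2

/-! Job 1792: the elliptic logarithmic derivatives are additive (statements as asked). -/

set_option autoImplicit false

open Filter
open scoped Topology PeriodPair

noncomputable section

namespace Pool.Agent.TH494.J1792

open H667R3 Pool.Agent.W245.EB Pool.Agent.TH813.Ell

variable (L : PeriodPair)

theorem chk1 (D : Derivation ℚ ℂ ℂ) {l : ℂ} (hl : l ∈ L.lattice) : om L D l = 0 := om_of_mem L D hl

theorem chk2 (D : Derivation ℚ ℂ ℂ) (u : ℂ) {l : ℂ} (hl : l ∈ L.lattice) :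
    om L D (u + l) = om L D u := om_add_lattice L D u hl

theorem chk3 (D : Derivation ℚ ℂ ℂ) (u : ℂ) {l : ℂ} (hl : l ∈ L.lattice) :
    et L D (u + l) = et L D u + D (eta L l) := et_add_lattice L D u hl

theorem chk4 (D : Derivation ℚ ℂ ℂ) (u : ℂ) : om L D (-u) = -om L D u := om_neg L D u

theorem chk5 (D : Derivation ℚ ℂ ℂ) (u : ℂ) : et L D (-u) = -et L D u := et_neg L D u

theorem chk6 (D : Derivation ℚ ℂ ℂ) {u : ℂ} (hu : 2 * u ∈ L.lattice) :
    om L D u = 0 := om_of_two_mul_mem L D hu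

theorem chk7 (D : Derivation ℚ ℂ ℂ) (h2 : D L.g₂ = 0) (h3 : D L.g₃ = 0) {u : ℂ}
    (hu : u ∉ L.lattice) : om L D u = 0 ↔ D (℘[L] u) = 0 ∧ D (℘'[L] u) = 0 :=
  om_eq_zero_iff L D h2 h3 hu

theorem chk8 (D : Derivation ℚ ℂ ℂ) (h2 : D L.g₂ = 0) (h3 : D L.g₃ = 0) (u v : ℂ) :
    om L D (u + v) = om L D u + om L D v := om_add L D h2 h3 u v

theorem chk9 (D : Derivation ℚ ℂ ℂ) (h2 : D L.g₂ = 0) (h3 : D L.g₃ = 0) (u v : ℂ) :
    et L D (u + v) = et L D u + et L D v := et_add L D h2 h3 u v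

end Pool.Agent.TH494.J1792
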