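import Pool.Agent.TH981.SD.Stm

/-!
# Job 2235 (SD/EXP, requester helper981, MP_0bba14_pr): series expansion of `V`
-/

set_option autoImplicit false

open Pool.Agent.TH981.SD
open Finset Set Filter
open scoped BigOperators Topology Classical

namespace Pool.Agent.TH494.J2235

lemma lam_nonneg (α : ℝ) (d : ℕ) : 0 ≤ lam α d := Real.rpow_nonneg (Nat.cast_nonneg d) α

lemma lam_mono {α : ℝ} (h0 : 0 < α) {d e : ℕ} (h : d ≤ e) : lam α d ≤ lam α e :=
  Real.rpow_le_rpow (Nat.cast_nonneg d) (by exact_mod_cast h) h0.le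

lemma lam_conc {α : ℝ} (h0 : 0 < α) (h1 : α < 1) (d : ℕ) :
    lam α (d + 2) - lam α (d + 1) ≤ lam α (d + 1) - lam α d := by
  have m1 : (d : ℝ) ∈ Set.Ici (0 : ℝ) := Set.mem_Ici.2 (by positivity)
  have m2 : (d : ℝ) + 2 ∈ Set.Ici (0 : ℝ) := Set.mem_Ici.2 (by positivity)
  have hc := (Real.concaveOn_rpow h0.le h1.le).2 m1 m2 (show (0 : ℝ) ≤ 1 / 2 by norm_num)
    (show (0 : ℝ) ≤ 1 / 2 by norm_num) (by norm_num)
  simp only [smul_eq_mul] at hc
  have e1 : (1 / 2 : ℝ) * d + 1 / 2 * (d + 2) = d + 1 := by ring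
  rw [e1] at hc
  unfold lam
  push_cast
  linarith

section Op

variable {α a : ℝ} {c : ℝ → ℝ}

/-- the Duhamel operator -/
noncomputable def J (α a : ℝ) (c : ℝ → ℝ) (d : ℕ) (f : ℝ → ℝ) (t : ℝ) : ℝ :=
  ∫ s in a..t, Real.exp (-(lam α d * (t - s))) * (lam α d * (c s * f s))

/-- the primitive of `c` -/
noncomputable def I (a : ℝ) (c : ℝ → ℝ) (t : ℝ) : ℝ := ∫ s in a..t, c s

lemma J_eq (d : ℕ) (f : ℝ → ℝ) (t : ℝ) : J α a c d f t = Real.exp (-(lam α d * t)) *
    ∫ s in a..t, Real.exp (lam α d * s) * (lam α d * (c s * f s)) := by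
  unfold J
  rw [← intervalIntegral.integral_const_mul]
  refine intervalIntegral.integral_congr fun s _ => ?_
  have h : Real.exp (-(lam α d * (t - s))) =
      Real.exp (-(lam α d * t)) * Real.exp (lam α d * s) := by
    rw [← Real.exp_add]; congr 1; ring
  rw [h]; ring

lemma J_cont (hc : Continuous c) (d : ℕ) {f : ℝ → ℝ} (hf : Continuous f) :
    Continuous (J α a c d f) := by
  have : J α a c d f = fun t => Real.exp (-(lam α d * t)) *
    ∫ s in a..t, Real.exp (lam α d * s) * (lam α d * (c s * f s)) := funext (J_eq d f)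
  rw [this]
  refine (by fun_prop : Continuous fun t : ℝ => Real.exp (-(lam α d * t))).mul ?_
  exact intervalIntegral.continuous_primitive
    (fun x y => (by fun_prop : Continuous fun s : ℝ =>
      Real.exp (lam α d * s) * (lam α d * (c s * f s))).intervalIntegrable x y) a

lemma J_cont_int (hc : Continuous c) (d : ℕ) {f : ℝ → ℝ} (hf : Continuous f) (t : ℝ) :
    Continuous fun s : ℝ => Real.exp (-(lam α d * (t - s))) * (lam α d * (c s * f s)) := by
  fun_prop

lemma I_deriv (hc : Continuous c) (t : ℝ) : HasDerivAt (I a c) (c t) t :=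
  intervalIntegral.integral_hasDerivAt_right (hc.intervalIntegrable _ _)
    (hc.stronglyMeasurableAtFilter _ _) hc.continuousAt

lemma I_cont (hc : Continuous c) : Continuous (I a c) :=
  continuous_iff_continuousAt.2 fun t => (I_deriv hc t).continuousAt

lemma I_nonneg (h0 : ∀ s, 0 ≤ c s) {t : ℝ} (ht : a ≤ t) : 0 ≤ I a c t :=
  intervalIntegral.integral_nonneg ht fun s _ => h0 s

lemma I_pow (hc : Continuous c) (n : ℕ) (t : ℝ) :
    ∫ s in a..t, c s * (I a c s ^ n / n.factorial) = I a c t ^ (n + 1) / (n + 1).factorial := by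
  have h1 : ∀ s ∈ Set.uIcc a t, HasDerivAt (fun s => I a c s ^ (n + 1) / ((n + 1).factorial : ℝ))
      (c s * (I a c s ^ n / n.factorial)) s := by
    intro s _
    have h2 := ((I_deriv (a := a) hc s).pow (n + 1)).div_const ((n + 1).factorial : ℝ)
    refine h2.congr_deriv ?_
    rw [Nat.factorial_succ, Nat.add_sub_cancel]
    push_cast
    have hn : ((n : ℝ) + 1) ≠ 0 := by positivity
    have hf : (n.factorial : ℝ) ≠ 0 := by positivity
    field_simp
  rw [intervalIntegral.integral_eq_sub_of_hasDerivAt h1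
    ((hc.mul ((I_cont hc).pow n |>.div_const _)).intervalIntegrable _ _)]
  have : I a c a = 0 := intervalIntegral.integral_same
  rw [this]
  simp

lemma J_nonneg (h0 : ∀ s, 0 ≤ c s) (d : ℕ) {f : ℝ → ℝ} {t : ℝ} (ht : a ≤ t)
    (hf : ∀ s, a ≤ s → s ≤ t → 0 ≤ f s) : 0 ≤ J α a c d f t := by
  refine intervalIntegral.integral_nonneg ht fun s hs => ?_
  have := hf s hs.1 hs.2
  have := h0 s
  have := lam_nonneg α d
  positivity

lemma J_mono (hc : Continuous c) (h0 : ∀ s, 0 ≤ c s) (d : ℕ) {f g : ℝ → ℝ} (hf : Continuous f)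
    (hg : Continuous g) {t : ℝ} (ht : a ≤ t) (hfg : ∀ s, a ≤ s → s ≤ t → f s ≤ g s) :
    J α a c d f t ≤ J α a c d g t := by
  refine intervalIntegral.integral_mono_on ht ((J_cont_int hc d hf t).intervalIntegrable _ _)
    ((J_cont_int hc d hg t).intervalIntegrable _ _) fun s hs => ?_
  refine mul_le_mul_of_nonneg_left (mul_le_mul_of_nonneg_left (mul_le_mul_of_nonneg_left
    (hfg s hs.1 hs.2) (h0 s)) (lam_nonneg α d)) (Real.exp_pos _).le

lemma J_upper (hc : Continuous c) (h0 : ∀ s, 0 ≤ c s) (d n : ℕ) {f : ℝ → ℝ}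
    (hf : Continuous f) {P W t : ℝ} (hP : 0 ≤ P) (hW : 0 ≤ W) (ht : a ≤ t)
    (hfb : ∀ s, a ≤ s → s ≤ t → f s ≤ P * I a c s ^ n / n.factorial * W) :
    J α a c d f t ≤ (lam α d * P) * I a c t ^ (n + 1) / (n + 1).factorial * W := by
  have hI := I_cont (a := a) hc
  have h1 : (lam α d * P) * I a c t ^ (n + 1) / (n + 1).factorial * W =
      ∫ s in a..t, (lam α d * P * W) * (c s * (I a c s ^ n / n.factorial)) := by
    rw [intervalIntegral.integral_const_mul, I_pow hc]
    ring
  rw [h1]
  refine intervalIntegral.integral_mono_on ht ((J_cont_int hc d hf t).intervalIntegrable _ _)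
    ((continuous_const.mul (hc.mul ((hI.pow n).div_const _))).intervalIntegrable _ _)
    fun s hs => ?_
  have hIs : 0 ≤ I a c s := I_nonneg h0 hs.1
  have hl := lam_nonneg α d
  have hcs := h0 s
  have he : Real.exp (-(lam α d * (t - s))) ≤ 1 := by
    rw [Real.exp_le_one_iff]
    have : 0 ≤ lam α d * (t - s) := mul_nonneg hl (sub_nonneg.2 hs.2)
    linarith
  calc Real.exp (-(lam α d * (t - s))) * (lam α d * (c s * f s))
      ≤ Real.exp (-(lam α d * (t - s))) *
        (lam α d * (c s * (P * I a c s ^ n / n.factorial * W))) := by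
        refine mul_le_mul_of_nonneg_left (mul_le_mul_of_nonneg_left (mul_le_mul_of_nonneg_left
          (hfb s hs.1 hs.2) hcs) hl) (Real.exp_pos _).le
    _ ≤ 1 * (lam α d * (c s * (P * I a c s ^ n / n.factorial * W))) :=
        mul_le_mul_of_nonneg_right he (by positivity)
    _ = _ := by ring

lemma J_lower (hα : 0 < α) (hc : Continuous c) (h0 : ∀ s, 0 ≤ c s) (d n : ℕ) {f : ℝ → ℝ}
    (hf : Continuous f) {P W t : ℝ} (hP : 0 ≤ P) (hW : 0 ≤ W) (ht : a ≤ t)
    (hfb : ∀ s, a ≤ s → s ≤ t → P * I a c s ^ n / n.factorial *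
      (Real.exp (-(lam α (d + (n + 1)) * (s - a))) * W) ≤ f s) :
    (lam α d * P) * I a c t ^ (n + 1) / (n + 1).factorial *
      (Real.exp (-(lam α (d + (n + 1)) * (t - a))) * W) ≤ J α a c d f t := by
  have hI := I_cont (a := a) hc
  have h1 : (lam α d * P) * I a c t ^ (n + 1) / (n + 1).factorial *
      (Real.exp (-(lam α (d + (n + 1)) * (t - a))) * W) =
      ∫ s in a..t, (lam α d * P * (Real.exp (-(lam α (d + (n + 1)) * (t - a))) * W)) *
        (c s * (I a c s ^ n / n.factorial)) := by
    rw [intervalIntegral.integral_const_mul, I_pow hc]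
    ring
  rw [h1]
  refine intervalIntegral.integral_mono_on ht
    ((continuous_const.mul (hc.mul ((hI.pow n).div_const _))).intervalIntegrable _ _)
    ((J_cont_int hc d hf t).intervalIntegrable _ _) fun s hs => ?_
  have hIs : 0 ≤ I a c s := I_nonneg h0 hs.1
  have hl := lam_nonneg α d
  have hcs := h0 s
  have he : Real.exp (-(lam α (d + (n + 1)) * (t - a))) ≤
      Real.exp (-(lam α d * (t - s))) * Real.exp (-(lam α (d + (n + 1)) * (s - a))) := by
    rw [← Real.exp_add, Real.exp_le_exp]
    have h2 : lam α d * (t - s) ≤ lam α (d + (n + 1)) * (t - s) :=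
      mul_le_mul_of_nonneg_right (lam_mono hα (by omega)) (sub_nonneg.2 hs.2)
    nlinarith
  calc (lam α d * P * (Real.exp (-(lam α (d + (n + 1)) * (t - a))) * W)) *
        (c s * (I a c s ^ n / n.factorial))
      ≤ (lam α d * P * ((Real.exp (-(lam α d * (t - s))) *
          Real.exp (-(lam α (d + (n + 1)) * (s - a)))) * W)) *
        (c s * (I a c s ^ n / n.factorial)) := by
        refine mul_le_mul_of_nonneg_right (mul_le_mul_of_nonneg_left
          (mul_le_mul_of_nonneg_right he hW) (by positivity)) (by positivity)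
    _ = Real.exp (-(lam α d * (t - s))) * (lam α d * (c s * (P * I a c s ^ n / n.factorial *
          (Real.exp (-(lam α (d + (n + 1)) * (s - a))) * W)))) := by ring
    _ ≤ _ := by
        refine mul_le_mul_of_nonneg_left (mul_le_mul_of_nonneg_left (mul_le_mul_of_nonneg_left
          (hfb s hs.1 hs.2) hcs) hl) (Real.exp_pos _).le

/-- the terms of the series -/
noncomputable def vv (α a : ℝ) (c : ℝ → ℝ) (W : ℕ → ℝ) : ℕ → ℕ → ℝ → ℝ
  | 0, d, t => Real.exp (-(lam α d * (t - a))) * W d
  | (n + 1), d, t => J α a c d (vv α a c W n (d + 1)) t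

lemma vv_cont (hc : Continuous c) (W : ℕ → ℝ) (n : ℕ) : ∀ d, Continuous (vv α a c W n d) := by
  induction n with
  | zero =>
    intro d
    show Continuous fun t : ℝ => Real.exp (-(lam α d * (t - a))) * W d
    fun_prop
  | succ n ih => intro d; exact J_cont hc d (ih (d + 1))

lemma vv_nonneg (h0 : ∀ s, 0 ≤ c s) {W : ℕ → ℝ} (hW : ∀ d, 0 ≤ W d) (n : ℕ) :
    ∀ d t, a ≤ t → 0 ≤ vv α a c W n d t := by
  induction n with
  | zero => intro d t _; exact mul_nonneg (Real.exp_pos _).le (hW d)
  | succ n ih => intro d t ht; exact J_nonneg h0 d ht fun s hs _ => ih (d + 1) s hs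

lemma prod_succ (d n : ℕ) : ∏ i ∈ Finset.range (n + 1), lam α (d + i) =
    lam α d * ∏ i ∈ Finset.range n, lam α (d + 1 + i) := by
  rw [Finset.prod_range_succ', mul_comm]
  congr 1
  refine Finset.prod_congr rfl fun i _ => ?_
  congr 1; ring

lemma prod_nonneg' (d n : ℕ) : 0 ≤ ∏ i ∈ Finset.range n, lam α (d + i) :=
  Finset.prod_nonneg fun _ _ => lam_nonneg _ _

lemma vv_upper (hc : Continuous c) (h0 : ∀ s, 0 ≤ c s) {W : ℕ → ℝ} (hW : ∀ d, 0 ≤ W d)
    (n : ℕ) : ∀ d t, a ≤ t → vv α a c W n d t ≤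
      (∏ i ∈ Finset.range n, lam α (d + i)) * I a c t ^ n / n.factorial * W (d + n) := by
  induction n with
  | zero =>
    intro d t ht
    have he : Real.exp (-(lam α d * (t - a))) ≤ 1 := by
      rw [Real.exp_le_one_iff]
      have : 0 ≤ lam α d * (t - a) := mul_nonneg (lam_nonneg _ _) (sub_nonneg.2 ht)
      linarith
    have := mul_le_mul_of_nonneg_right he (hW d)
    simpa [vv] using this
  | succ n ih =>
    intro d t ht
    rw [prod_succ]
    refine J_upper hc h0 d n (vv_cont hc W n (d + 1)) (prod_nonneg' _ _) (hW _) ht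
      fun s hs _ => ?_
    have := ih (d + 1) s hs
    rwa [show d + 1 + n = d + (n + 1) by ring] at this

lemma vv_lower (hc : Continuous c) (h0 : ∀ s, 0 ≤ c s) {W : ℕ → ℝ} (hW : ∀ d, 0 ≤ W d)
    (hα : 0 < α) (n : ℕ) : ∀ d t, a ≤ t →
      (∏ i ∈ Finset.range n, lam α (d + i)) * I a c t ^ n / n.factorial *
        (Real.exp (-(lam α (d + n) * (t - a))) * W (d + n)) ≤ vv α a c W n d t := by
  induction n with
  | zero =>
    intro d t ht
    simp [vv]
  | succ n ih =>
    intro d t ht
    rw [prod_succ]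
    refine J_lower hα hc h0 d n (vv_cont hc W n (d + 1)) (prod_nonneg' _ _) (hW _) ht
      fun s hs _ => ?_
    have := ih (d + 1) s hs
    rwa [show d + 1 + n = d + (n + 1) by ring] at this

lemma vv_up (hα : 0 < α) (hc : Continuous c) (h0 : ∀ s, 0 ≤ c s) {W : ℕ → ℝ}
    (hW : ∀ d, 0 ≤ W d) (h2 : ∀ d, 1 ≤ d → W (d + 1) ≤ 2 * W d) (n : ℕ) :
    ∀ d t, 1 ≤ d → a ≤ t →
      lam α d * vv α a c W n (d + 1) t ≤ 2 * (lam α (d + n) * vv α a c W n d t) := by
  induction n with
  | zero =>
    intro d t hd ht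
    show lam α d * (Real.exp (-(lam α (d + 1) * (t - a))) * W (d + 1)) ≤
      2 * (lam α d * (Real.exp (-(lam α d * (t - a))) * W d))
    have he : Real.exp (-(lam α (d + 1) * (t - a))) ≤ Real.exp (-(lam α d * (t - a))) := by
      rw [Real.exp_le_exp]
      have := mul_le_mul_of_nonneg_right (lam_mono hα (Nat.le_succ d)) (sub_nonneg.2 ht)
      linarith
    have h3 : Real.exp (-(lam α (d + 1) * (t - a))) * W (d + 1) ≤
        Real.exp (-(lam α d * (t - a))) * (2 * W d) :=
      mul_le_mul he (h2 d hd) (hW _) (Real.exp_pos _).le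
    have h4 := mul_le_mul_of_nonneg_left h3 (lam_nonneg α d)
    linarith
  | succ n ih =>
    intro d t hd ht
    have e1 : lam α d * vv α a c W (n + 1) (d + 1) t =
        ∫ s in a..t, lam α d * (Real.exp (-(lam α (d + 1) * (t - s))) *
          (lam α (d + 1) * (c s * vv α a c W n (d + 1 + 1) s))) := by
      rw [intervalIntegral.integral_const_mul]; rfl
    have e2 : 2 * (lam α (d + (n + 1)) * vv α a c W (n + 1) d t) =
        ∫ s in a..t, (2 * lam α (d + (n + 1))) * (Real.exp (-(lam α d * (t - s))) *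
          (lam α d * (c s * vv α a c W n (d + 1) s))) := by
      rw [intervalIntegral.integral_const_mul, ← mul_assoc]; rfl
    rw [e1, e2]
    have c1 := vv_cont (a := a) (α := α) hc W n (d + 1)
    have c2 := vv_cont (a := a) (α := α) hc W n (d + 1 + 1)
    refine intervalIntegral.integral_mono_on ht
      ((continuous_const.mul (J_cont_int hc (d + 1) c2 t)).intervalIntegrable _ _)
      ((continuous_const.mul (J_cont_int hc d c1 t)).intervalIntegrable _ _) fun s hs => ?_
    have hi := ih (d + 1) s (by omega) hs.1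
    have he : Real.exp (-(lam α (d + 1) * (t - s))) ≤ Real.exp (-(lam α d * (t - s))) := by
      rw [Real.exp_le_exp]
      have := mul_le_mul_of_nonneg_right (lam_mono hα (Nat.le_succ d)) (sub_nonneg.2 hs.2)
      linarith
    have hn := vv_nonneg (α := α) h0 hW n (d + 1 + 1) s hs.1
    have hl := lam_nonneg α d
    have hl1 := lam_nonneg α (d + 1)
    calc lam α d * (Real.exp (-(lam α (d + 1) * (t - s))) *
          (lam α (d + 1) * (c s * vv α a c W n (d + 1 + 1) s)))
        = (lam α d * c s) * (Real.exp (-(lam α (d + 1) * (t - s))) *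
          (lam α (d + 1) * vv α a c W n (d + 1 + 1) s)) := by ring
      _ ≤ (lam α d * c s) * (Real.exp (-(lam α d * (t - s))) *
          (2 * (lam α (d + 1 + n) * vv α a c W n (d + 1) s))) := by
          refine mul_le_mul_of_nonneg_left (mul_le_mul he hi (by positivity)
            (Real.exp_pos _).le) (mul_nonneg hl (h0 s))
      _ = _ := by
          rw [show d + 1 + n = d + (n + 1) by ring]; ring

lemma vv_down (hα : 0 < α) (hα1 : α < 1) (hc : Continuous c) (h0 : ∀ s, 0 ≤ c s) {W : ℕ → ℝ}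
    (hW : ∀ d, 0 ≤ W d) (h2 : ∀ d, 1 ≤ d → W d ≤ W (d + 1)) (n : ℕ) :
    ∀ d t, 1 ≤ d → a ≤ t →
      Real.exp (-((lam α (d + 1) - lam α d) * (t - a))) * (lam α (d + n) * vv α a c W n d t) ≤
        lam α d * vv α a c W n (d + 1) t := by
  induction n with
  | zero =>
    intro d t hd ht
    show Real.exp (-((lam α (d + 1) - lam α d) * (t - a))) *
      (lam α d * (Real.exp (-(lam α d * (t - a))) * W d)) ≤
      lam α d * (Real.exp (-(lam α (d + 1) * (t - a))) * W (d + 1))
    have he : Real.exp (-(lam α (d + 1) * (t - a))) =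
        Real.exp (-((lam α (d + 1) - lam α d) * (t - a))) * Real.exp (-(lam α d * (t - a))) := by
      rw [← Real.exp_add]; congr 1; ring
    rw [he]
    have h3 := mul_le_mul_of_nonneg_left (h2 d hd) (mul_nonneg (lam_nonneg α d)
      (mul_nonneg (Real.exp_pos (-((lam α (d + 1) - lam α d) * (t - a)))).le
        (Real.exp_pos (-(lam α d * (t - a)))).le))
    linarith
  | succ n ih =>
    intro d t hd ht
    have e1 : lam α d * vv α a c W (n + 1) (d + 1) t =
        ∫ s in a..t, lam α d * (Real.exp (-(lam α (d + 1) * (t - s))) *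
          (lam α (d + 1) * (c s * vv α a c W n (d + 1 + 1) s))) := by
      rw [intervalIntegral.integral_const_mul]; rfl
    have e2 : Real.exp (-((lam α (d + 1) - lam α d) * (t - a))) *
        (lam α (d + (n + 1)) * vv α a c W (n + 1) d t) =
        ∫ s in a..t, (Real.exp (-((lam α (d + 1) - lam α d) * (t - a))) *
          lam α (d + (n + 1))) * (Real.exp (-(lam α d * (t - s))) *
          (lam α d * (c s * vv α a c W n (d + 1) s))) := by
      rw [intervalIntegral.integral_const_mul, ← mul_assoc]; rfl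
    rw [e1, e2]
    have c1 := vv_cont (a := a) (α := α) hc W n (d + 1)
    have c2 := vv_cont (a := a) (α := α) hc W n (d + 1 + 1)
    refine intervalIntegral.integral_mono_on ht
      ((continuous_const.mul (J_cont_int hc d c1 t)).intervalIntegrable _ _)
      ((continuous_const.mul (J_cont_int hc (d + 1) c2 t)).intervalIntegrable _ _)
      fun s hs => ?_
    have hi := ih (d + 1) s (by omega) hs.1
    have hn := vv_nonneg (α := α) h0 hW n (d + 1) s hs.1
    have hl := lam_nonneg α d
    have hl1 := lam_nonneg α (d + (n + 1))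
    have he : Real.exp (-((lam α (d + 1) - lam α d) * (t - a))) *
        Real.exp (-(lam α d * (t - s))) ≤ Real.exp (-(lam α (d + 1) * (t - s))) *
          Real.exp (-((lam α (d + 1 + 1) - lam α (d + 1)) * (s - a))) := by
      rw [← Real.exp_add, ← Real.exp_add, Real.exp_le_exp]
      have := mul_le_mul_of_nonneg_right (lam_conc hα hα1 d) (sub_nonneg.2 hs.1)
      rw [show d + 2 = d + 1 + 1 by ring] at this
      nlinarith
    calc (Real.exp (-((lam α (d + 1) - lam α d) * (t - a))) * lam α (d + (n + 1))) *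
          (Real.exp (-(lam α d * (t - s))) * (lam α d * (c s * vv α a c W n (d + 1) s)))
        = (lam α d * c s * (lam α (d + (n + 1)) * vv α a c W n (d + 1) s)) *
          (Real.exp (-((lam α (d + 1) - lam α d) * (t - a))) *
            Real.exp (-(lam α d * (t - s)))) := by ring
      _ ≤ (lam α d * c s * (lam α (d + (n + 1)) * vv α a c W n (d + 1) s)) *
          (Real.exp (-(lam α (d + 1) * (t - s))) *
          Real.exp (-((lam α (d + 1 + 1) - lam α (d + 1)) * (s - a)))) :=
          mul_le_mul_of_nonneg_left he (mul_nonneg (mul_nonneg hl (h0 s)) (mul_nonneg hl1 hn))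
      _ = (lam α d * c s * Real.exp (-(lam α (d + 1) * (t - s)))) *
          (Real.exp (-((lam α (d + 1 + 1) - lam α (d + 1)) * (s - a))) *
            (lam α (d + 1 + n) * vv α a c W n (d + 1) s)) := by
          rw [show d + 1 + n = d + (n + 1) by ring]; ring
      _ ≤ (lam α d * c s * Real.exp (-(lam α (d + 1) * (t - s)))) *
          (lam α (d + 1) * vv α a c W n (d + 1 + 1) s) :=
          mul_le_mul_of_nonneg_left hi (mul_nonneg (mul_nonneg hl (h0 s)) (Real.exp_pos _).le)
      _ = _ := by ring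

/-- the remainders -/
lemma rem_bound (hc : Continuous c) (h0 : ∀ s, 0 ≤ c s) {W : ℕ → ℝ}
    {U : ℕ → ℝ → ℝ} (hU : ∀ d, Continuous (U d)) (hUn : ∀ d s, 0 ≤ U d s)
    (hD : ∀ d t, a ≤ t → U d t = Real.exp (-(lam α d * (t - a))) * W d +
      J α a c d (U (d + 1)) t) {T B C : ℝ} (hB : 0 ≤ B) (hC : 0 ≤ C)
    (hb : ∀ d t, a ≤ t → t ≤ T → U d t ≤ B * C ^ d) (m : ℕ) :
    ∀ d t, a ≤ t → t ≤ T → 0 ≤ U d t - ∑ n ∈ Finset.range m, vv α a c W n d t ∧
      U d t - ∑ n ∈ Finset.range m, vv α a c W n d t ≤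
      (∏ i ∈ Finset.range m, lam α (d + i)) * I a c t ^ m / m.factorial * (B * C ^ (d + m)) := by
  induction m with
  | zero =>
    intro d t ht hT
    simpa using ⟨hUn d t, hb d t ht hT⟩
  | succ m ih =>
    intro d t ht hT
    have cont : Continuous fun s => U (d + 1) s - ∑ n ∈ Finset.range m, vv α a c W n (d + 1) s :=
      (hU (d + 1)).sub (continuous_finsetSum _ fun n _ => vv_cont hc W n (d + 1))
    have key : U d t - ∑ n ∈ Finset.range (m + 1), vv α a c W n d t =
        J α a c d (fun s => U (d + 1) s - ∑ n ∈ Finset.range m, vv α a c W n (d + 1) s) t := by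
      rw [Finset.sum_range_succ', hD d t ht]
      have e1 : J α a c d (fun s => U (d + 1) s -
          ∑ n ∈ Finset.range m, vv α a c W n (d + 1) s) t =
          J α a c d (U (d + 1)) t - ∑ n ∈ Finset.range m, J α a c d (vv α a c W n (d + 1)) t := by
        unfold J
        rw [← intervalIntegral.integral_finsetSum (fun n _ =>
          (J_cont_int hc d (vv_cont hc W n (d + 1)) t).intervalIntegrable _ _),
          ← intervalIntegral.integral_sub ((J_cont_int hc d (hU (d + 1)) t).intervalIntegrable _ _)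
          ((continuous_finsetSum _ fun n _ =>
            (J_cont_int hc d (vv_cont hc W n (d + 1)) t)).intervalIntegrable _ _)]
        refine intervalIntegral.integral_congr fun s _ => ?_
        beta_reduce
        rw [← Finset.mul_sum, ← Finset.mul_sum, ← Finset.mul_sum]
        ring
      rw [e1]
      show _ + _ - (∑ n ∈ Finset.range m, J α a c d (vv α a c W n (d + 1)) t +
        Real.exp (-(lam α d * (t - a))) * W d) = _
      ring
    rw [key]
    constructor
    · exact J_nonneg h0 d ht fun s hs hst => (ih (d + 1) s hs (hst.trans hT)).1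
    · rw [prod_succ]
      refine J_upper hc h0 d m cont (prod_nonneg' _ _) (by positivity) ht fun s hs hst => ?_
      have := (ih (d + 1) s hs (hst.trans hT)).2
      rwa [show d + 1 + m = d + (m + 1) by ring] at this

lemma lam_le_eps (hα : 0 < α) (hα1 : α < 1) {ε : ℝ} (hε : 0 < ε) (d : ℕ) :
    ∀ᶠ m : ℕ in atTop, lam α (d + m) ≤ ε * (m + 1) := by
  have h1 : Tendsto (fun x : ℝ => x ^ (1 - α)) atTop atTop :=
    tendsto_rpow_atTop (by linarith)
  have h2 : Tendsto (fun m : ℕ => ((d + m : ℕ) : ℝ)) atTop atTop :=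
    tendsto_natCast_atTop_atTop.comp (tendsto_atTop_mono (fun m => Nat.le_add_left m d) tendsto_id)
  filter_upwards [(h1.comp h2).eventually_ge_atTop (((d : ℝ) + 1) / ε), eventually_ge_atTop 1]
    with m hm hm1
  have hpos : (0 : ℝ) < ((d + m : ℕ) : ℝ) := by
    have : 0 < d + m := by omega
    exact_mod_cast this
  have h3 : lam α (d + m) * ((d + m : ℕ) : ℝ) ^ (1 - α) = ((d + m : ℕ) : ℝ) := by
    unfold lam
    rw [← Real.rpow_add hpos]
    simp
  have h4 : lam α (d + m) * (((d : ℝ) + 1) / ε) ≤ ((d : ℝ) + 1) * (m + 1) := by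
    calc lam α (d + m) * (((d : ℝ) + 1) / ε) ≤
        lam α (d + m) * ((d + m : ℕ) : ℝ) ^ (1 - α) :=
          mul_le_mul_of_nonneg_left hm (lam_nonneg _ _)
      _ = ((d + m : ℕ) : ℝ) := h3
      _ ≤ ((d : ℝ) + 1) * (m + 1) := by
          push_cast
          nlinarith [mul_nonneg (Nat.cast_nonneg (α := ℝ) d) (Nat.cast_nonneg (α := ℝ) m)]
  have hd : (0 : ℝ) < (d : ℝ) + 1 := by positivity
  have h5 : lam α (d + m) * (((d : ℝ) + 1) / ε) = ((d : ℝ) + 1) * (lam α (d + m) / ε) := by ring
  rw [h5] at h4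
  have h6 := le_of_mul_le_mul_left h4 hd
  rw [div_le_iff₀ hε] at h6
  linarith

lemma tendsto_bound (hα : 0 < α) (hα1 : α < 1) (d : ℕ) (A B C : ℝ) (hA : 0 ≤ A) (hB : 0 ≤ B)
    (hC : 0 ≤ C) : Tendsto (fun m : ℕ => (∏ i ∈ Finset.range m, lam α (d + i)) * A ^ m /
      m.factorial * (B * C ^ (d + m))) atTop (𝓝 0) := by
  refine Summable.tendsto_atTop_zero ?_
  refine summable_of_ratio_norm_eventually_le (r := 1 / 2) (by norm_num) ?_
  filter_upwards [lam_le_eps (α := α) hα hα1 (ε := 1 / (2 * (A * C + 1))) (by positivity) d]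
    with m hm
  have hp := prod_nonneg' (α := α) d m
  have hl := lam_nonneg α (d + m)
  rw [Real.norm_of_nonneg (by
    have := prod_nonneg' (α := α) d (m + 1)
    positivity), Real.norm_of_nonneg (by positivity), Finset.prod_range_succ,
    Nat.factorial_succ]
  push_cast
  have hm1 : (0 : ℝ) < (m : ℝ) + 1 := by positivity
  have e : (∏ i ∈ Finset.range m, lam α (d + i)) * lam α (d + m) * A ^ (m + 1) /
      (((m : ℝ) + 1) * m.factorial) * (B * C ^ (d + (m + 1))) =
      ((∏ i ∈ Finset.range m, lam α (d + i)) * A ^ m / m.factorial * (B * C ^ (d + m))) *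
        (lam α (d + m) * (A * C) / (m + 1)) := by
    field_simp
    ring
  rw [e, mul_comm]
  refine mul_le_mul_of_nonneg_right ?_ (by positivity)
  rw [div_le_iff₀ hm1]
  calc lam α (d + m) * (A * C) ≤ (1 / (2 * (A * C + 1)) * (m + 1)) * (A * C) :=
        mul_le_mul_of_nonneg_right hm (by positivity)
    _ = (1 / 2 * (m + 1)) * (A * C / (A * C + 1)) := by field_simp
    _ ≤ (1 / 2 * (m + 1)) * 1 := by
        refine mul_le_mul_of_nonneg_left ?_ (by positivity)
        rw [div_le_one (by positivity)]; linarith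
    _ = 1 / 2 * (m + 1) := mul_one _

end Op

theorem exp_ (_h1 : S_YF) : S_EXP := by
  intro α z K a Y V hα hα1 hz hz1 hK ha hY hV
  -- continuity of `Y`, `V`, `c`
  have cY : ∀ d, ContinuousOn (Y d) (Set.Ici 0) := fun d t ht =>
    (hY.deriv d t ht).continuousWithinAt
  have cV : ∀ d, ContinuousOn (V d) (Set.Ici 0) := fun d t ht =>
    (hV.deriv d t ht).continuousWithinAt
  have cc0 : ContinuousOn (cc Y K) (Set.Ici 0) := by
    unfold cc m1
    exact (cY 1).add (continuousOn_const.mul ((cY 1).mul (continuousOn_const.sub (cY 2))))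
  have hcnn : ∀ t, 0 ≤ t → 0 ≤ cc Y K t := by
    intro t ht
    unfold cc m1
    have h1 := hY.pos 1 t ht
    have h2 := hY.le 2 t ht
    have h3 : 0 ≤ 1 - Y 2 t := by linarith
    positivity
  have hmax : Continuous fun s : ℝ => max a s := continuous_const.max continuous_id
  have hmax0 : ∀ s : ℝ, max a s ∈ Set.Ici (0 : ℝ) := fun s => ha.trans (le_max_left _ _)
  set c : ℝ → ℝ := fun s => cc Y K (max a s) with hc
  have c_cont : Continuous c := cc0.comp_continuous hmax hmax0
  have c_nonneg : ∀ s, 0 ≤ c s := fun s => hcnn _ (hmax0 s)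
  set U : ℕ → ℝ → ℝ := fun d s => V d (max a s) with hU
  have U_cont : ∀ d, Continuous (U d) := fun d => (cV d).comp_continuous hmax hmax0
  have U_nonneg : ∀ d s, 0 ≤ U d s := fun d s => (hV.pos d _ (hmax0 s)).le
  have U_eq : ∀ d s, a ≤ s → U d s = V d s := fun d s hs => by
    show V d (max a s) = V d s
    rw [max_eq_right hs]
  have c_eq : ∀ s, a ≤ s → c s = cc Y K s := fun s hs => by
    show cc Y K (max a s) = cc Y K s
    rw [max_eq_right hs]
  have I_eq : ∀ t, a ≤ t → I a c t = ∫ s in a..t, cc Y K s := by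
    intro t ht
    refine intervalIntegral.integral_congr fun s hs => ?_
    rw [Set.uIcc_of_le ht] at hs
    exact c_eq s hs.1
  set W : ℕ → ℝ := fun d => V d a with hW
  have W_nonneg : ∀ d, 0 ≤ W d := fun d => (hV.pos d a ha).le
  -- Duhamel
  have hD : ∀ d t, a ≤ t → U d t = Real.exp (-(lam α d * (t - a))) * W d +
      J α a c d (U (d + 1)) t := by
    intro d t ht
    have h1 : ContinuousOn (fun s => Real.exp (lam α d * s) * V d s) (Set.Icc a t) :=
      (by fun_prop : Continuous fun s : ℝ => Real.exp (lam α d * s)).continuousOn.mul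
        ((cV d).mono fun s hs => ha.trans hs.1)
    have h2 : ∀ s ∈ Set.Ioo a t, HasDerivWithinAt (fun s => Real.exp (lam α d * s) * V d s)
        (Real.exp (lam α d * s) * (lam α d * (c s * U (d + 1) s))) (Set.Ioi s) s := by
      intro s hs
      have hs0 : 0 ≤ s := ha.trans hs.1.le
      have e1 : HasDerivWithinAt (fun s : ℝ => Real.exp (lam α d * s))
          (Real.exp (lam α d * s) * (lam α d * 1)) (Set.Ioi s) s :=
        (((hasDerivAt_id s).const_mul (lam α d)).exp).hasDerivWithinAt
      have e2 := (hV.deriv d s hs0).mono (fun x hx => hs0.trans (le_of_lt hx) :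
        Set.Ioi s ⊆ Set.Ici 0)
      refine (e1.mul e2).congr_deriv ?_
      rw [U_eq _ _ hs.1.le, c_eq _ hs.1.le]
      ring
    have h3 : Continuous fun s : ℝ =>
        Real.exp (lam α d * s) * (lam α d * (c s * U (d + 1) s)) := by
      have := U_cont (d + 1)
      fun_prop
    have h4 := intervalIntegral.integral_eq_sub_of_hasDeriv_right_of_le ht h1 h2
      (h3.intervalIntegrable _ _)
    rw [J_eq, h4, U_eq d t ht]
    have e3 : Real.exp (-(lam α d * t)) * Real.exp (lam α d * t) = 1 := by
      rw [← Real.exp_add]; simp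
    have e4 : Real.exp (-(lam α d * t)) * Real.exp (lam α d * a) =
        Real.exp (-(lam α d * (t - a))) := by
      rw [← Real.exp_add]; congr 1; ring
    calc V d t = (Real.exp (-(lam α d * t)) * Real.exp (lam α d * t)) * V d t := by
          rw [e3, one_mul]
      _ = Real.exp (-(lam α d * (t - a))) * V d a + (Real.exp (-(lam α d * t)) *
          (Real.exp (lam α d * t) * V d t) - (Real.exp (-(lam α d * t)) *
            Real.exp (lam α d * a)) * V d a) := by rw [e4]; ring
      _ = _ := by ring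
  refine ⟨fun d n t => vv α a c W n d t, ?_, ?_, ?_, ?_, ?_, ?_, ?_⟩
  · intro d n t ht
    exact vv_nonneg c_nonneg W_nonneg n d t ht
  · intro d t ht
    rw [hasSum_iff_tendsto_nat_of_nonneg fun n => vv_nonneg c_nonneg W_nonneg n d t ht]
    obtain ⟨B, C, hB, hC, hb⟩ := hV.bdd t (ha.trans ht)
    have hr := rem_bound c_cont c_nonneg U_cont U_nonneg hD (T := t) hB (zero_le_one.trans hC)
      (fun d s hs hst => by rw [U_eq d s hs]; exact hb d s (ha.trans hs) hst)
    have hlim := tendsto_bound hα hα1 d (I a c t) B C (I_nonneg c_nonneg ht) hB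
      (zero_le_one.trans hC)
    have h0 : Tendsto (fun m => U d t - ∑ n ∈ Finset.range m, vv α a c W n d t) atTop (𝓝 0) :=
      tendsto_of_tendsto_of_tendsto_of_le_of_le tendsto_const_nhds hlim
        (fun m => (hr m d t ht le_rfl).1) (fun m => (hr m d t ht le_rfl).2)
    have h1 := (tendsto_const_nhds (x := U d t)).sub h0
    rw [sub_zero, U_eq d t ht] at h1
    refine h1.congr fun m => ?_
    rw [← U_eq d t ht]
    ring
  · intro d t ht
    rfl
  · intro d n t ht
    rw [← I_eq t ht]
    exact vv_upper c_cont c_nonneg W_nonneg n d t ht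
  · intro d n t ht
    rw [← I_eq t ht]
    exact vv_lower c_cont c_nonneg W_nonneg hα n d t ht
  · intro h d n t hd ht
    exact vv_up hα c_cont c_nonneg W_nonneg h n d t hd ht
  · intro h d n t hd ht
    exact vv_down hα hα1 c_cont c_nonneg W_nonneg h n d t hd ht

end Pool.Agent.TH494.J2235
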