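import Pool.Agent.TH981.SD.Stm

/-!
# Job 2294 (SD/UB, requester helper981, MP_0bba14_pr): upper bound for the pattern functional
-/

set_option autoImplicit false

open Pool.Agent.TH981.SD
open Finset Set Filter
open scoped BigOperators Topology Classical

namespace Pool.Agent.TH494.J2294

/-- monotonicity of a continuous function with nonnegative derivative off one point -/
lemma mono_off {φ φ' : ℝ → ℝ} {a1 τ : ℝ} (hτ : 0 ≤ τ) (hc : ContinuousOn φ (Set.Icc 0 τ))
    (hd : ∀ t, 0 < t → t < τ → t ≠ a1 → HasDerivAt φ (φ' t) t ∧ 0 ≤ φ' t) : φ 0 ≤ φ τ := by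
  have key : ∀ p q : ℝ, 0 ≤ p → p ≤ q → q ≤ τ → (∀ t, p < t → t < q → t ≠ a1) → φ p ≤ φ q := by
    intro p q hp hpq hq hne
    have hm : MonotoneOn φ (Set.Icc p q) := by
      refine monotoneOn_of_deriv_nonneg (convex_Icc p q)
        (hc.mono (Set.Icc_subset_Icc hp hq)) ?_ ?_
      · intro t ht
        rw [interior_Icc] at ht
        exact (hd t (lt_of_le_of_lt hp ht.1) (lt_of_lt_of_le ht.2 hq)
          (hne t ht.1 ht.2)).1.differentiableAt.differentiableWithinAt
      · intro t ht
        rw [interior_Icc] at ht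
        have := hd t (lt_of_le_of_lt hp ht.1) (lt_of_lt_of_le ht.2 hq) (hne t ht.1 ht.2)
        rw [this.1.deriv]; exact this.2
    exact hm (Set.left_mem_Icc.2 hpq) (Set.right_mem_Icc.2 hpq) hpq
  by_cases h : 0 < a1 ∧ a1 < τ
  · exact (key 0 a1 le_rfl h.1.le h.2.le (fun t _ ht => ht.ne)).trans
      (key a1 τ h.1.le h.2.le le_rfl (fun t ht _ => ht.ne'))
  · refine key 0 τ le_rfl hτ le_rfl fun t h1 h2 h3 => ?_
    subst h3
    exact h ⟨h1, h2⟩

lemma psum_succ (α : ℝ) (f : (n : ℕ) → SimpleGraph (Fin n) → ℝ) (m n : ℕ)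
    (G : SimpleGraph (Fin n)) : psum α f (m + 1) n G =
      ∑ v, (lam α (dg G v) / totW α G) * psum α f m (n + 1) (attach G v) + f n G := by
  unfold psum
  rw [Finset.sum_range_succ']
  congr 1
  simp only [Finset.mul_sum]
  rw [Finset.sum_comm]
  refine Finset.sum_congr rfl fun i _ => ?_
  rfl

/-- the abstract form -/
theorem core (α : ℝ) (hα : 0 < α) (hα1 : α < 1) (hATT : S_ATT) (hTW : S_TW)
    (u : (n : ℕ) → SimpleGraph (Fin n) → ℝ → ℝ) (f0 : (n : ℕ) → SimpleGraph (Fin n) → ℝ)
    (a1 : ℝ)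
    (hc : ∀ (n : ℕ) (G : SimpleGraph (Fin n)), G.IsTree → 2 ≤ n →
      ContinuousOn (u n G) (Set.Ici 0))
    (hd : ∀ (n : ℕ) (G : SimpleGraph (Fin n)), G.IsTree → 2 ≤ n → ∀ t, 0 ≤ t → t ≠ a1 →
      ∃ Ud, HasDerivWithinAt (u n G) Ud (Set.Ici 0) t ∧
        ∑ v, lam α (dg G v) * (u (n + 1) (attach G v) t - u n G t) ≤ Ud)
    (hnn : ∀ (n : ℕ) (G : SimpleGraph (Fin n)), G.IsTree → 2 ≤ n → ∀ t, 0 ≤ t → 0 ≤ u n G t)
    (hf : ∀ (n : ℕ) (G : SimpleGraph (Fin n)), G.IsTree → 2 ≤ n → f0 n G ≤ u n G 0)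
    (hl : ∀ (n : ℕ) (G : SimpleGraph (Fin n)), G.IsTree → 2 ≤ n →
      Tendsto (u n G) atTop (𝓝 0))
    (n : ℕ) (G : SimpleGraph (Fin n)) (hG : G.IsTree) (hn : 2 ≤ n) (B : ℝ)
    (hB : ∀ τ, 0 ≤ τ → ∫ t in (0 : ℝ)..τ, u n G t ≤ B) (m : ℕ) :
    psum α (fun n G => f0 n G / totW α G) m n G ≤ B := by
  -- the integrals
  set FF : (n : ℕ) → SimpleGraph (Fin n) → ℝ → ℝ := fun n G τ => ∫ t in (0 : ℝ)..τ, u n G t
    with hFF
  have hW : ∀ (n : ℕ) (G : SimpleGraph (Fin n)), G.IsTree → 2 ≤ n → 0 < totW α G := by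
    intro n G hG hn
    have h1 := (hTW α n G hα hα1 hn hG).2.2.1
    have h2 : (0 : ℝ) < n := by
      have : 0 < n := by omega
      exact_mod_cast this
    linarith
  have hT : ∀ (n : ℕ) (G : SimpleGraph (Fin n)) (v : Fin n), G.IsTree → (attach G v).IsTree :=
    fun n G v hG => (hATT n G v hG).1
  -- one step
  have stepA : ∀ (n : ℕ) (G : SimpleGraph (Fin n)), G.IsTree → 2 ≤ n → ∀ τ, 0 ≤ τ →
      u n G 0 + ∑ v, lam α (dg G v) * (FF (n + 1) (attach G v) τ - FF n G τ) ≤ u n G τ := by
    intro n G hG hn τ hτ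
    have hmax : Continuous fun s : ℝ => max 0 s := continuous_const.max continuous_id
    have hmax0 : ∀ s : ℝ, max 0 s ∈ Set.Ici (0 : ℝ) := fun s => Set.mem_Ici.2 (le_max_left _ _)
    set U : ℝ → ℝ := fun s => u n G (max 0 s) with hU
    set Uv : Fin n → ℝ → ℝ := fun v s => u (n + 1) (attach G v) (max 0 s) with hUv
    have U_cont : Continuous U := (hc n G hG hn).comp_continuous hmax hmax0
    have Uv_cont : ∀ v, Continuous (Uv v) := fun v =>
      (hc (n + 1) _ (hT n G v hG) (by omega)).comp_continuous hmax hmax0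
    set S : ℝ → ℝ := fun s => ∑ v, lam α (dg G v) * (Uv v s - U s) with hS
    have S_cont : Continuous S := by
      refine continuous_finsetSum _ fun v _ => ?_
      exact continuous_const.mul ((Uv_cont v).sub U_cont)
    have hprim : ∀ t, HasDerivAt (fun t => ∫ s in (0 : ℝ)..t, S s) (S t) t := fun t =>
      intervalIntegral.integral_hasDerivAt_right (S_cont.intervalIntegrable _ _)
        (S_cont.stronglyMeasurableAtFilter _ _) S_cont.continuousAt
    have hm := mono_off (φ := fun t => u n G t - ∫ s in (0 : ℝ)..t, S s)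
      (φ' := fun t => deriv (u n G) t - S t) (a1 := a1) hτ
      (((hc n G hG hn).mono (fun t ht => ht.1)).sub
        (fun t _ => (hprim t).continuousAt.continuousWithinAt)) (by
        intro t ht0 htτ hta
        obtain ⟨Ud, h1, h2⟩ := hd n G hG hn t ht0.le hta
        have h3 : HasDerivAt (u n G) Ud t := h1.hasDerivAt (Ici_mem_nhds ht0)
        refine ⟨?_, ?_⟩
        · rw [h3.deriv]; exact h3.sub (hprim t)
        · rw [h3.deriv]
          have h4 : S t = ∑ v, lam α (dg G v) * (u (n + 1) (attach G v) t - u n G t) := by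
            simp only [hS, hUv, hU, max_eq_right ht0.le]
          rw [h4]; linarith)
    beta_reduce at hm
    rw [intervalIntegral.integral_same, sub_zero] at hm
    have hI : ∫ s in (0 : ℝ)..τ, S s =
        ∑ v, lam α (dg G v) * (FF (n + 1) (attach G v) τ - FF n G τ) := by
      have hint : ∀ v, Continuous fun s : ℝ => lam α (dg G v) * (Uv v s - U s) :=
        fun v => continuous_const.mul ((Uv_cont v).sub U_cont)
      simp only [hS]
      rw [intervalIntegral.integral_finsetSum (fun v _ => (hint v).intervalIntegrable _ _)]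
      refine Finset.sum_congr rfl fun v _ => ?_
      rw [intervalIntegral.integral_const_mul, intervalIntegral.integral_sub
        ((Uv_cont v).intervalIntegrable _ _) (U_cont.intervalIntegrable _ _)]
      have e1 : ∫ s in (0 : ℝ)..τ, Uv v s = FF (n + 1) (attach G v) τ := by
        refine intervalIntegral.integral_congr fun s hs => ?_
        rw [Set.uIcc_of_le hτ] at hs
        simp only [hUv, max_eq_right hs.1]
      have e2 : ∫ s in (0 : ℝ)..τ, U s = FF n G τ := by
        refine intervalIntegral.integral_congr fun s hs => ?_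
        rw [Set.uIcc_of_le hτ] at hs
        simp only [hU, max_eq_right hs.1]
      rw [e1, e2]
    rw [hI] at hm
    linarith
  have stepB : ∀ (n : ℕ) (G : SimpleGraph (Fin n)), G.IsTree → 2 ≤ n → ∀ τ, 0 ≤ τ →
      f0 n G / totW α G + ∑ v, (lam α (dg G v) / totW α G) * FF (n + 1) (attach G v) τ ≤
        FF n G τ + u n G τ / totW α G := by
    intro n G hG hn τ hτ
    have hR := hW n G hG hn
    have h1 := stepA n G hG hn τ hτ
    have h2 := hf n G hG hn
    have h3 : ∑ v, lam α (dg G v) * (FF (n + 1) (attach G v) τ - FF n G τ) =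
        ∑ v, lam α (dg G v) * FF (n + 1) (attach G v) τ - totW α G * FF n G τ := by
      unfold totW
      rw [Finset.sum_mul, ← Finset.sum_sub_distrib]
      exact Finset.sum_congr rfl fun v _ => by ring
    rw [h3] at h1
    have h4 : ∑ v, (lam α (dg G v) / totW α G) * FF (n + 1) (attach G v) τ =
        (∑ v, lam α (dg G v) * FF (n + 1) (attach G v) τ) / totW α G := by
      rw [Finset.sum_div]
      exact Finset.sum_congr rfl fun v _ => by ring
    rw [h4, ← add_div]
    have h5 : FF n G τ + u n G τ / totW α G = (totW α G * FF n G τ + u n G τ) / totW α G := by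
      field_simp
    rw [h5]
    exact div_le_div_of_nonneg_right (by linarith) hR.le
  have stepC : ∀ (m n : ℕ) (G : SimpleGraph (Fin n)), G.IsTree → 2 ≤ n → ∀ τ, 0 ≤ τ →
      psum α (fun n G => f0 n G / totW α G) m n G ≤ FF n G τ +
        psum α (fun n' G' => u n' G' τ / totW α G') m n G := by
    intro m
    induction m with
    | zero =>
      intro n G hG hn τ hτ
      have : 0 ≤ FF n G τ := intervalIntegral.integral_nonneg hτ fun t ht => hnn n G hG hn t ht.1
      simpa [psum] using this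
    | succ m ih =>
      intro n G hG hn τ hτ
      rw [psum_succ, psum_succ]
      have hR := hW n G hG hn
      have h1 := stepB n G hG hn τ hτ
      have h2 : ∑ v, (lam α (dg G v) / totW α G) *
          psum α (fun n G => f0 n G / totW α G) m (n + 1) (attach G v) ≤
          ∑ v, (lam α (dg G v) / totW α G) * FF (n + 1) (attach G v) τ +
          ∑ v, (lam α (dg G v) / totW α G) *
            psum α (fun n' G' => u n' G' τ / totW α G') m (n + 1) (attach G v) := by
        rw [← Finset.sum_add_distrib]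
        refine Finset.sum_le_sum fun v _ => ?_
        rw [← mul_add]
        refine mul_le_mul_of_nonneg_left (ih (n + 1) _ (hT n G v hG) (by omega) τ hτ) ?_
        exact div_nonneg (Real.rpow_nonneg (Nat.cast_nonneg _) _) hR.le
      linarith
  have stepD : ∀ (i n : ℕ) (G : SimpleGraph (Fin n)), G.IsTree → 2 ≤ n →
      Tendsto (fun τ => pexp α (fun n' G' => u n' G' τ / totW α G') i n G) atTop (𝓝 0) := by
    intro i
    induction i with
    | zero =>
      intro n G hG hn
      have := (hl n G hG hn).div_const (totW α G)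
      simpa [pexp] using this
    | succ i ih =>
      intro n G hG hn
      have h1 : Tendsto (fun τ => ∑ v, (lam α (dg G v) / totW α G) *
          pexp α (fun n' G' => u n' G' τ / totW α G') i (n + 1) (attach G v)) atTop
          (𝓝 (∑ v : Fin n, (lam α (dg G v) / totW α G) * 0)) :=
        tendsto_finsetSum _ fun v _ =>
          (ih (n + 1) (attach G v) (hT n G v hG) (by omega)).const_mul _
      simpa [pexp] using h1
  have hlim : Tendsto (fun τ => B + psum α (fun n' G' => u n' G' τ / totW α G') m n G) atTop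
      (𝓝 (B + 0)) := by
    refine tendsto_const_nhds.add ?_
    have : Tendsto (fun τ => psum α (fun n' G' => u n' G' τ / totW α G') m n G) atTop
        (𝓝 (∑ _i ∈ Finset.range m, (0 : ℝ))) :=
      tendsto_finsetSum _ fun i _ => stepD i n G hG hn
    simpa using this
  rw [add_zero] at hlim
  refine ge_of_tendsto hlim ?_
  filter_upwards [eventually_ge_atTop (0 : ℝ)] with τ hτ
  exact (stepC m n G hG hn τ hτ).trans (add_le_add_left (hB τ hτ) _)

theorem ub (h1 : S_GEN) (h2 : S_ATT) (h3 : S_TW) (_h4 : S_PE) : S_UB := by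
  intro j n α z J Kv Km g Y Gf Gf' Z Z' Eh Eh' mu kap x4 x3 a1 G hS hG hn B hB m
  have key := fun (n : ℕ) (G : SimpleGraph (Fin n)) (hG : G.IsTree) (hn : 2 ≤ n) =>
    h1 j n α z J Kv Km g Y Gf Gf' Z Z' Eh Eh' mu kap x4 x3 a1 G hS hG hn
  exact core α hS.α0 hS.α1 h2 h3 (fun n G => Ub α J Kv Y Gf Z Eh G)
    (fun n G => fz α z J Kv g n G) a1 (fun n G hG hn => (key n G hG hn).1)
    (fun n G hG hn => (key n G hG hn).2.2.1) (fun n G hG hn => (key n G hG hn).2.1)
    (fun n G hG hn => (key n G hG hn).2.2.2.1) (fun n G hG hn => (key n G hG hn).2.2.2.2)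
    n G hG hn B hB m

end Pool.Agent.TH494.J2294
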