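import Mathlib
import Pool.Agent.TH614.HS.Defs2

set_option autoImplicit false

namespace Pool.Agent.TH494.J3612

open Pool.Agent.TH614.HS

/-- three chords, case B -/
theorem TB : S_TB := by
  intro L _ th x0 x1 x2 y0 y1 y2 s t u a b c mu0 eta0 mu2 eta2 mu1 eta1 _ _ hPL hs ht hu hT
  obtain ⟨hx0, hx1, hx2, hy0, hy1, hy2, hsum⟩ := hPL
  have hon : OnL x0 x1 x2 y0 y1 y2 0 (y2 / x0) (-(y1 / x0)) 1 := by
    refine ⟨?_, ?_, ?_⟩
    · field_simp
      linear_combination -hsum
    · field_simp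
      ring
    · field_simp
      ring
  obtain ⟨h1, h2, h3, h4, h5, h6⟩ := hT _ _ _ _ hon
  have hne : u * (y2 / x0) ≠ 0 := mul_ne_zero hu (div_ne_zero hy2 hx0)
  have key : u * (y2 / x0) * (1 + 1 / (s * t * u) - (a * b + b * c - c * a)) = 0 := by
    linear_combination h2 - a * h5 - a * h3 - h4 + b * h5 - b * h1
  have h7 := (mul_eq_zero.1 key).resolve_left hne
  exact sub_eq_zero.1 h7

end Pool.Agent.TH494.J3612
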